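import Mathlib

set_option autoImplicit false

/-!
# Basic facts on multiplicative functions periodic modulo infinitely many primes
-/

namespace Pool.Agent.Lib.MP_c7ee41_nt

/-- The set `S_F`. -/
def SF (F : ArithmeticFunction ℤ) : Set ℕ :=
  {ℓ : ℕ | ℓ.Prime ∧ ∀ n : ℕ, 0 < n → F (n + ℓ) ≡ F n [ZMOD (ℓ : ℤ)]}

lemma modEq_add_mul {F : ArithmeticFunction ℤ} {ℓ : ℕ} (hℓ : ℓ ∈ SF F) {n : ℕ} (hn : 0 < n)
    (t : ℕ) : F (n + t * ℓ) ≡ F n [ZMOD (ℓ : ℤ)] := by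
  induction t with
  | zero => simp
  | succ t ih =>
    have : n + (t + 1) * ℓ = (n + t * ℓ) + ℓ := by ring
    rw [this]
    exact (hℓ.2 _ (by omega)).trans ih

lemma modEq_of_modEq {F : ArithmeticFunction ℤ} {ℓ : ℕ} (hℓ : ℓ ∈ SF F) {m n : ℕ} (hm : 0 < m)
    (hn : 0 < n) (h : m ≡ n [MOD ℓ]) : F m ≡ F n [ZMOD (ℓ : ℤ)] := by
  rcases le_total m n with hle | hle
  · obtain ⟨t, ht⟩ := (Nat.modEq_iff_dvd' hle).1 h
    have : n = m + t * ℓ := by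
      rw [mul_comm]; omega
    rw [this]
    exact (modEq_add_mul hℓ hm t).symm
  · obtain ⟨t, ht⟩ := (Nat.modEq_iff_dvd' hle).1 h.symm
    have : m = n + t * ℓ := by
      rw [mul_comm]; omega
    rw [this]
    exact modEq_add_mul hℓ hn t

/-- an integer divisible by infinitely many naturals is zero -/
lemma eq_zero_of_infinite {S : Set ℕ} (hS : S.Infinite) {a : ℤ} {B : ℕ}
    (h : ∀ ℓ ∈ S, B < ℓ → (ℓ : ℤ) ∣ a) : a = 0 := by
  obtain ⟨ℓ, hℓ, hlt⟩ := hS.exists_gt (max B a.natAbs)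
  have h1 := h ℓ hℓ (lt_of_le_of_lt (le_max_left _ _) hlt)
  have h2 : a.natAbs < ℓ := lt_of_le_of_lt (le_max_right _ _) hlt
  exact Int.eq_zero_of_abs_lt_dvd h1 (by rw [Int.abs_eq_natAbs]; exact_mod_cast h2)

lemma mul_modEq {F : ArithmeticFunction ℤ} (hF : F.IsMultiplicative) {ℓ : ℕ} (hℓ : ℓ ∈ SF F)
    {m n : ℕ} (hm : 0 < m) (hn : 0 < n) (hlt : m < ℓ) :
    F (m * n) ≡ F m * F n [ZMOD (ℓ : ℤ)] := by
  have hcop : Nat.Coprime ℓ m := by
    rw [Nat.Prime.coprime_iff_not_dvd hℓ.1]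
    intro h
    have := Nat.le_of_dvd hm h
    omega
  -- choose `N ≡ n (mod ℓ)`, `N ≡ 1 (mod m)`
  obtain ⟨N, hN1, hN2⟩ := Nat.chineseRemainder hcop n 1
  set N' := N + ℓ * m with hN'
  have hN'pos : 0 < N' := by
    have := Nat.mul_pos hℓ.1.pos hm
    omega
  have h1 : N' ≡ n [MOD ℓ] := by
    have : N + ℓ * m ≡ N + 0 [MOD ℓ] := Nat.ModEq.add_left N (Nat.modEq_zero_iff_dvd.2 (dvd_mul_right _ _))
    exact this.trans (by simpa using hN1)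
  have h2 : N' ≡ 1 [MOD m] := by
    have : N + ℓ * m ≡ N + 0 [MOD m] := Nat.ModEq.add_left N (Nat.modEq_zero_iff_dvd.2 (dvd_mul_left _ _))
    exact this.trans (by simpa using hN2)
  have hcop2 : Nat.Coprime m N' := by
    have := Nat.ModEq.gcd_eq h2
    rw [Nat.gcd_one_left] at this
    rw [Nat.coprime_comm]
    exact this
  have h3 : F (m * N') ≡ F (m * n) [ZMOD (ℓ : ℤ)] :=
    modEq_of_modEq hℓ (Nat.mul_pos hm hN'pos) (Nat.mul_pos hm hn) (h1.mul_left m)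
  have h4 : F N' ≡ F n [ZMOD (ℓ : ℤ)] := modEq_of_modEq hℓ hN'pos hn h1
  rw [hF.map_mul_of_coprime hcop2] at h3
  exact h3.symm.trans (h4.mul_left _)

/-- `F` is completely multiplicative. -/
lemma completely_mul {F : ArithmeticFunction ℤ} (hF : F.IsMultiplicative) (hS : (SF F).Infinite)
    {m n : ℕ} (hm : 0 < m) (hn : 0 < n) : F (m * n) = F m * F n := by
  have : F (m * n) - F m * F n = 0 := by
    apply eq_zero_of_infinite hS (B := m)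
    intro ℓ hℓ hlt
    exact (mul_modEq hF hℓ hm hn hlt).symm.dvd
  linarith

lemma pow_eq {F : ArithmeticFunction ℤ} (hF : F.IsMultiplicative) (hS : (SF F).Infinite)
    {m : ℕ} (hm : 0 < m) (j : ℕ) : F (m ^ j) = F m ^ j := by
  induction j with
  | zero => simp [hF.map_one]
  | succ j ih =>
    rw [pow_succ, completely_mul hF hS (pow_pos hm j) hm, ih, pow_succ]

/-- `F n` is not divisible by `ℓ ∈ S_F` if `n` is not. -/
lemma not_dvd {F : ArithmeticFunction ℤ} (hF : F.IsMultiplicative) (hS : (SF F).Infinite)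
    {ℓ : ℕ} (hℓ : ℓ ∈ SF F) {n : ℕ} (hn : 0 < n) (h : ¬ ℓ ∣ n) : ¬ (ℓ : ℤ) ∣ F n := by
  intro hdvd
  have hcop : Nat.Coprime n ℓ := ((Nat.Prime.coprime_iff_not_dvd hℓ.1).2 h).symm
  obtain ⟨m, hm⟩ := Nat.exists_mul_mod_eq_one_of_coprime hcop hℓ.1.one_lt
  have hm0 : 0 < m := by
    rcases Nat.eq_zero_or_pos m with h0 | h0
    · rw [h0] at hm
      simp at hm
    · exact h0
  have h1 : n * m ≡ 1 [MOD ℓ] := by
    unfold Nat.ModEq
    rw [hm.2, Nat.mod_eq_of_lt hℓ.1.one_lt]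
  have h2 := modEq_of_modEq hℓ (Nat.mul_pos hn hm0) one_pos h1
  rw [completely_mul hF hS hn hm0, hF.map_one] at h2
  have h3 : (ℓ : ℤ) ∣ 1 := by
    have h4 := (Int.modEq_iff_dvd.1 h2)
    have h5 : (ℓ : ℤ) ∣ F n * F m := Dvd.dvd.mul_right hdvd _
    have := dvd_add h4 h5
    simpa using this
  have h4 := Int.natAbs_dvd_natAbs.2 h3
  simp at h4
  exact hℓ.1.one_lt.ne' h4

lemma ne_zero {F : ArithmeticFunction ℤ} (hF : F.IsMultiplicative) (hS : (SF F).Infinite)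
    {n : ℕ} (hn : 0 < n) : F n ≠ 0 := by
  intro h0
  obtain ⟨ℓ, hℓ, hlt⟩ := hS.exists_gt n
  have h1 : ¬ ℓ ∣ n := fun h => by
    have := Nat.le_of_dvd hn h
    omega
  apply not_dvd hF hS hℓ hn h1
  rw [h0]
  exact dvd_zero _

/-- if `|F n| = n ^ d` for all `n` then `F n = n ^ d`. -/
lemma sign_lemma {F : ArithmeticFunction ℤ} (hS : (SF F).Infinite)
    (h1 : F 1 = 1) {d : ℕ} (h : ∀ n : ℕ, 0 < n → (F n).natAbs = n ^ d) :
    ∀ n : ℕ, 0 < n → F n = (n : ℤ) ^ d := by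
  intro n hn
  obtain ⟨ℓ, hℓ, hlt⟩ := hS.exists_gt (max 2 n)
  obtain ⟨ℓ', hℓ', hlt'⟩ := hS.exists_gt ℓ
  have hn2 : n < ℓ := lt_of_le_of_lt (le_max_right _ _) hlt
  have h22 : 2 < ℓ := lt_of_le_of_lt (le_max_left _ _) hlt
  have hcop : Nat.Coprime ℓ ℓ' := (Nat.coprime_primes hℓ.1 hℓ'.1).2 (by omega)
  obtain ⟨N, hN1, hN2⟩ := Nat.chineseRemainder hcop n 1
  have hNpos : 0 < N := by
    rcases Nat.eq_zero_or_pos N with h0 | h0
    · exfalso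
      rw [h0] at hN2
      have := (Nat.modEq_iff_dvd' (show 0 ≤ 1 by omega)).1 hN2
      have := Nat.le_of_dvd (by omega) this
      omega
    · exact h0
  have e1 := modEq_of_modEq hℓ hNpos hn hN1
  have e2 := modEq_of_modEq hℓ' hNpos one_pos hN2
  rw [h1] at e2
  have hNd : (N : ℤ) ^ d ≡ (1 : ℤ) [ZMOD (ℓ' : ℤ)] := by
    have := (Int.natCast_modEq_iff.2 hN2).pow d
    simpa using this
  have hNd2 : (N : ℤ) ^ d ≡ (n : ℤ) ^ d [ZMOD (ℓ : ℤ)] := (Int.natCast_modEq_iff.2 hN1).pow d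
  have hFN : F N = (N : ℤ) ^ d := by
    rcases Int.natAbs_eq (F N) with h3 | h3
    · rw [h3, h N hNpos]; push_cast; rfl
    · exfalso
      rw [h N hNpos] at h3
      push_cast at h3
      have h4 : -(N : ℤ) ^ d ≡ 1 [ZMOD (ℓ' : ℤ)] := by rw [← h3]; exact e2
      have h5 : (0 : ℤ) ≡ 2 [ZMOD (ℓ' : ℤ)] := by
        have := hNd.add h4
        simpa using this
      have h6 : (ℓ' : ℤ) ∣ 2 := by simpa using h5.dvd
      have h7 := Int.le_of_dvd (by norm_num) h6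
      omega
  rw [hFN] at e1
  have e3 : F n ≡ (n : ℤ) ^ d [ZMOD (ℓ : ℤ)] := e1.symm.trans hNd2
  rcases Int.natAbs_eq (F n) with h3 | h3
  · rw [h3, h n hn]; push_cast; rfl
  · exfalso
    rw [h n hn] at h3
    push_cast at h3
    rw [h3] at e3
    have h6 : (ℓ : ℤ) ∣ 2 * (n : ℤ) ^ d := by
      have := e3.dvd
      have e : (n : ℤ) ^ d - -(n : ℤ) ^ d = 2 * (n : ℤ) ^ d := by ring
      rwa [e] at this
    have h7 : ℓ ∣ 2 * n ^ d := by exact_mod_cast h6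
    rcases (Nat.Prime.dvd_mul hℓ.1).1 h7 with h8 | h8
    · have := Nat.le_of_dvd (by norm_num) h8
      omega
    · have := Nat.le_of_dvd hn (hℓ.1.dvd_of_dvd_pow h8)
      omega

/-- congruence up to sign: if `a ^ 2 ≡ b ^ 2` then `F a ≡ ± F b`. -/
lemma sq_lemma {F : ArithmeticFunction ℤ} (hF : F.IsMultiplicative) (hS : (SF F).Infinite)
    {ℓ : ℕ} (hℓ : ℓ ∈ SF F) {a b : ℕ} (ha : 0 < a) (hb : 0 < b) (h : a ^ 2 ≡ b ^ 2 [MOD ℓ]) :
    (ℓ : ℤ) ∣ ((F a).natAbs : ℤ) - ((F b).natAbs : ℤ) ∨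
      (ℓ : ℤ) ∣ ((F a).natAbs : ℤ) + ((F b).natAbs : ℤ) := by
  have h1 := modEq_of_modEq hℓ (pow_pos ha 2) (pow_pos hb 2) h
  rw [pow_eq hF hS ha, pow_eq hF hS hb] at h1
  have h2 : (ℓ : ℤ) ∣ (((F a).natAbs : ℤ) - ((F b).natAbs : ℤ)) *
      (((F a).natAbs : ℤ) + ((F b).natAbs : ℤ)) := by
    have e : (((F a).natAbs : ℤ) - ((F b).natAbs : ℤ)) *
      (((F a).natAbs : ℤ) + ((F b).natAbs : ℤ)) = F a ^ 2 - F b ^ 2 := by
      have e1 : ((F a).natAbs : ℤ) ^ 2 = F a ^ 2 := Int.natAbs_sq _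
      have e2 : ((F b).natAbs : ℤ) ^ 2 = F b ^ 2 := Int.natAbs_sq _
      nlinarith
    rw [e]
    exact h1.symm.dvd
  exact (Nat.prime_iff_prime_int.1 hℓ.1).dvd_or_dvd h2

end Pool.Agent.Lib.MP_c7ee41_nt
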