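import Mathlib
import Pool.Agent.Lib.MP_c7ee41_nt.Basic

set_option autoImplicit false

/-!
# Difference operators and quasi-polynomial extension
-/

namespace Pool.Agent.Lib.MP_c7ee41_nt

open Polynomial

/-- the shift operator on integer sequences -/
def S : Module.End ℤ (ℕ → ℤ) := LinearMap.funLeft ℤ ℤ (fun n => n + 1)

lemma S_apply (h : ℕ → ℤ) (n : ℕ) : S h n = h (n + 1) := rfl

lemma S_pow_apply (k : ℕ) (h : ℕ → ℤ) (n : ℕ) : (S ^ k) h n = h (n + k) := by
  induction k generalizing n with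
  | zero => simp
  | succ k ih =>
    rw [pow_succ', Module.End.mul_apply, S_apply, ih]
    congr 1
    ring

lemma aeval_X_pow_sub_one (ℓ : ℕ) (h : ℕ → ℤ) (n : ℕ) :
    aeval S (X ^ ℓ - 1 : ℤ[X]) h n = h (n + ℓ) - h n := by
  simp [S_pow_apply]

/-- the polynomial `∏ (X ^ ℓ - 1)` -/
noncomputable def AI (I : Finset ℕ) : ℤ[X] := ∏ ℓ ∈ I, (X ^ ℓ - 1)

lemma aeval_mul_apply (p q : ℤ[X]) (h : ℕ → ℤ) : aeval S (p * q) h = aeval S p (aeval S q h) := by
  rw [map_mul]
  rfl

lemma dvd_aeval {ℓ : ℕ} {q A : ℤ[X]} {f : ℕ → ℤ} (hA : q ∣ A)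
    (hf : ∀ n, (ℓ : ℤ) ∣ aeval S q f n) (n : ℕ) : (ℓ : ℤ) ∣ aeval S A f n := by
  obtain ⟨B, rfl⟩ := hA
  choose g hg using hf
  have : aeval S q f = (ℓ : ℤ) • g := by
    funext n
    rw [hg n]
    rfl
  rw [mul_comm, aeval_mul_apply, this, map_smul]
  exact ⟨_, rfl⟩

lemma prod_dvd_aeval {I : Finset ℕ} {f : ℕ → ℤ} (hI : ∀ ℓ ∈ I, ℓ.Prime)
    (hf : ∀ ℓ ∈ I, ∀ n, (ℓ : ℤ) ∣ f (n + ℓ) - f n) (n : ℕ) :
    (∏ ℓ ∈ I, (ℓ : ℤ)) ∣ aeval S (AI I) f n := by
  apply Finset.prod_dvd_of_coprime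
  · intro x hx y hy hxy
    have := (Nat.coprime_primes (hI x hx) (hI y hy)).2 hxy
    exact Nat.isCoprime_iff_coprime.2 this
  · intro ℓ hℓ
    apply dvd_aeval (q := X ^ ℓ - 1)
    · exact Finset.dvd_prod_of_mem _ hℓ
    · intro k
      rw [aeval_X_pow_sub_one]
      exact hf ℓ hℓ k

lemma abs_aeval_le (I : Finset ℕ) {f : ℕ → ℤ} {B : ℝ} (n : ℕ)
    (hf : ∀ j, j ≤ ∑ ℓ ∈ I, ℓ → |(f (n + j) : ℝ)| ≤ B) :
    |((aeval S (AI I) f n : ℤ) : ℝ)| ≤ 2 ^ I.card * B := by
  classical
  induction I using Finset.induction_on generalizing n with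
  | empty =>
    have := hf 0 (by simp)
    simpa [AI] using this
  | insert ℓ I hℓ ih =>
    rw [Finset.sum_insert hℓ] at hf
    have h1 : AI (insert ℓ I) = (X ^ ℓ - 1) * AI I := by
      unfold AI
      rw [Finset.prod_insert hℓ]
    rw [h1, aeval_mul_apply, aeval_X_pow_sub_one, Finset.card_insert_of_notMem hℓ]
    have e1 := ih (n + ℓ) (fun j hj => by rw [add_assoc]; exact hf _ (by omega))
    have e2 := ih n (fun j hj => hf _ (by omega))
    push_cast
    rw [abs_le] at e1 e2 ⊢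
    rw [pow_succ]
    constructor <;> nlinarith [e1.1, e1.2, e2.1, e2.2]

lemma AI_monic {I : Finset ℕ} (hI : ∀ ℓ ∈ I, 0 < ℓ) : (AI I).Monic := by
  apply monic_prod_of_monic
  intro ℓ hℓ
  exact monic_X_pow_sub_C 1 (hI ℓ hℓ).ne'

lemma AI_natDegree {I : Finset ℕ} (hI : ∀ ℓ ∈ I, 0 < ℓ) : (AI I).natDegree = ∑ ℓ ∈ I, ℓ := by
  unfold AI
  rw [natDegree_prod_of_monic]
  · apply Finset.sum_congr rfl
    intro ℓ _
    exact natDegree_X_pow_sub_C (r := (1 : ℤ))
  · intro ℓ hℓ
    exact monic_X_pow_sub_C 1 (hI ℓ hℓ).ne'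

lemma aeval_apply_eq_sum {A : ℤ[X]} (hA : A.Monic) (h : ℕ → ℤ) (n : ℕ) :
    aeval S A h n = h (n + A.natDegree) + ∑ j ∈ Finset.range A.natDegree, A.coeff j * h (n + j) := by
  rw [aeval_eq_sum_range, LinearMap.sum_apply, Finset.sum_apply, Finset.sum_range_succ, add_comm]
  congr 1
  · rw [LinearMap.smul_apply, Pi.smul_apply, S_pow_apply]
    have : A.coeff A.natDegree = 1 := hA
    rw [this, one_smul]
  · apply Finset.sum_congr rfl
    intro j _
    rw [LinearMap.smul_apply, Pi.smul_apply, S_pow_apply, smul_eq_mul]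

/-- uniqueness on windows -/
lemma unique_window {A : ℤ[X]} (hA : A.Monic) {h1 h2 : ℕ → ℤ} {W : ℕ}
    (hW : ∀ n < W, aeval S A h1 n = aeval S A h2 n) (h0 : ∀ n < A.natDegree, h1 n = h2 n) :
    ∀ n < W + A.natDegree, h1 n = h2 n := by
  intro n
  induction n using Nat.strong_induction_on with
  | _ n ih =>
    intro hn
    by_cases hlt : n < A.natDegree
    · exact h0 n hlt
    · push Not at hlt
      obtain ⟨k, rfl⟩ : ∃ k, n = k + A.natDegree := ⟨n - A.natDegree, by omega⟩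
      have e := hW k (by omega)
      rw [aeval_apply_eq_sum hA, aeval_apply_eq_sum hA] at e
      have : ∑ j ∈ Finset.range A.natDegree, A.coeff j * h1 (k + j) =
          ∑ j ∈ Finset.range A.natDegree, A.coeff j * h2 (k + j) := by
        apply Finset.sum_congr rfl
        intro j hj
        rw [Finset.mem_range] at hj
        rw [ih (k + j) (by omega) (by omega)]
      linarith

lemma unique_all {A : ℤ[X]} (hA : A.Monic) {h1 h2 : ℕ → ℤ} (hh1 : aeval S A h1 = 0)
    (hh2 : aeval S A h2 = 0) (h0 : ∀ n < A.natDegree, h1 n = h2 n) : h1 = h2 := by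
  funext n
  apply unique_window hA (W := n + 1) (fun k _ => by rw [hh1, hh2]) h0
  omega

/-- extension by the linear recurrence -/
lemma exists_extension {A : ℤ[X]} (hA : A.Monic) (f : ℕ → ℤ) :
    ∃ h : ℕ → ℤ, aeval S A h = 0 ∧ ∀ n < A.natDegree, h n = f n := by
  let E : LinearRecurrence ℤ := ⟨A.natDegree, fun i => -A.coeff i⟩
  refine ⟨E.mkSol (fun i => f i), ?_, ?_⟩
  · funext n
    have h1 := E.is_sol_mkSol (fun i => f i) n
    rw [aeval_apply_eq_sum hA]
    have h2 : E.mkSol (fun i => f i) (n + A.natDegree) =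
        ∑ i : Fin A.natDegree, -A.coeff i * E.mkSol (fun i => f i) (n + i) := h1
    rw [h2, Finset.sum_range]
    simp
  · intro n hn
    exact E.mkSol_eq_init (fun i => f i) ⟨n, hn⟩

/-- subsampling -/
def T (m c : ℕ) : Module.End ℤ (ℕ → ℤ) := LinearMap.funLeft ℤ ℤ (fun n => m * n + c)

lemma T_apply (m c : ℕ) (h : ℕ → ℤ) (n : ℕ) : T m c h n = h (m * n + c) := rfl

lemma S_T (m c : ℕ) (h : ℕ → ℤ) : S (T m c h) = T m c ((S ^ m) h) := by
  funext n
  rw [S_apply, T_apply, T_apply, S_pow_apply]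
  congr 1
  ring

lemma aeval_T (m c : ℕ) (q : ℤ[X]) (h : ℕ → ℤ) :
    aeval S q (T m c h) = T m c (aeval S (expand ℤ m q) h) := by
  rw [expand_aeval]
  induction q using Polynomial.induction_on' with
  | add p q hp hq =>
    rw [map_add, map_add, LinearMap.add_apply, LinearMap.add_apply, hp, hq, map_add]
  | monomial n a =>
    have key : ∀ k : ℕ, (S ^ k) (T m c h) = T m c (((S ^ m) ^ k) h) := by
      intro k
      induction k generalizing h with
      | zero => simp
      | succ k ih =>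
        rw [pow_succ, Module.End.mul_apply, S_T, ih, pow_succ, Module.End.mul_apply]
    rw [aeval_monomial, aeval_monomial]
    simp only [Module.End.mul_apply, Module.algebraMap_end_apply]
    rw [key, map_smul]

lemma AI_dvd_expand (I : Finset ℕ) (m : ℕ) : AI I ∣ expand ℤ m (AI I) := by
  unfold AI
  rw [map_prod]
  apply Finset.prod_dvd_prod_of_dvd
  intro ℓ _
  rw [map_sub, map_pow, expand_X, map_one, ← pow_mul, mul_comm, pow_mul]
  have := sub_dvd_pow_sub_pow (X ^ ℓ : ℤ[X]) 1 m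
  simpa using this

lemma aeval_eq_zero_of_dvd {p q : ℤ[X]} (h : p ∣ q) {f : ℕ → ℤ} (hf : aeval S p f = 0) :
    aeval S q f = 0 := by
  obtain ⟨r, rfl⟩ := h
  rw [mul_comm, aeval_mul_apply, hf, map_zero]

lemma AI_dvd_pow (I : Finset ℕ) :
    AI I ∣ expand ℤ (∏ ℓ ∈ I, ℓ) ((X - 1) ^ I.card : ℤ[X]) := by
  rw [map_pow, map_sub, expand_X, map_one, ← Finset.prod_const]
  unfold AI
  apply Finset.prod_dvd_prod_of_dvd
  intro ℓ hℓ
  obtain ⟨k, hk⟩ := Finset.dvd_prod_of_mem (fun x => x) hℓ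
  rw [hk, pow_mul]
  have := sub_dvd_pow_sub_pow (X ^ ℓ : ℤ[X]) 1 k
  simpa using this

/-- sequences killed by `(S - 1) ^ t` are polynomials -/
lemma exists_poly {t : ℕ} {g : ℕ → ℤ} (hg : aeval S ((X - 1) ^ t : ℤ[X]) g = 0) :
    ∃ Q : ℚ[X], ∀ i : ℕ, Q.eval (i : ℚ) = (g i : ℚ) := by
  induction t generalizing g with
  | zero =>
    refine ⟨0, fun i => ?_⟩
    have : g = 0 := by simpa using hg
    rw [this]
    simp
  | succ t ih =>
    -- the difference `g (i + 1) - g i` is a polynomial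
    have h1 : aeval S ((X - 1) ^ t : ℤ[X]) (aeval S (X - 1 : ℤ[X]) g) = 0 := by
      rw [← aeval_mul_apply, ← pow_succ]
      exact hg
    obtain ⟨Q, hQ⟩ := ih h1
    have h2 : ∀ i : ℕ, Q.eval (i : ℚ) = (g (i + 1) : ℚ) - g i := by
      intro i
      rw [hQ i]
      have := aeval_X_pow_sub_one 1 g i
      rw [pow_one] at this
      rw [this]
      push_cast
      ring
    -- sum of a polynomial is a polynomial
    have h3 : ∀ P : ℚ[X], ∃ P' : ℚ[X], ∀ i : ℕ, P'.eval (i : ℚ) = ∑ k ∈ Finset.range i, P.eval (k : ℚ) := by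
      intro P
      induction P using Polynomial.induction_on' with
      | add p q hp hq =>
        obtain ⟨p', hp'⟩ := hp
        obtain ⟨q', hq'⟩ := hq
        refine ⟨p' + q', fun i => ?_⟩
        rw [eval_add, hp', hq', ← Finset.sum_add_distrib]
        apply Finset.sum_congr rfl
        intro k _
        rw [eval_add]
      | monomial n a =>
        -- Faulhaber
        refine ⟨C a * ∑ i ∈ Finset.range (n + 1),
          C (_root_.bernoulli i * (n + 1).choose i / (n + 1)) * X ^ (n + 1 - i), fun k => ?_⟩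
        rw [eval_mul, eval_C, eval_finsetSum]
        have := sum_range_pow k n
        simp only [eval_monomial]
        rw [← Finset.mul_sum, this]
        congr 1
        apply Finset.sum_congr rfl
        intro i _
        rw [eval_mul, eval_C, eval_pow, eval_X]
        ring
    obtain ⟨Q', hQ'⟩ := h3 Q
    refine ⟨Q' + C ((g 0 : ℤ) : ℚ), fun i => ?_⟩
    rw [eval_add, eval_C, hQ']
    induction i with
    | zero => simp
    | succ i ih2 =>
      rw [Finset.sum_range_succ, h2]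
      linarith

/-- a polynomial with `R (x ^ j) = y ^ j` for all `j` is a monomial -/
lemma monomial_of_geometric {R : ℚ[X]} {x : ℕ} (hx : 2 ≤ x) {y : ℚ}
    (h : ∀ j : ℕ, R.eval ((x : ℚ) ^ j) = y ^ j) : y = (x : ℚ) ^ R.natDegree := by
  have hR1 : R.eval 1 = 1 := by simpa using h 0
  have hR0 : R ≠ 0 := by
    rintro rfl
    simp at hR1
  have hP : R.comp (C (x : ℚ) * X) - C y * R = 0 := by
    apply Polynomial.eq_zero_of_infinite_isRoot
    have hinj : Function.Injective (fun j : ℕ => (x : ℚ) ^ j) := by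
      apply pow_right_injective₀
      · have : (2 : ℚ) ≤ x := by exact_mod_cast hx
        linarith
      · have : (2 : ℚ) ≤ x := by exact_mod_cast hx
        linarith
    refine (Set.infinite_range_of_injective hinj).mono ?_
    rintro _ ⟨j, rfl⟩
    simp only [Set.mem_ofPred_eq, IsRoot.def, eval_sub, eval_comp, eval_mul, eval_C, eval_X]
    have h1 := h (j + 1)
    rw [pow_succ', pow_succ'] at h1
    rw [h1, h j]
    ring
  have hc := congrArg (fun P => P.coeff R.natDegree) hP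
  simp only [coeff_sub, coeff_C_mul, coeff_zero] at hc
  rw [comp_C_mul_X_coeff] at hc
  have hlead : R.coeff R.natDegree ≠ 0 := leadingCoeff_ne_zero.2 hR0
  have : R.coeff R.natDegree * ((x : ℚ) ^ R.natDegree - y) = 0 := by linarith
  rcases mul_eq_zero.1 this with h1 | h1
  · exact absurd h1 hlead
  · linarith

end Pool.Agent.Lib.MP_c7ee41_nt
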