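import Mathlib
import Pool.Agent.Lib.MP_c7ee41_nt.Quasi

set_option autoImplicit false

/-!
# The finite step: a block of primes of `S_F` which beats the growth of `F`
-/

namespace Pool.Agent.Lib.MP_c7ee41_nt

open Polynomial

/-- `F` shifted to be a sequence on `ℕ` -/
def seq (F : ArithmeticFunction ℤ) : ℕ → ℤ := fun n => F (n + 1)

lemma window_zero {F : ArithmeticFunction ℤ} {I : Finset ℕ} (hI : ∀ ℓ ∈ I, ℓ ∈ SF F) {W : ℕ}
    {B : ℝ} (hB : ∀ j, 1 ≤ j → j ≤ W + ∑ ℓ ∈ I, ℓ → |(F j : ℝ)| ≤ B)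
    (hlt : 2 ^ I.card * B < ∏ ℓ ∈ I, (ℓ : ℝ)) : ∀ n < W, aeval S (AI I) (seq F) n = 0 := by
  intro n hn
  have h1 := prod_dvd_aeval (f := seq F) (fun ℓ hℓ => (hI ℓ hℓ).1) (fun ℓ hℓ k => by
    have := (hI ℓ hℓ).2 (k + 1) (by omega)
    have h2 := this.symm.dvd
    have e : k + 1 + ℓ = k + ℓ + 1 := by ring
    rw [e] at h2
    exact h2) n
  have h2 := abs_aeval_le I (f := seq F) (B := B) n (fun j hj => by
    exact hB (n + j + 1) (by omega) (by omega))
  apply Int.eq_zero_of_abs_lt_dvd h1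
  have h3 : ((|aeval S (AI I) (seq F) n| : ℤ) : ℝ) < ((∏ ℓ ∈ I, (ℓ : ℤ) : ℤ) : ℝ) := by
    push_cast
    exact lt_of_le_of_lt h2 hlt
  exact_mod_cast h3

theorem finite_step {F : ArithmeticFunction ℤ} (hF : F.IsMultiplicative) (hS : (SF F).Infinite)
    {I : Finset ℕ} (hI : ∀ ℓ ∈ I, ℓ ∈ SF F) (hne : I.Nonempty) {M : ℕ} (hM : ∀ ℓ ∈ I, M < ℓ)
    {B : ℝ} (hB : ∀ j, 1 ≤ j → j ≤ (M + 1) * ∑ ℓ ∈ I, ℓ → |(F j : ℝ)| ≤ B)
    (hlt : 2 ^ I.card * B < ∏ ℓ ∈ I, (ℓ : ℝ)) :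
    ∃ d : ℕ, ∀ m : ℕ, 0 < m → m ≤ M → (F m).natAbs = m ^ d := by
  have hpos : ∀ ℓ ∈ I, 0 < ℓ := fun ℓ hℓ => (hI ℓ hℓ).1.pos
  have hmon := AI_monic hpos
  have hdeg := AI_natDegree hpos
  set σ := ∑ ℓ ∈ I, ℓ with hσ
  have hσpos : 0 < σ := by
    obtain ⟨ℓ, hℓ⟩ := hne
    have := Finset.single_le_sum (f := fun ℓ => ℓ) (fun i _ => Nat.zero_le i) hℓ
    have := hpos ℓ hℓ
    omega
  have hwin := window_zero (W := M * σ) hI (fun j h1 h2 => hB j h1 (by rw [add_mul, one_mul]; exact h2)) hlt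
  obtain ⟨h, hh0, hhf⟩ := exists_extension hmon (seq F)
  have hagree : ∀ n < M * σ + σ, h n = seq F n := by
    have := unique_window hmon (h1 := h) (h2 := seq F) (W := M * σ)
      (fun n hn => by rw [hh0, hwin n hn]; rfl) hhf
    rwa [hdeg] at this
  -- multiplicativity of the extension
  have hmul : ∀ m : ℕ, 0 < m → m ≤ M → ∀ n, h (m * n + (m - 1)) = F m * h n := by
    intro m hm hmM
    have e1 : aeval S (AI I) (T m (m - 1) h) = 0 := by
      rw [aeval_T, aeval_eq_zero_of_dvd (AI_dvd_expand I m) hh0, map_zero]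
    have e2 : aeval S (AI I) (F m • h) = 0 := by
      rw [map_smul, hh0, smul_zero]
    have e3 := unique_all hmon e1 e2 (fun n hn => by
      rw [hdeg] at hn
      rw [T_apply, Pi.smul_apply, smul_eq_mul]
      have hle : m * (n + 1) ≤ M * σ := Nat.mul_le_mul hmM hn
      have h1 : m * n + (m - 1) + 1 = m * (n + 1) := by
        rw [mul_add, mul_one]; omega
      rw [hagree _ (by omega), hagree n (by
        have : n < σ := hn
        omega)]
      unfold seq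
      rw [h1, completely_mul hF hS hm (by omega)])
    intro n
    have := congrFun e3 n
    rw [T_apply, Pi.smul_apply, smul_eq_mul] at this
    exact this
  have hpow : ∀ m : ℕ, 0 < m → m ≤ M → ∀ j, h (m ^ j - 1) = F m ^ j := by
    intro m hm hmM j
    induction j with
    | zero =>
      rw [pow_zero, pow_zero, Nat.sub_self, hagree 0 (by omega)]
      unfold seq
      rw [zero_add, hF.map_one]
    | succ j ih =>
      have h1 : m ^ (j + 1) - 1 = m * (m ^ j - 1) + (m - 1) := by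
        have h2 : 0 < m ^ j := pow_pos hm j
        rw [pow_succ', Nat.mul_sub, mul_one]
        have : m ≤ m * m ^ j := Nat.le_mul_of_pos_right m h2
        omega
      rw [h1, hmul m hm hmM, ih, pow_succ']
  -- the polynomial
  set Pi' := ∏ ℓ ∈ I, ℓ with hPi
  have hPipos : 0 < Pi' := Finset.prod_pos hpos
  have hg : aeval S ((X - 1) ^ I.card : ℤ[X]) (T Pi' 0 h) = 0 := by
    rw [aeval_T, aeval_eq_zero_of_dvd (AI_dvd_pow I) hh0, map_zero]
  obtain ⟨Q, hQ⟩ := exists_poly hg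
  set R : ℚ[X] := Q.comp (C (1 / (Pi' : ℚ)) * (X - 1)) with hR
  have hReval : ∀ i : ℕ, R.eval ((Pi' * i + 1 : ℕ) : ℚ) = (h (Pi' * i) : ℚ) := by
    intro i
    rw [hR, eval_comp]
    simp only [eval_mul, eval_C, eval_sub, eval_X, eval_one]
    have : 1 / (Pi' : ℚ) * (((Pi' * i + 1 : ℕ) : ℚ) - 1) = i := by
      have : (Pi' : ℚ) ≠ 0 := by exact_mod_cast hPipos.ne'
      push_cast
      field_simp
      ring
    rw [this, hQ, T_apply, add_zero]
  refine ⟨R.natDegree, fun m hm hmM => ?_⟩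
  rcases Nat.lt_or_ge m 2 with hm2 | hm2
  · have : m = 1 := by omega
    rw [this, hF.map_one]
    simp
  · set o := Nat.totient Pi' with ho
    have hopos : 0 < o := Nat.totient_pos.2 hPipos
    have hcop : Nat.Coprime m Pi' := by
      apply Nat.Coprime.prod_right
      intro ℓ hℓ
      rw [Nat.coprime_comm, Nat.Prime.coprime_iff_not_dvd (hI ℓ hℓ).1]
      intro hd
      have := Nat.le_of_dvd hm hd
      have := hM ℓ hℓ
      omega
    have hkey : ∀ j : ℕ, R.eval (((m ^ o : ℕ) : ℚ) ^ j) = ((F m : ℚ) ^ o) ^ j := by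
      intro j
      have h1 : (m ^ o) ^ j ≡ 1 [MOD Pi'] := by
        have := (Nat.ModEq.pow_totient hcop).pow j
        rwa [one_pow] at this
      have h1pos : 0 < (m ^ o) ^ j := by positivity
      obtain ⟨i, hi⟩ := (Nat.modEq_iff_dvd' (show 1 ≤ (m ^ o) ^ j from h1pos)).1 h1.symm
      have h2 : (m ^ o) ^ j = Pi' * i + 1 := by omega
      have h3 : (((m ^ o : ℕ) : ℚ) ^ j) = ((Pi' * i + 1 : ℕ) : ℚ) := by
        rw [← h2]; push_cast; ring
      rw [h3, hReval, ← hi, ← pow_mul, hpow m hm hmM, ← pow_mul]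
      push_cast
      rfl
    have hmono := monomial_of_geometric (x := m ^ o) (by
      calc 2 ≤ m := hm2
        _ = m ^ 1 := (pow_one m).symm
        _ ≤ m ^ o := Nat.pow_le_pow_right hm hopos) hkey
    have h4 : (F m) ^ o = ((m : ℤ) ^ R.natDegree) ^ o := by
      have : ((F m : ℚ)) ^ o = ((m : ℚ) ^ R.natDegree) ^ o := by
        rw [hmono]
        push_cast
        rw [← pow_mul, ← pow_mul, mul_comm]
      exact_mod_cast this
    have h5 := congrArg Int.natAbs h4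
    rw [Int.natAbs_pow, Int.natAbs_pow, Int.natAbs_pow, Int.natAbs_natCast] at h5
    exact Nat.pow_left_injective hopos.ne' h5

theorem main_abstract {F : ArithmeticFunction ℤ} (hF : F.IsMultiplicative) (hS : (SF F).Infinite)
    (H : ∀ M : ℕ, ∃ I : Finset ℕ, (∀ ℓ ∈ I, ℓ ∈ SF F) ∧ I.Nonempty ∧ (∀ ℓ ∈ I, M < ℓ) ∧
      ∃ B : ℝ, (∀ j, 1 ≤ j → j ≤ (M + 1) * ∑ ℓ ∈ I, ℓ → |(F j : ℝ)| ≤ B) ∧
        2 ^ I.card * B < ∏ ℓ ∈ I, (ℓ : ℝ)) :
    ∃ d : ℕ, ∀ n : ℕ, 0 < n → F n = (n : ℤ) ^ d := by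
  have key : ∀ M : ℕ, ∃ d : ℕ, ∀ m : ℕ, 0 < m → m ≤ M → (F m).natAbs = m ^ d := by
    intro M
    obtain ⟨I, hI, hne, hM, B, hB, hlt⟩ := H M
    exact finite_step hF hS hI hne hM hB hlt
  obtain ⟨d, hd⟩ := key 2
  refine ⟨d, sign_lemma hS hF.map_one ?_⟩
  intro n hn
  obtain ⟨e, he⟩ := key (max 2 n)
  have h2 : 2 ^ d = 2 ^ e := by
    rw [← hd 2 (by norm_num) le_rfl, ← he 2 (by norm_num) (le_max_left _ _)]
  have : d = e := Nat.pow_right_injective le_rfl h2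
  rw [this]
  exact he n hn (le_max_right _ _)

end Pool.Agent.Lib.MP_c7ee41_nt
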