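import Mathlib
import Pool.Agent.Lib.MP_c7ee41_nt.Basic

set_option autoImplicit false

/-!
# Linear recurrences with a dilation symmetry

Rational sequences `h` with a linear recurrence and `h (m n) = c m * h n` for `m ≤ M`.
-/

namespace Pool.Agent.Lib.MP_c7ee41_nt.Rec

open Polynomial

/-- the shift operator on rational sequences -/
def Sh : Module.End ℚ (ℕ → ℚ) := LinearMap.funLeft ℚ ℚ (fun n => n + 1)

lemma Sh_apply (h : ℕ → ℚ) (n : ℕ) : Sh h n = h (n + 1) := rfl

lemma Sh_pow_apply (k : ℕ) (h : ℕ → ℚ) (n : ℕ) : (Sh ^ k) h n = h (n + k) := by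
  induction k generalizing n with
  | zero => simp
  | succ k ih =>
    rw [pow_succ', Module.End.mul_apply, Sh_apply, ih]
    congr 1
    ring

lemma aeval_mul_apply (p q : ℚ[X]) (h : ℕ → ℚ) :
    aeval Sh (p * q) h = aeval Sh p (aeval Sh q h) := by
  rw [map_mul]
  rfl

lemma aeval_apply_eq_sum {A : ℚ[X]} (hA : A.Monic) (h : ℕ → ℚ) (n : ℕ) :
    aeval Sh A h n = h (n + A.natDegree) +
      ∑ j ∈ Finset.range A.natDegree, A.coeff j * h (n + j) := by
  rw [aeval_eq_sum_range, LinearMap.sum_apply, Finset.sum_apply, Finset.sum_range_succ, add_comm]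
  congr 1
  · rw [LinearMap.smul_apply, Pi.smul_apply, Sh_pow_apply]
    have : A.coeff A.natDegree = 1 := hA
    rw [this, one_smul]
  · apply Finset.sum_congr rfl
    intro j _
    rw [LinearMap.smul_apply, Pi.smul_apply, Sh_pow_apply, smul_eq_mul]

lemma aeval_apply_eq_sum' (A : ℚ[X]) (h : ℕ → ℚ) (n : ℕ) :
    aeval Sh A h n = ∑ j ∈ Finset.range (A.natDegree + 1), A.coeff j * h (n + j) := by
  rw [aeval_eq_sum_range, LinearMap.sum_apply, Finset.sum_apply]
  apply Finset.sum_congr rfl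
  intro j _
  rw [LinearMap.smul_apply, Pi.smul_apply, Sh_pow_apply, smul_eq_mul]

/-- uniqueness on windows -/
lemma unique_window {A : ℚ[X]} (hA : A.Monic) {h1 h2 : ℕ → ℚ} {W : ℕ}
    (hW : ∀ n < W, aeval Sh A h1 n = aeval Sh A h2 n) (h0 : ∀ n < A.natDegree, h1 n = h2 n) :
    ∀ n < W + A.natDegree, h1 n = h2 n := by
  intro n
  induction n using Nat.strong_induction_on with
  | _ n ih =>
    intro hn
    by_cases hlt : n < A.natDegree
    · exact h0 n hlt
    · push Not at hlt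
      obtain ⟨k, rfl⟩ : ∃ k, n = k + A.natDegree := ⟨n - A.natDegree, by omega⟩
      have e := hW k (by omega)
      rw [aeval_apply_eq_sum hA, aeval_apply_eq_sum hA] at e
      have : ∑ j ∈ Finset.range A.natDegree, A.coeff j * h1 (k + j) =
          ∑ j ∈ Finset.range A.natDegree, A.coeff j * h2 (k + j) := by
        apply Finset.sum_congr rfl
        intro j hj
        rw [Finset.mem_range] at hj
        rw [ih (k + j) (by omega) (by omega)]
      linarith

lemma unique_all {A : ℚ[X]} (hA : A.Monic) {h1 h2 : ℕ → ℚ} (hh1 : aeval Sh A h1 = 0)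
    (hh2 : aeval Sh A h2 = 0) (h0 : ∀ n < A.natDegree, h1 n = h2 n) : h1 = h2 := by
  funext n
  apply unique_window hA (W := n + 1) (fun k _ => by rw [hh1, hh2]) h0
  omega

/-- extension by the linear recurrence -/
lemma exists_extension {A : ℚ[X]} (hA : A.Monic) (f : ℕ → ℚ) :
    ∃ h : ℕ → ℚ, aeval Sh A h = 0 ∧ ∀ n < A.natDegree, h n = f n := by
  let E : LinearRecurrence ℚ := ⟨A.natDegree, fun i => -A.coeff i⟩
  refine ⟨E.mkSol (fun i => f i), ?_, ?_⟩
  · funext n
    have h1 := E.is_sol_mkSol (fun i => f i) n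
    rw [aeval_apply_eq_sum hA]
    have h2 : E.mkSol (fun i => f i) (n + A.natDegree) =
        ∑ i : Fin A.natDegree, -A.coeff i * E.mkSol (fun i => f i) (n + i) := h1
    rw [h2, Finset.sum_range]
    simp
  · intro n hn
    exact E.mkSol_eq_init (fun i => f i) ⟨n, hn⟩

/-- subsampling -/
def Du (m c : ℕ) : Module.End ℚ (ℕ → ℚ) := LinearMap.funLeft ℚ ℚ (fun n => m * n + c)

lemma Du_apply (m c : ℕ) (h : ℕ → ℚ) (n : ℕ) : Du m c h n = h (m * n + c) := rfl

lemma Sh_Du (m c : ℕ) (h : ℕ → ℚ) : Sh (Du m c h) = Du m c ((Sh ^ m) h) := by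
  funext n
  rw [Sh_apply, Du_apply, Du_apply, Sh_pow_apply]
  congr 1
  ring

lemma aeval_Du (m c : ℕ) (q : ℚ[X]) (h : ℕ → ℚ) :
    aeval Sh q (Du m c h) = Du m c (aeval Sh (expand ℚ m q) h) := by
  rw [expand_aeval]
  induction q using Polynomial.induction_on' with
  | add p q hp hq =>
    rw [map_add, map_add, LinearMap.add_apply, LinearMap.add_apply, hp, hq, map_add]
  | monomial n a =>
    have key : ∀ k : ℕ, (Sh ^ k) (Du m c h) = Du m c (((Sh ^ m) ^ k) h) := by
      intro k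
      induction k generalizing h with
      | zero => simp
      | succ k ih =>
        rw [pow_succ, Module.End.mul_apply, Sh_Du, ih, pow_succ, Module.End.mul_apply]
    rw [aeval_monomial, aeval_monomial]
    simp only [Module.End.mul_apply, Module.algebraMap_end_apply]
    rw [key, map_smul]

lemma aeval_eq_zero_of_dvd {p q : ℚ[X]} (h : p ∣ q) {f : ℕ → ℚ} (hf : aeval Sh p f = 0) :
    aeval Sh q f = 0 := by
  obtain ⟨r, rfl⟩ := h
  rw [mul_comm, aeval_mul_apply, hf, map_zero]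

/-- sequences killed by `(S - 1) ^ t` are polynomials -/
lemma exists_poly {t : ℕ} {g : ℕ → ℚ} (hg : aeval Sh ((X - 1) ^ t : ℚ[X]) g = 0) :
    ∃ Q : ℚ[X], ∀ i : ℕ, Q.eval (i : ℚ) = g i := by
  induction t generalizing g with
  | zero =>
    refine ⟨0, fun i => ?_⟩
    have : g = 0 := by simpa using hg
    rw [this]
    simp
  | succ t ih =>
    have h1 : aeval Sh ((X - 1) ^ t : ℚ[X]) (aeval Sh (X - 1 : ℚ[X]) g) = 0 := by
      rw [← aeval_mul_apply, ← pow_succ]
      exact hg
    obtain ⟨Q, hQ⟩ := ih h1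
    have h2 : ∀ i : ℕ, Q.eval (i : ℚ) = g (i + 1) - g i := by
      intro i
      rw [hQ i]
      simp [Sh_apply]
    have h3 : ∀ P : ℚ[X], ∃ P' : ℚ[X],
        ∀ i : ℕ, P'.eval (i : ℚ) = ∑ k ∈ Finset.range i, P.eval (k : ℚ) := by
      intro P
      induction P using Polynomial.induction_on' with
      | add p q hp hq =>
        obtain ⟨p', hp'⟩ := hp
        obtain ⟨q', hq'⟩ := hq
        refine ⟨p' + q', fun i => ?_⟩
        rw [eval_add, hp', hq', ← Finset.sum_add_distrib]
        apply Finset.sum_congr rfl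
        intro k _
        rw [eval_add]
      | monomial n a =>
        refine ⟨C a * ∑ i ∈ Finset.range (n + 1),
          C (_root_.bernoulli i * (n + 1).choose i / (n + 1)) * X ^ (n + 1 - i), fun k => ?_⟩
        rw [eval_mul, eval_C, eval_finsetSum]
        have := sum_range_pow k n
        simp only [eval_monomial]
        rw [← Finset.mul_sum, this]
        congr 1
        apply Finset.sum_congr rfl
        intro i _
        rw [eval_mul, eval_C, eval_pow, eval_X]
        ring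
    obtain ⟨Q', hQ'⟩ := h3 Q
    refine ⟨Q' + C (g 0), fun i => ?_⟩
    rw [eval_add, eval_C, hQ']
    induction i with
    | zero => simp
    | succ i ih2 =>
      rw [Finset.sum_range_succ, h2]
      linarith

/-- the minimal recurrence -/
lemma exists_min {h : ℕ → ℚ} {A : ℚ[X]} (hA : A.Monic) (hh : aeval Sh A h = 0) :
    ∃ P : ℚ[X], P.Monic ∧ aeval Sh P h = 0 ∧ ∀ q : ℚ[X], aeval Sh q h = 0 → P ∣ q := by
  classical
  have hex : ∃ n, ∃ P : ℚ[X], P.Monic ∧ aeval Sh P h = 0 ∧ P.natDegree = n :=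
    ⟨_, A, hA, hh, rfl⟩
  obtain ⟨P, hP1, hP2, hP3⟩ := Nat.find_spec hex
  refine ⟨P, hP1, hP2, fun q hq => ?_⟩
  rw [← Polynomial.modByMonic_eq_zero_iff_dvd hP1]
  by_contra hr
  set r := q %ₘ P with hrdef
  have hrann : aeval Sh r h = 0 := by
    have h1 := Polynomial.modByMonic_add_div q P
    have h2 : aeval Sh r h = aeval Sh q h - aeval Sh (P * (q /ₘ P)) h := by
      have h3 : r = q - P * (q /ₘ P) := eq_sub_of_add_eq h1
      rw [h3, map_sub, LinearMap.sub_apply]
    rw [h2, hq, mul_comm, aeval_mul_apply, hP2, map_zero, sub_zero]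
  have hlt : r.natDegree < P.natDegree := by
    apply Polynomial.natDegree_modByMonic_lt _ hP1
    intro h1
    apply hr
    rw [hrdef, h1, Polynomial.modByMonic_one]
  have hmon : (C r.leadingCoeff⁻¹ * r).Monic := by
    rw [mul_comm]
    exact Polynomial.monic_mul_leadingCoeff_inv hr
  have hann : aeval Sh (C r.leadingCoeff⁻¹ * r) h = 0 := by
    rw [aeval_mul_apply, hrann, map_zero]
  have h1 := Nat.find_min' hex ⟨C r.leadingCoeff⁻¹ * r, hmon, hann, rfl⟩
  rw [Polynomial.natDegree_C_mul (inv_ne_zero (Polynomial.leadingCoeff_ne_zero.2 hr))] at h1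
  omega

/-- dilation symmetry for the minimal recurrence -/
lemma dil_min {h : ℕ → ℚ} {P : ℚ[X]} (hP : P.Monic) (hPann : aeval Sh P h = 0)
    (hPmin : ∀ q : ℚ[X], aeval Sh q h = 0 → P ∣ q) {m : ℕ} {c : ℚ}
    (hc : c ≠ 0) (hmul : Du m (m - 1) h = c • h) :
    P ∣ expand ℚ m P ∧ ∃ q : ℚ[X], P ∣ X - expand ℚ m q := by
  set R := AdjoinRoot P with hR
  have hP0 : P ≠ 0 := hP.ne_zero
  have hfin : Module.Finite ℚ R := (AdjoinRoot.powerBasis hP0).finite
  have hrank : Module.finrank ℚ R = P.natDegree := by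
    rw [(AdjoinRoot.powerBasis hP0).finrank, AdjoinRoot.powerBasis_dim]
  set y : R := AdjoinRoot.root P ^ m with hy
  have hint : IsIntegral ℚ y := Algebra.IsIntegral.isIntegral y
  have hmk : ∀ q : ℚ[X], aeval y q = AdjoinRoot.mk P (expand ℚ m q) := by
    intro q
    rw [← AdjoinRoot.aeval_eq, expand_aeval]
  set B := minpoly ℚ y with hB
  have hBmonic : B.Monic := minpoly.monic hint
  have hBdeg : B.natDegree ≤ P.natDegree := by
    rw [← hrank]
    exact minpoly.natDegree_le y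
  have hdvd : P ∣ expand ℚ m B := by
    rw [← AdjoinRoot.mk_eq_zero, ← hmk]
    exact minpoly.aeval ℚ y
  have hBann : aeval Sh B h = 0 := by
    have h1 := aeval_Du m (m - 1) B h
    rw [aeval_eq_zero_of_dvd hdvd hPann, map_zero, hmul, map_smul] at h1
    rcases smul_eq_zero.1 h1 with h2 | h2
    · exact absurd h2 hc
    · exact h2
  have hPB : P ∣ B := hPmin B hBann
  have hBP : B = P :=
    Polynomial.eq_of_monic_of_dvd_of_natDegree_le hP hBmonic hPB hBdeg
  constructor
  · rw [← AdjoinRoot.mk_eq_zero, ← hmk]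
    have h1 : aeval y B = 0 := minpoly.aeval ℚ y
    rwa [hBP] at h1
  · have hli := linearIndependent_pow (K := ℚ) y
    have hcard : Fintype.card (Fin (minpoly ℚ y).natDegree) = Module.finrank ℚ R := by
      rw [Fintype.card_fin, hrank, ← hB, hBP]
    have hspan := hli.span_eq_top_of_card_eq_finrank' hcard
    have hmem : AdjoinRoot.root P ∈ Submodule.span ℚ
        (Set.range fun i : Fin (minpoly ℚ y).natDegree => y ^ (i : ℕ)) := by
      rw [hspan]; exact Submodule.mem_top
    rw [Submodule.mem_span_range_iff_exists_fun] at hmem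
    obtain ⟨g, hg⟩ := hmem
    refine ⟨∑ i, C (g i) * X ^ (i : ℕ), ?_⟩
    rw [← AdjoinRoot.mk_eq_zero, map_sub, AdjoinRoot.mk_X, ← hmk, ← hg, map_sum, sub_eq_zero]
    apply Finset.sum_congr rfl
    intro i _
    rw [map_mul, aeval_C, map_pow, aeval_X, Algebra.smul_def]

lemma prod_map_dvd_aux {s : Multiset ℂ} {f g : ℂ → ℂ[X]} (h : ∀ a ∈ s, f a ∣ g a) :
    (s.map f).prod ∣ (s.map g).prod := by
  induction s using Multiset.induction_on with
  | empty => simp
  | cons a s ih =>
    rw [Multiset.map_cons, Multiset.map_cons, Multiset.prod_cons, Multiset.prod_cons]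
    exact mul_dvd_mul (h a (Multiset.mem_cons_self a s))
      (ih fun b hb => h b (Multiset.mem_cons_of_mem hb))

/-- the roots are roots of unity of order prime to all `m ≤ M` -/
theorem exists_period {h : ℕ → ℚ} {A : ℚ[X]} (hA : A.Monic) (hA0 : A.coeff 0 ≠ 0)
    (hh : aeval Sh A h = 0) {M : ℕ} (hM : 2 ≤ M) (c : ℕ → ℚ)
    (hc : ∀ m, 1 ≤ m → m ≤ M → c m ≠ 0)
    (hmul : ∀ m, 1 ≤ m → m ≤ M → Du m (m - 1) h = c m • h) :
    ∃ L : ℕ, 0 < L ∧ (∀ m, 2 ≤ m → m ≤ M → Nat.Coprime m L) ∧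
      ∃ e : ℕ, aeval Sh ((X ^ L - 1) ^ e : ℚ[X]) h = 0 := by
  classical
  obtain ⟨P, hP, hPann, hPmin⟩ := exists_min hA hh
  have hPA : P ∣ A := hPmin A hh
  have hP0 : P.coeff 0 ≠ 0 := by
    obtain ⟨r, hr⟩ := hPA
    intro h0
    apply hA0
    rw [hr, mul_coeff_zero, h0, zero_mul]
  have hdil := fun m (h1 : 1 ≤ m) (h2 : m ≤ M) => dil_min hP hPann hPmin (hc m h1 h2) (hmul m h1 h2)
  set i := algebraMap ℚ ℂ with hi
  set Pc := P.map i with hPc
  have hPcm : Pc.Monic := hP.map i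
  have hPc0 : Pc ≠ 0 := hPcm.ne_zero
  set E := Pc.roots.toFinset with hE
  have hmemE : ∀ α, α ∈ E ↔ Pc.eval α = 0 := by
    intro α
    rw [hE, Multiset.mem_toFinset, mem_roots hPc0, IsRoot.def]
  have hEne : ∀ α ∈ E, α ≠ 0 := by
    rintro α hα rfl
    rw [hmemE, ← coeff_zero_eq_eval_zero, hPc, coeff_map] at hα
    exact hP0 ((map_eq_zero i).1 hα)
  have hpow : ∀ m, 1 ≤ m → m ≤ M → ∀ α ∈ E, α ^ m ∈ E := by
    intro m h1 h2 α hα
    rw [hmemE] at hα ⊢
    have h3 := Polynomial.map_dvd i (hdil m h1 h2).1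
    obtain ⟨r, hr⟩ := h3
    have h4 := congrArg (eval α) hr
    rw [map_expand, expand_eval, eval_mul, ← hPc, hα, zero_mul] at h4
    exact h4
  have hinj : ∀ m, 1 ≤ m → m ≤ M → ∀ α ∈ E, ∀ β ∈ E, α ^ m = β ^ m → α = β := by
    intro m h1 h2 α hα β hβ hαβ
    obtain ⟨q, r, hr⟩ := (hdil m h1 h2).2
    have key : ∀ γ ∈ E, γ = eval (γ ^ m) (q.map i) := by
      intro γ hγ
      rw [hmemE] at hγ
      have h3 := congrArg (fun p => eval γ (p.map i)) hr
      simp only [Polynomial.map_sub, Polynomial.map_mul, map_X, map_expand, expand_eval, eval_sub,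
        eval_mul, eval_X] at h3
      rw [← hPc, hγ, zero_mul] at h3
      exact sub_eq_zero.1 h3
    rw [key α hα, key β hβ, hαβ]
  -- periodicity of the `m`-th power map
  have hper : ∀ m, 1 ≤ m → m ≤ M → ∃ k, 0 < k ∧ ∀ α ∈ E, α ^ (m ^ k) = α := by
    intro m h1 h2
    let φ : E → E := fun α => ⟨α.1 ^ m, hpow m h1 h2 α.1 α.2⟩
    have hφ : Function.Injective φ := by
      intro α β hαβ
      exact Subtype.ext (hinj m h1 h2 α.1 α.2 β.1 β.2 (congrArg Subtype.val hαβ))
    let σ : Equiv.Perm E := Equiv.ofBijective φ (Finite.injective_iff_bijective.1 hφ)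
    refine ⟨orderOf σ, orderOf_pos σ, fun α hα => ?_⟩
    have h3 : ∀ j : ℕ, (((σ ^ j) ⟨α, hα⟩ : E) : ℂ) = α ^ (m ^ j) := by
      intro j
      induction j with
      | zero => simp
      | succ j ih =>
        rw [pow_succ', Equiv.Perm.mul_apply]
        have h4 : ((σ ((σ ^ j) ⟨α, hα⟩) : E) : ℂ) = (((σ ^ j) ⟨α, hα⟩ : E) : ℂ) ^ m := rfl
        rw [h4, ih, ← pow_mul, pow_succ]
    have h4 := h3 (orderOf σ)
    rw [pow_orderOf_eq_one] at h4
    exact h4.symm
  have hunit : ∀ m, 2 ≤ m → m ≤ M → ∀ α ∈ E, ∃ N, 0 < N ∧ Nat.Coprime m N ∧ α ^ N = 1 := by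
    intro m h1 h2 α hα
    obtain ⟨k, hk, hkα⟩ := hper m (by omega) h2
    have h3 := hkα α hα
    have h4 : 2 ≤ m ^ k := le_trans h1 (Nat.le_self_pow hk.ne' m)
    refine ⟨m ^ k - 1, by omega, ?_, ?_⟩
    · have h5 : Nat.Coprime (m ^ k) (m ^ k - 1) := by
        have : m ^ k = (m ^ k - 1) + 1 := by omega
        rw [Nat.coprime_comm]
        conv_rhs => rw [this]
        exact (Nat.coprime_self_add_right).2 (Nat.coprime_one_right _)
      exact Nat.Coprime.coprime_dvd_left (dvd_pow_self m hk.ne') h5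
    · have h6 : α ^ (m ^ k - 1) * α = 1 * α := by
        rw [← pow_succ, one_mul]
        have : m ^ k - 1 + 1 = m ^ k := by omega
        rw [this]
        exact h3
      exact mul_right_cancel₀ (hEne α hα) h6
  set L := ∏ α ∈ E, orderOf α with hL
  have hordpos : ∀ α ∈ E, 0 < orderOf α := by
    intro α hα
    obtain ⟨N, hN, -, hαN⟩ := hunit 2 le_rfl hM α hα
    rw [orderOf_pos_iff, isOfFinOrder_iff_pow_eq_one]
    exact ⟨N, hN, hαN⟩
  have hLpos : 0 < L := Finset.prod_pos hordpos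
  refine ⟨L, hLpos, ?_, Multiset.card Pc.roots, ?_⟩
  · intro m h1 h2
    apply Nat.Coprime.prod_right
    intro α hα
    obtain ⟨N, -, hN, hαN⟩ := hunit m h1 h2 α hα
    exact Nat.Coprime.coprime_dvd_right (orderOf_dvd_of_pow_eq_one hαN) hN
  · apply aeval_eq_zero_of_dvd _ hPann
    have h1 : Pc ∣ (X ^ L - 1) ^ Multiset.card Pc.roots := by
      have h2 : Pc = (Pc.roots.map (fun a => X - C a)).prod :=
        (IsAlgClosed.splits Pc).eq_prod_roots_of_monic hPcm
      have h3 : (Pc.roots.map (fun a => X - C a)).prod ∣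
          (Pc.roots.map (fun _ => (X ^ L - 1 : ℂ[X]))).prod := by
        apply prod_map_dvd_aux
        intro a ha
        rw [dvd_iff_isRoot, IsRoot.def, eval_sub, eval_pow, eval_X, eval_one, sub_eq_zero]
        have haE : a ∈ E := by rw [hE, Multiset.mem_toFinset]; exact ha
        exact orderOf_dvd_iff_pow_eq_one.1 (Finset.dvd_prod_of_mem _ haE)
      rw [Multiset.map_const', Multiset.prod_replicate] at h3
      rwa [← h2] at h3
    have h2 : ((X ^ L - 1) ^ Multiset.card Pc.roots : ℂ[X]) =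
        ((X ^ L - 1) ^ Multiset.card Pc.roots : ℚ[X]).map i := by
      rw [Polynomial.map_pow, Polynomial.map_sub, Polynomial.map_pow, map_X, Polynomial.map_one]
    rw [h2, hPc] at h1
    exact (Polynomial.map_dvd_map' i).1 h1

end Pool.Agent.Lib.MP_c7ee41_nt.Rec
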