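import Mathlib
import Pool.Agent.Lib.MP_c7ee41_nt.Rec
import Pool.Agent.Lib.MP_c7ee41_nt.Finite

set_option autoImplicit false

/-!
# The finite step with a general annihilating polynomial on a window
-/

namespace Pool.Agent.Lib.MP_c7ee41_nt

open Polynomial

/-- `F` shifted to be a rational sequence on `ℕ` -/
def seqQ (F : ArithmeticFunction ℤ) : ℕ → ℚ := fun n => (F (n + 1) : ℚ)

lemma aeval_cast (P : ℤ[X]) (f : ℕ → ℤ) (n : ℕ) :
    aeval Rec.Sh (P.map (Int.castRingHom ℚ)) (fun k => (f k : ℚ)) n = ((aeval S P f n : ℤ) : ℚ) := by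
  induction P using Polynomial.induction_on' with
  | add p q hp hq =>
    rw [Polynomial.map_add, map_add, LinearMap.add_apply, Pi.add_apply, hp, hq, map_add,
      LinearMap.add_apply, Pi.add_apply]
    push_cast
    rfl
  | monomial k a =>
    rw [Polynomial.map_monomial, aeval_monomial, aeval_monomial]
    simp only [Module.End.mul_apply, Module.algebraMap_end_apply, Pi.smul_apply, smul_eq_mul,
      Rec.Sh_pow_apply, S_pow_apply]
    simp

/-- a monic `B` of degree at most `deg P` with `P ∣ B(X ^ m)` -/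
lemma exists_push {P : ℚ[X]} (hP : P.Monic) (m : ℕ) :
    ∃ B : ℚ[X], B.Monic ∧ B.natDegree ≤ P.natDegree ∧ P ∣ expand ℚ m B := by
  have hP0 : P ≠ 0 := hP.ne_zero
  have hfin : Module.Finite ℚ (AdjoinRoot P) := (AdjoinRoot.powerBasis hP0).finite
  have hrank : Module.finrank ℚ (AdjoinRoot P) = P.natDegree := by
    rw [(AdjoinRoot.powerBasis hP0).finrank, AdjoinRoot.powerBasis_dim]
  set y : AdjoinRoot P := AdjoinRoot.root P ^ m with hy
  have hint : IsIntegral ℚ y := Algebra.IsIntegral.isIntegral y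
  refine ⟨minpoly ℚ y, minpoly.monic hint, ?_, ?_⟩
  · rw [← hrank]
    exact minpoly.natDegree_le y
  · rw [← AdjoinRoot.mk_eq_zero, ← AdjoinRoot.aeval_eq, expand_aeval]
    exact minpoly.aeval ℚ y

theorem finite_stepP {F : ArithmeticFunction ℤ} (hF : F.IsMultiplicative) (hS : (SF F).Infinite)
    {P : ℤ[X]} (hP0 : P.coeff 0 ≠ 0) {M : ℕ} (hM : 2 ≤ M)
    (hwin : ∀ n < 2 * M * P.natDegree + 1, aeval S P (seq F) n = 0) :
    ∃ d : ℕ, ∀ m : ℕ, 0 < m → m ≤ M → (F m).natAbs = m ^ d := by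
  have hPne : P ≠ 0 := by
    rintro rfl
    simp at hP0
  set D := P.natDegree with hD
  set Pq := P.map (Int.castRingHom ℚ) with hPq
  have hPqne : Pq ≠ 0 := by
    rw [hPq, Ne, Polynomial.map_eq_zero_iff (RingHom.injective_int _)]
    exact hPne
  have hPqdeg : Pq.natDegree = D := Polynomial.natDegree_map_eq_of_injective (RingHom.injective_int _) _
  set A := C (Pq.leadingCoeff)⁻¹ * Pq with hA
  have hlc : (Pq.leadingCoeff)⁻¹ ≠ 0 := inv_ne_zero (leadingCoeff_ne_zero.2 hPqne)
  have hAmon : A.Monic := by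
    rw [hA, mul_comm]
    exact Polynomial.monic_mul_leadingCoeff_inv hPqne
  have hAdeg : A.natDegree = D := by
    rw [hA, natDegree_C_mul hlc, hPqdeg]
  have hA0 : A.coeff 0 ≠ 0 := by
    rw [hA, coeff_C_mul]
    refine mul_ne_zero hlc ?_
    rw [hPq, coeff_map]
    simpa using hP0
  have hwinQ : ∀ n < 2 * M * D + 1, aeval Rec.Sh A (seqQ F) n = 0 := by
    intro n hn
    have h1 : aeval Rec.Sh Pq (seqQ F) n = 0 := by
      have this : aeval Rec.Sh Pq (seqQ F) n = ((aeval S P (seq F) n : ℤ) : ℚ) :=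
        aeval_cast P (seq F) n
      rw [this, hwin n hn, Int.cast_zero]
    rw [hA, Rec.aeval_mul_apply, aeval_C]
    simp only [Module.algebraMap_end_apply, Pi.smul_apply]
    rw [h1, smul_zero]
  obtain ⟨h, hh0, hhf⟩ := Rec.exists_extension hAmon (seqQ F)
  have hagree : ∀ n < 2 * M * D + 1, h n = seqQ F n := by
    have := Rec.unique_window hAmon (h1 := h) (h2 := seqQ F) (W := 2 * M * D + 1)
      (fun n hn => by rw [hh0, hwinQ n hn]; rfl) hhf
    intro n hn
    exact this n (by omega)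
  -- multiplicativity of the extension
  have hmul : ∀ m : ℕ, 1 ≤ m → m ≤ M → Rec.Du m (m - 1) h = (F m : ℚ) • h := by
    intro m hm hmM
    obtain ⟨B, hBmon, hBdeg, hBdvd⟩ := exists_push hAmon m
    have e1 : aeval Rec.Sh (A * B) (Rec.Du m (m - 1) h) = 0 := by
      rw [Rec.aeval_mul_apply, Rec.aeval_Du, Rec.aeval_eq_zero_of_dvd hBdvd hh0, map_zero, map_zero]
    have e2 : aeval Rec.Sh (A * B) ((F m : ℚ) • h) = 0 := by
      rw [mul_comm, Rec.aeval_mul_apply, map_smul, hh0, smul_zero, map_zero]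
    have hdeg2 : (A * B).natDegree ≤ 2 * D := by
      rw [hAmon.natDegree_mul hBmon]
      omega
    refine Rec.unique_all (hAmon.mul hBmon) e1 e2 (fun n hn => ?_)
    rw [Rec.Du_apply, Pi.smul_apply, smul_eq_mul]
    have hn2 : n + 1 ≤ 2 * D := by omega
    have hle : m * (n + 1) ≤ M * (2 * D) := Nat.mul_le_mul hmM hn2
    have h1 : m * n + (m - 1) + 1 = m * (n + 1) := by
      rw [mul_add, mul_one]; omega
    have h2 : M * (2 * D) = 2 * M * D := by ring
    have h3 : n + 1 ≤ m * (n + 1) := Nat.le_mul_of_pos_left _ hm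
    rw [hagree _ (by omega), hagree n (by omega)]
    unfold seqQ
    rw [h1, completely_mul hF hS (by omega) (by omega)]
    push_cast
    rfl
  have hpow : ∀ m : ℕ, 0 < m → m ≤ M → ∀ j, h (m ^ j - 1) = (F m : ℚ) ^ j := by
    intro m hm hmM j
    induction j with
    | zero =>
      rw [pow_zero, pow_zero, Nat.sub_self, hagree 0 (by omega)]
      unfold seqQ
      rw [zero_add, hF.map_one]
      simp
    | succ j ih =>
      have h1 : m ^ (j + 1) - 1 = m * (m ^ j - 1) + (m - 1) := by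
        have h2 : 0 < m ^ j := pow_pos hm j
        rw [pow_succ', Nat.mul_sub, mul_one]
        have : m ≤ m * m ^ j := Nat.le_mul_of_pos_right m h2
        omega
      have h2 := congrFun (hmul m hm hmM) (m ^ j - 1)
      rw [Rec.Du_apply, Pi.smul_apply, smul_eq_mul] at h2
      rw [h1, h2, ih, pow_succ']
  obtain ⟨L, hLpos, hLcop, e, hLe⟩ := Rec.exists_period hAmon hA0 hh0 hM (fun m => (F m : ℚ))
    (fun m hm _ => by
      have := ne_zero hF hS (n := m) (by omega)
      exact_mod_cast this) hmul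
  -- the polynomial
  have hg : aeval Rec.Sh ((X - 1) ^ e : ℚ[X]) (Rec.Du L 0 h) = 0 := by
    rw [Rec.aeval_Du, map_pow, map_sub, expand_X, map_one, hLe, map_zero]
  obtain ⟨Q, hQ⟩ := Rec.exists_poly hg
  set R : ℚ[X] := Q.comp (C (1 / (L : ℚ)) * (X - 1)) with hR
  have hReval : ∀ i : ℕ, R.eval ((L * i + 1 : ℕ) : ℚ) = h (L * i) := by
    intro i
    rw [hR, eval_comp]
    simp only [eval_mul, eval_C, eval_sub, eval_X, eval_one]
    have : 1 / (L : ℚ) * (((L * i + 1 : ℕ) : ℚ) - 1) = i := by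
      have : (L : ℚ) ≠ 0 := by exact_mod_cast hLpos.ne'
      push_cast
      field_simp
      ring
    rw [this, hQ, Rec.Du_apply, add_zero]
  refine ⟨R.natDegree, fun m hm hmM => ?_⟩
  rcases Nat.lt_or_ge m 2 with hm2 | hm2
  · have : m = 1 := by omega
    rw [this, hF.map_one]
    simp
  · set o := Nat.totient L with ho
    have hopos : 0 < o := Nat.totient_pos.2 hLpos
    have hcop : Nat.Coprime m L := hLcop m hm2 hmM
    have hkey : ∀ j : ℕ, R.eval (((m ^ o : ℕ) : ℚ) ^ j) = ((F m : ℚ) ^ o) ^ j := by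
      intro j
      have h1 : (m ^ o) ^ j ≡ 1 [MOD L] := by
        have := (Nat.ModEq.pow_totient hcop).pow j
        rwa [one_pow] at this
      have h1pos : 0 < (m ^ o) ^ j := by positivity
      obtain ⟨i, hi⟩ := (Nat.modEq_iff_dvd' (show 1 ≤ (m ^ o) ^ j from h1pos)).1 h1.symm
      have h2 : (m ^ o) ^ j = L * i + 1 := by omega
      have h3 : (((m ^ o : ℕ) : ℚ) ^ j) = ((L * i + 1 : ℕ) : ℚ) := by
        rw [← h2]; push_cast; ring
      rw [h3, hReval, ← hi, ← pow_mul, hpow m hm hmM, ← pow_mul]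
    have hmono := monomial_of_geometric (x := m ^ o) (by
      calc 2 ≤ m := hm2
        _ = m ^ 1 := (pow_one m).symm
        _ ≤ m ^ o := Nat.pow_le_pow_right hm hopos) hkey
    have h4 : (F m) ^ o = ((m : ℤ) ^ R.natDegree) ^ o := by
      have : ((F m : ℚ)) ^ o = ((m : ℚ) ^ R.natDegree) ^ o := by
        rw [hmono]
        push_cast
        rw [← pow_mul, ← pow_mul, mul_comm]
      exact_mod_cast this
    have h5 := congrArg Int.natAbs h4
    rw [Int.natAbs_pow, Int.natAbs_pow, Int.natAbs_pow, Int.natAbs_natCast] at h5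
    exact Nat.pow_left_injective hopos.ne' h5

theorem combine {F : ArithmeticFunction ℤ} (hF : F.IsMultiplicative) (hS : (SF F).Infinite)
    (key : ∀ M : ℕ, 2 ≤ M → ∃ d : ℕ, ∀ m : ℕ, 0 < m → m ≤ M → (F m).natAbs = m ^ d) :
    ∃ d : ℕ, ∀ n : ℕ, 0 < n → F n = (n : ℤ) ^ d := by
  obtain ⟨d, hd⟩ := key 2 le_rfl
  refine ⟨d, sign_lemma hS hF.map_one ?_⟩
  intro n hn
  obtain ⟨e, he⟩ := key (max 2 n) (le_max_left _ _)
  have h2 : 2 ^ d = 2 ^ e := by
    rw [← hd 2 (by norm_num) le_rfl, ← he 2 (by norm_num) (le_max_left _ _)]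
  have : d = e := Nat.pow_right_injective le_rfl h2
  rw [this]
  exact he n hn (le_max_right _ _)

end Pool.Agent.Lib.MP_c7ee41_nt
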