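import Mathlib
import Pool.Agent.Lib.MP_c7ee41_nt.FiniteP

set_option autoImplicit false

/-!
# Siegel's lemma for the annihilating polynomial
-/

namespace Pool.Agent.Lib.MP_c7ee41_nt

open Polynomial

lemma aeval_S_eq_sum (P : ℤ[X]) (f : ℕ → ℤ) (n : ℕ) :
    aeval S P f n = ∑ i ∈ Finset.range (P.natDegree + 1), P.coeff i * f (n + i) := by
  rw [aeval_eq_sum_range, LinearMap.sum_apply, Finset.sum_apply]
  apply Finset.sum_congr rfl
  intro j _
  rw [LinearMap.smul_apply, Pi.smul_apply, S_pow_apply, smul_eq_mul]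

lemma aeval_S_eq_sum' (P : ℤ[X]) (f : ℕ → ℤ) (n : ℕ) {D : ℕ} (hD : P.natDegree ≤ D) :
    aeval S P f n = ∑ i ∈ Finset.range (D + 1), P.coeff i * f (n + i) := by
  rw [aeval_S_eq_sum]
  apply Finset.sum_subset
  · intro i hi
    rw [Finset.mem_range] at hi ⊢
    omega
  · intro i _ hi
    rw [Finset.mem_range] at hi
    rw [coeff_eq_zero_of_natDegree_lt (by omega), zero_mul]

lemma abs_aeval_S_le {P : ℤ[X]} {f : ℕ → ℤ} {n D H : ℕ} {B : ℝ} (hD : P.natDegree ≤ D)
    (hP : ∀ i, |P.coeff i| ≤ H) (hf : ∀ i ≤ D, |(f (n + i) : ℝ)| ≤ B) :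
    |((aeval S P f n : ℤ) : ℝ)| ≤ (D + 1) * (H * B) := by
  rw [aeval_S_eq_sum' P f n hD]
  push_cast
  refine (Finset.abs_sum_le_sum_abs _ _).trans ?_
  calc _ ≤ ∑ i ∈ Finset.range (D + 1), ((H : ℝ) * B) := by
        apply Finset.sum_le_sum
        intro i hi
        rw [Finset.mem_range] at hi
        rw [abs_mul]
        have h1 : |(P.coeff i : ℝ)| ≤ H := by exact_mod_cast hP i
        exact mul_le_mul h1 (hf i (by omega)) (abs_nonneg _) (Nat.cast_nonneg _)
    _ = _ := by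
        rw [Finset.sum_const, Finset.card_range, nsmul_eq_mul]
        push_cast
        ring

theorem exists_P {F : ArithmeticFunction ℤ} {I : Finset ℕ} (hI : ∀ ℓ ∈ I, ℓ ∈ SF F) {D H : ℕ}
    (hcard : ∏ ℓ ∈ I, ℓ ^ ℓ < (H + 1) ^ D) :
    ∃ P : ℤ[X], P.coeff 0 ≠ 0 ∧ P.natDegree ≤ D ∧ (∀ i, |P.coeff i| ≤ H) ∧
      ∀ n, (∏ ℓ ∈ I, (ℓ : ℤ)) ∣ aeval S P (seq F) n := by
  classical
  have hprime : ∀ ℓ ∈ I, ℓ.Prime := fun ℓ hℓ => (hI ℓ hℓ).1
  set J : Finset (Σ _ : ℕ, ℕ) := I.sigma (fun ℓ => Finset.range ℓ) with hJ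
  let val : (Fin D → Fin (H + 1)) → ℕ → ℤ := fun q n => ∑ i, (q i : ℤ) * seq F (n + i)
  let Φ : (Fin D → Fin (H + 1)) → (J → ℤ) := fun q x => val q x.1.2 % (x.1.1 : ℤ)
  set t := Fintype.piFinset (fun x : J => Finset.Ico (0 : ℤ) (x.1.1 : ℤ)) with ht
  have hcardt : t.card = ∏ ℓ ∈ I, ℓ ^ ℓ := by
    rw [ht, Fintype.card_piFinset]
    simp only [Int.card_Ico, sub_zero, Int.toNat_natCast]
    rw [Finset.prod_coe_sort J (fun x => x.1), hJ, Finset.prod_sigma]
    apply Finset.prod_congr rfl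
    intro ℓ _
    rw [Finset.prod_const, Finset.card_range]
  have hlt : t.card < (Finset.univ : Finset (Fin D → Fin (H + 1))).card := by
    rw [Finset.card_univ, Fintype.card_fun, Fintype.card_fin, Fintype.card_fin, hcardt]
    exact hcard
  obtain ⟨q, -, q', -, hqq, hΦ⟩ := Finset.exists_ne_map_eq_of_card_lt_of_maps_to hlt
    (f := Φ) (by
      intro q _
      rw [ht, Finset.mem_coe, Fintype.mem_piFinset]
      intro x
      rw [Finset.mem_Ico]
      have hx := Finset.mem_sigma.1 x.2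
      have hpos : (0 : ℤ) < (x.1.1 : ℤ) := by exact_mod_cast (hprime _ hx.1).pos
      exact ⟨Int.emod_nonneg _ hpos.ne', Int.emod_lt_of_pos _ hpos⟩)
  let z : ℕ → ℤ := fun i => if h : i < D then (q ⟨i, h⟩ : ℤ) - (q' ⟨i, h⟩ : ℤ) else 0
  have hz : ∀ i, |z i| ≤ H := by
    intro i
    simp only [z]
    split_ifs with h
    · have h1 := (q ⟨i, h⟩).2
      have h2 := (q' ⟨i, h⟩).2
      rw [abs_le]
      constructor <;> omega
    · simp
  have hzD : ∀ i, D ≤ i → z i = 0 := by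
    intro i hi
    simp only [z]
    rw [dif_neg (by omega)]
  have hex : ∃ i, z i ≠ 0 := by
    by_contra hcon
    push Not at hcon
    apply hqq
    ext i
    have := hcon i
    simp only [z] at this
    rw [dif_pos i.2] at this
    have h2 : (q i : ℤ) = (q' i : ℤ) := by
      have : (q ⟨i, i.2⟩ : ℤ) - (q' ⟨i, i.2⟩ : ℤ) = 0 := this
      linarith
    exact_mod_cast h2
  set a := Nat.find hex with ha
  have haz : z a ≠ 0 := Nat.find_spec hex
  have haD : a < D := by
    by_contra h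
    exact haz (hzD a (by omega))
  have hmin : ∀ i < a, z i = 0 := by
    intro i hi
    by_contra h
    exact Nat.find_min hex hi h
  have hval : ∀ n, val q n - val q' n = ∑ i ∈ Finset.range D, z i * seq F (n + i) := by
    intro n
    simp only [val]
    rw [← Finset.sum_sub_distrib, Finset.sum_range]
    apply Finset.sum_congr rfl
    intro i _
    simp only [z]
    rw [dif_pos i.2]
    ring
  have hdvd0 : ∀ ℓ ∈ I, ∀ n < ℓ, (ℓ : ℤ) ∣ ∑ i ∈ Finset.range D, z i * seq F (n + i) := by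
    intro ℓ hℓ n hn
    have hx : (⟨ℓ, n⟩ : Σ _ : ℕ, ℕ) ∈ J := by
      rw [hJ, Finset.mem_sigma]
      exact ⟨hℓ, Finset.mem_range.2 hn⟩
    have h1 := congrFun hΦ ⟨⟨ℓ, n⟩, hx⟩
    simp only [Φ] at h1
    rw [← hval]
    exact Int.ModEq.dvd (show val q' n ≡ val q n [ZMOD ℓ] from h1.symm)
  have hdvd : ∀ ℓ ∈ I, ∀ n, (ℓ : ℤ) ∣ ∑ i ∈ Finset.range D, z i * seq F (n + i) := by
    intro ℓ hℓ n
    have h1 := hdvd0 ℓ hℓ (n % ℓ) (Nat.mod_lt _ (hprime ℓ hℓ).pos)
    have h2 : (∑ i ∈ Finset.range D, z i * seq F (n + i)) ≡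
        (∑ i ∈ Finset.range D, z i * seq F (n % ℓ + i)) [ZMOD ℓ] := by
      apply Int.ModEq.sum
      intro i _
      apply Int.ModEq.mul_left
      unfold seq
      apply modEq_of_modEq (hI ℓ hℓ) (by omega) (by omega)
      exact ((Nat.mod_modEq n ℓ).symm.add_right i).add_right 1
    exact (Int.modEq_zero_iff_dvd).1 (h2.trans (Int.modEq_zero_iff_dvd.2 h1))
  set P : ℤ[X] := ∑ i ∈ Finset.range D, C (z (a + i)) * X ^ i with hP
  have hcoeff : ∀ k, P.coeff k = z (a + k) := by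
    intro k
    rw [hP, finsetSum_coeff]
    simp only [coeff_C_mul_X_pow]
    rw [Finset.sum_ite_eq]
    split_ifs with h
    · rfl
    · rw [Finset.mem_range] at h
      exact (hzD _ (by omega)).symm
  refine ⟨P, ?_, ?_, ?_, ?_⟩
  · rw [hcoeff, add_zero]
    exact haz
  · rw [natDegree_le_iff_coeff_eq_zero]
    intro N hN
    rw [hcoeff]
    exact hzD _ (by omega)
  · intro i
    rw [hcoeff]
    exact hz _
  · have hPdeg : P.natDegree ≤ D := by
      rw [natDegree_le_iff_coeff_eq_zero]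
      intro N hN
      rw [hcoeff]
      exact hzD _ (by omega)
    have hshift : ∀ n, aeval S P (seq F) (n + a) =
        ∑ i ∈ Finset.range D, z i * seq F (n + i) := by
      intro n
      rw [aeval_S_eq_sum' P _ _ hPdeg]
      have e1 : ∑ i ∈ Finset.range (D + 1), P.coeff i * seq F (n + a + i) =
          ∑ i ∈ Finset.range (D + 1), z (a + i) * seq F (n + (a + i)) := by
        apply Finset.sum_congr rfl
        intro i _
        rw [hcoeff, add_assoc]
      rw [e1]
      have e2 := Finset.sum_range_add (fun i => z i * seq F (n + i)) a (D + 1)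
      have e3 : ∑ x ∈ Finset.range a, z x * seq F (n + x) = 0 := by
        apply Finset.sum_eq_zero
        intro x hx
        rw [Finset.mem_range] at hx
        rw [hmin x hx, zero_mul]
      have e4 : ∑ x ∈ Finset.range (a + (D + 1)), z x * seq F (n + x) =
          ∑ i ∈ Finset.range D, z i * seq F (n + i) := by
        symm
        apply Finset.sum_subset
        · intro i hi
          rw [Finset.mem_range] at hi ⊢
          omega
        · intro i _ hi
          rw [Finset.mem_range] at hi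
          rw [hzD i (by omega), zero_mul]
      rw [← e4, e2, e3, zero_add]
    intro n
    apply Finset.prod_dvd_of_coprime
    · intro x hx y hy hxy
      have := (Nat.coprime_primes (hprime x hx) (hprime y hy)).2 hxy
      exact Nat.isCoprime_iff_coprime.2 this
    · intro ℓ hℓ
      -- periodicity
      have h1 : aeval S P (seq F) n ≡ aeval S P (seq F) (n + a * ℓ) [ZMOD ℓ] := by
        rw [aeval_S_eq_sum' P _ _ hPdeg, aeval_S_eq_sum' P _ _ hPdeg]
        apply Int.ModEq.sum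
        intro i _
        apply Int.ModEq.mul_left
        unfold seq
        apply modEq_of_modEq (hI ℓ hℓ) (by omega) (by omega)
        have : n + a * ℓ + i + 1 = (n + i + 1) + a * ℓ := by ring
        rw [this]
        exact (Nat.modEq_iff_dvd' (by omega)).2 ⟨a, by
          rw [Nat.add_sub_cancel_left, mul_comm]⟩
      have h2 : n + a * ℓ = (n + a * (ℓ - 1)) + a := by
        have h3 := (hprime ℓ hℓ).pos
        obtain ⟨k, hk⟩ : ∃ k, ℓ = k + 1 := ⟨ℓ - 1, by omega⟩
        rw [hk, Nat.add_sub_cancel]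
        ring
      rw [h2, hshift] at h1
      exact Int.modEq_zero_iff_dvd.1 (h1.trans (Int.modEq_zero_iff_dvd.2 (hdvd ℓ hℓ _)))

/-- the finite step, dense case -/
theorem finite_stepS {F : ArithmeticFunction ℤ} (hF : F.IsMultiplicative) (hS : (SF F).Infinite)
    {I : Finset ℕ} (hI : ∀ ℓ ∈ I, ℓ ∈ SF F) {D H : ℕ} (hcard : ∏ ℓ ∈ I, ℓ ^ ℓ < (H + 1) ^ D)
    {M : ℕ} (hM : 2 ≤ M) {B : ℝ}
    (hB : ∀ j, 1 ≤ j → j ≤ (2 * M + 1) * D + 1 → |(F j : ℝ)| ≤ B)
    (hlt : ((D : ℝ) + 1) * (H * B) < ∏ ℓ ∈ I, (ℓ : ℝ)) :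
    ∃ d : ℕ, ∀ m : ℕ, 0 < m → m ≤ M → (F m).natAbs = m ^ d := by
  obtain ⟨P, hP0, hPdeg, hPc, hPdvd⟩ := exists_P hI hcard
  apply finite_stepP hF hS hP0 hM
  intro n hn
  have hn2 : n ≤ 2 * M * D := by
    have : 2 * M * P.natDegree ≤ 2 * M * D := Nat.mul_le_mul_left _ hPdeg
    omega
  apply Int.eq_zero_of_abs_lt_dvd (hPdvd n)
  have h1 := abs_aeval_S_le (f := seq F) (n := n) (B := B) hPdeg hPc (fun i hi => by
    apply hB (n + i + 1) (by omega)
    have : (2 * M + 1) * D + 1 = 2 * M * D + D + 1 := by ring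
    omega)
  have h3 : ((|aeval S P (seq F) n| : ℤ) : ℝ) < ((∏ ℓ ∈ I, (ℓ : ℤ) : ℤ) : ℝ) := by
    push_cast
    exact lt_of_le_of_lt h1 hlt
  exact_mod_cast h3

end Pool.Agent.Lib.MP_c7ee41_nt
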