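import Mathlib
import Pool.Agent.Lib.MP_c7ee41_nt.Basic

set_option autoImplicit false

/-!
# Counting functions of a set of naturals
-/

namespace Pool.Agent.Lib.MP_c7ee41_nt

open Filter

open Classical in
/-- the weighted count -/
noncomputable def theta (A : Set ℕ) (X : ℕ) : ℝ :=
  ∑ ℓ ∈ (Finset.Icc 1 X).filter (fun ℓ => ℓ ∈ A), Real.log ℓ

open Classical in
/-- the count -/
noncomputable def cnt (A : Set ℕ) (X : ℕ) : ℕ :=
  ((Finset.Icc 1 X).filter (fun ℓ => ℓ ∈ A)).card

lemma tendsto_log_nat : Tendsto (fun X : ℕ => Real.log X) atTop atTop :=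
  Real.tendsto_log_atTop.comp tendsto_natCast_atTop_atTop

lemma eventually_small {K c b : ℝ} (hb : 0 < b) (hc : 0 ≤ c) :
    ∀ᶠ u : ℝ in atTop, c * u ^ K < Real.exp (b * u) := by
  have h := (isLittleO_rpow_exp_pos_mul_atTop K hb).def (show (0 : ℝ) < 1 / (c + 1) by positivity)
  filter_upwards [h, eventually_gt_atTop 0] with u hu hu0
  rw [Real.norm_of_nonneg (by positivity), Real.norm_of_nonneg (by positivity)] at hu
  have h1 : c * u ^ K ≤ c * (1 / (c + 1) * Real.exp (b * u)) := mul_le_mul_of_nonneg_left hu hc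
  have h2 : c * (1 / (c + 1) * Real.exp (b * u)) < Real.exp (b * u) := by
    have h3 : c * (1 / (c + 1)) < 1 := by
      rw [mul_one_div, div_lt_one (by positivity)]
      linarith
    have h4 := Real.exp_pos (b * u)
    nlinarith
  linarith

lemma theta_mono_set {A : Set ℕ} (hA : A.Finite) (X : ℕ) :
    theta A X ≤ ∑ ℓ ∈ hA.toFinset, Real.log ℓ := by
  classical
  unfold theta
  apply Finset.sum_le_sum_of_subset_of_nonneg
  · intro ℓ hℓ
    rw [Finset.mem_filter] at hℓ
    exact hA.mem_toFinset.2 hℓ.2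
  · intro ℓ _ _
    exact Real.log_natCast_nonneg ℓ

lemma infinite_of_theta {A : Set ℕ} {a : ℝ} (ha : 0 < a)
    (hfreq : ∃ᶠ X : ℕ in atTop, a * Real.log X ≤ theta A X) : A.Infinite := by
  intro hA
  have h1 := (tendsto_log_nat.const_mul_atTop ha).eventually_gt_atTop
    (∑ ℓ ∈ hA.toFinset, Real.log ℓ)
  obtain ⟨X, h2, h3⟩ := (hfreq.and_eventually h1).exists
  have := theta_mono_set hA X
  linarith

lemma theta_succ_mem {A : Set ℕ} {X : ℕ} (h : X + 1 ∈ A) :
    theta A (X + 1) = theta A X + Real.log ((X + 1 : ℕ) : ℝ) := by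
  classical
  unfold theta
  rw [← Finset.insert_Icc_right_eq_Icc_add_one (by omega), Finset.filter_insert, if_pos h,
    Finset.sum_insert (by simp), add_comm]

lemma theta_succ_not_mem {A : Set ℕ} {X : ℕ} (h : X + 1 ∉ A) :
    theta A (X + 1) = theta A X := by
  classical
  unfold theta
  rw [← Finset.insert_Icc_right_eq_Icc_add_one (by omega), Finset.filter_insert, if_neg h]

lemma cnt_succ_mem {A : Set ℕ} {X : ℕ} (h : X + 1 ∈ A) :
    cnt A (X + 1) = cnt A X + 1 := by
  classical
  unfold cnt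
  rw [← Finset.insert_Icc_right_eq_Icc_add_one (by omega), Finset.filter_insert, if_pos h,
    Finset.card_insert_of_notMem (by simp)]

lemma cnt_succ_not_mem {A : Set ℕ} {X : ℕ} (h : X + 1 ∉ A) :
    cnt A (X + 1) = cnt A X := by
  classical
  unfold cnt
  rw [← Finset.insert_Icc_right_eq_Icc_add_one (by omega), Finset.filter_insert, if_neg h]

lemma tendsto_loglog_nat : Tendsto (fun X : ℕ => Real.log (Real.log X)) atTop atTop :=
  Real.tendsto_log_atTop.comp tendsto_log_nat

lemma cnt_le_of_finite {A : Set ℕ} (hA : A.Finite) (X : ℕ) : cnt A X ≤ hA.toFinset.card := by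
  classical
  unfold cnt
  apply Finset.card_le_card
  intro ℓ hℓ
  rw [Finset.mem_filter] at hℓ
  exact hA.mem_toFinset.2 hℓ.2

/-- the number of elements is at most `a log log X + O(1)` if `θ(X) < a log X` for large `X`. -/
lemma theta_of_cnt {A : Set ℕ} {a ε : ℝ} (ha : 0 < a) (hε : 0 < ε)
    (hfreq : ∃ᶠ X : ℕ in atTop, (a + ε) * Real.log (Real.log X) ≤ (cnt A X : ℝ)) :
    ∃ᶠ X : ℕ in atTop, a * Real.log X ≤ theta A X := by
  by_contra hcon
  rw [not_frequently] at hcon
  -- `A` is infinite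
  have hinf : A.Infinite := by
    intro hA
    have h1 := (tendsto_loglog_nat.const_mul_atTop (show 0 < a + ε by positivity)).eventually_gt_atTop
      ((hA.toFinset.card : ℕ) : ℝ)
    obtain ⟨X, h2, h3⟩ := (hfreq.and_eventually h1).exists
    have : (cnt A X : ℝ) ≤ ((hA.toFinset.card : ℕ) : ℝ) := by exact_mod_cast cnt_le_of_finite hA X
    linarith
  obtain ⟨N0, hN0⟩ := eventually_atTop.1 hcon
  obtain ⟨X0, hX0A, hX0⟩ := hinf.exists_gt (max N0 2)
  have hX0N : N0 ≤ X0 := (le_max_left _ _).trans hX0.le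
  have hX02 : 2 < X0 := lt_of_le_of_lt (le_max_right _ _) hX0
  have hpos : 0 < theta A X0 := by
    obtain ⟨Y, rfl⟩ : ∃ Y, X0 = Y + 1 := ⟨X0 - 1, by omega⟩
    rw [theta_succ_mem hX0A]
    have h1 : 0 ≤ theta A Y := by
      unfold theta
      exact Finset.sum_nonneg (fun ℓ _ => Real.log_natCast_nonneg ℓ)
    have h2 : 0 < Real.log ((Y + 1 : ℕ) : ℝ) := by
      apply Real.log_pos
      exact_mod_cast (show 1 < Y + 1 by omega)
    linarith
  have hind : ∀ X, X0 ≤ X → theta A X0 * Real.exp (((cnt A X : ℝ) - cnt A X0) / a) ≤ theta A X := by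
    intro X hX
    induction X, hX using Nat.le_induction with
    | base => simp
    | succ X hX ih =>
      by_cases hm : X + 1 ∈ A
      · have h1 := theta_succ_mem hm
        have h2 := hN0 (X + 1) (by omega)
        push Not at h2
        have h3 : theta A X ≤ theta A (X + 1) * Real.exp (-(1 / a)) := by
          have h4 : theta A (X + 1) / a < Real.log ((X + 1 : ℕ) : ℝ) := by
            rw [div_lt_iff₀ ha, mul_comm]
            exact h2
          have h5 : 0 ≤ theta A (X + 1) := by
            unfold theta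
            exact Finset.sum_nonneg (fun ℓ _ => Real.log_natCast_nonneg ℓ)
          have h6 : theta A X ≤ theta A (X + 1) * (1 + -(1 / a)) := by
            have : theta A (X + 1) * (1 + -(1 / a)) = theta A (X + 1) - theta A (X + 1) / a := by
              ring
            rw [this]
            linarith
          have h7 := Real.add_one_le_exp (-(1 / a))
          exact h6.trans (mul_le_mul_of_nonneg_left (by linarith) h5)
        have h8 : theta A X * Real.exp (1 / a) ≤ theta A (X + 1) := by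
          calc theta A X * Real.exp (1 / a)
              ≤ theta A (X + 1) * Real.exp (-(1 / a)) * Real.exp (1 / a) :=
                mul_le_mul_of_nonneg_right h3 (Real.exp_pos _).le
            _ = theta A (X + 1) := by
                rw [mul_assoc, ← Real.exp_add, neg_add_cancel, Real.exp_zero, mul_one]
        rw [cnt_succ_mem hm]
        calc _ = (theta A X0 * Real.exp (((cnt A X : ℝ) - cnt A X0) / a)) * Real.exp (1 / a) := by
              rw [mul_assoc, ← Real.exp_add]
              congr 2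
              push_cast
              ring
          _ ≤ theta A X * Real.exp (1 / a) := mul_le_mul_of_nonneg_right ih (Real.exp_pos _).le
          _ ≤ _ := h8
      · rw [theta_succ_not_mem hm, cnt_succ_not_mem hm]
        exact ih
  -- conclusion
  set c : ℝ := cnt A X0 + a * (Real.log a - Real.log (theta A X0)) with hc
  have h1 := (tendsto_loglog_nat.const_mul_atTop hε).eventually_gt_atTop c
  have h2 : ∀ᶠ X : ℕ in atTop, X0 ≤ X := eventually_ge_atTop X0
  obtain ⟨X, h3, h4, h5⟩ := (hfreq.and_eventually (h1.and h2)).exists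
  have h6 := hind X h5
  have h7 := hN0 X (by omega)
  push Not at h7
  have hXR : (2 : ℝ) < X := by exact_mod_cast (show 2 < X by omega)
  have hlogX : 0 < Real.log X := Real.log_pos (by linarith)
  have h8 : theta A X0 * Real.exp (((cnt A X : ℝ) - cnt A X0) / a) < a * Real.log X :=
    lt_of_le_of_lt h6 h7
  have h9 := Real.log_lt_log (by positivity) h8
  rw [Real.log_mul hpos.ne' (Real.exp_pos _).ne', Real.log_exp, Real.log_mul ha.ne' hlogX.ne'] at h9
  have h10 : ((cnt A X : ℝ) - cnt A X0) / a <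
      Real.log a - Real.log (theta A X0) + Real.log (Real.log X) := by linarith
  rw [div_lt_iff₀ ha] at h10
  nlinarith

lemma sum_eq (F : ArithmeticFunction ℤ) (X : ℕ)
    [DecidablePred (fun ℓ : ℕ => ℓ.Prime ∧ ∀ n : ℕ, 0 < n → F (n + ℓ) ≡ F n [ZMOD (ℓ : ℤ)])] :
    ∑ ℓ ∈ (Finset.Icc 1 X).filter
      (fun ℓ : ℕ => ℓ.Prime ∧ ∀ n : ℕ, 0 < n → F (n + ℓ) ≡ F n [ZMOD (ℓ : ℤ)]), Real.log ℓ =
      theta (SF F) X := by
  unfold theta
  apply Finset.sum_congr _ (fun _ _ => rfl)
  ext ℓ
  simp only [Finset.mem_filter]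
  rfl

lemma card_eq (F : ArithmeticFunction ℤ) (X : ℕ)
    [DecidablePred (fun ℓ : ℕ => ℓ.Prime ∧ ∀ n : ℕ, 0 < n → F (n + ℓ) ≡ F n [ZMOD (ℓ : ℤ)])] :
    ((Finset.Icc 1 X).filter
      (fun ℓ : ℕ => ℓ.Prime ∧ ∀ n : ℕ, 0 < n → F (n + ℓ) ≡ F n [ZMOD (ℓ : ℤ)])).card =
      cnt (SF F) X := by
  unfold cnt
  congr 1
  ext ℓ
  simp only [Finset.mem_filter]
  rfl

end Pool.Agent.Lib.MP_c7ee41_nt
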