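import Mathlib
import Pool.Agent.Lib.MP_c7ee41_nt.SiegelP
import Pool.Agent.Lib.MP_c7ee41_nt.Theta

set_option autoImplicit false

/-!
# The growth barrier
-/

namespace Pool.Agent.Lib.MP_c7ee41_nt

open Filter

/-- the growth hypothesis at `X` -/
def Bar (F : ArithmeticFunction ℤ) (ε : ℝ) (X : ℕ) : Prop :=
  ∃ B : ℝ, (∀ n : ℕ, 0 < n → (n : ℝ) ≤ (X : ℝ) ^ (1 + ε) → |(F n : ℝ)| ≤ B) ∧
    (1 + ε) * Real.log B + ε * Real.log X ≤ theta (SF F) X

lemma log_B_nonneg {F : ArithmeticFunction ℤ} (hF : F.IsMultiplicative) {ε : ℝ} (hε : 0 < ε)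
    {X : ℕ} (hX : 1 ≤ X) {B : ℝ}
    (hB : ∀ n : ℕ, 0 < n → (n : ℝ) ≤ (X : ℝ) ^ (1 + ε) → |(F n : ℝ)| ≤ B) :
    1 ≤ B ∧ 0 ≤ Real.log B := by
  have hXR : (1 : ℝ) ≤ X := by exact_mod_cast hX
  have h1 := hB 1 one_pos (by
    rw [Nat.cast_one]
    exact Real.one_le_rpow hXR (by linarith))
  rw [hF.map_one] at h1
  have h2 : (1 : ℝ) ≤ B := by simpa using h1
  exact ⟨h2, Real.log_nonneg h2⟩

lemma Bar.mono {F : ArithmeticFunction ℤ} (hF : F.IsMultiplicative) {ε ε' : ℝ} (hε' : 0 < ε')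
    (hle : ε' ≤ ε) {X : ℕ} (hX : 1 ≤ X) (h : Bar F ε X) : Bar F ε' X := by
  obtain ⟨B, hB, hθ⟩ := h
  have hXR : (1 : ℝ) ≤ X := by exact_mod_cast hX
  obtain ⟨-, hlog⟩ := log_B_nonneg hF (lt_of_lt_of_le hε' hle) hX hB
  refine ⟨B, fun n hn hnX => hB n hn (hnX.trans ?_), ?_⟩
  · exact Real.rpow_le_rpow_of_exponent_le hXR (by linarith)
  · have h1 : 0 ≤ Real.log X := Real.log_nonneg hXR
    nlinarith

lemma eventually_lin {a b c : ℝ} (hc : 0 < c) :
    ∀ᶠ u : ℝ in atTop, a * u + b < Real.exp (c * u) := by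
  have h := eventually_small (K := 1) (c := |a| + |b|) (b := c) hc (by positivity)
  filter_upwards [h, eventually_ge_atTop 1] with u hu hu1
  rw [Real.rpow_one] at hu
  have h1 : a * u ≤ |a| * u := mul_le_mul_of_nonneg_right (le_abs_self a) (by linarith)
  have h2 : b ≤ |b| * u := by
    have h3 := le_abs_self b
    have h4 := abs_nonneg b
    nlinarith
  have h3 : (|a| + |b|) * u = |a| * u + |b| * u := by ring
  linarith

lemma num0 {c ε : ℝ} (hε : 0 < ε) : c = ε / 4 * (c * (4 / ε)) := by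
  field_simp

lemma num2 {ε θ b : ℝ} (hε : 0 < ε) (hθ : 0 < θ) (hb : b ≤ (1 - ε / 2) * θ) :
    ε / 4 * θ + b < θ := by
  have : 0 < ε * θ := by positivity
  linarith

lemma num3 {ε θ b L : ℝ} (hε : 0 < ε) (hθ : 0 < θ) (hb : b ≤ (1 - ε / 2) * θ)
    (h : 4 * (2 * L + 2) < ε * θ) : (2 * L + 2) + (ε / 8 * θ + b) < θ := by
  have : 0 < ε * θ := by positivity
  linarith

lemma num4 {ε b θ q : ℝ} (hε : 0 < ε) (hε1 : ε ≤ 1) (hb : 0 ≤ b) (hq : 0 < q)
    (h : (1 + ε) * b + q ≤ θ) : b ≤ (1 - ε / 2) * θ := by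
  have h1 : (1 + ε) * b ≤ θ := by linarith
  have h2 : (1 : ℝ) ≤ (1 - ε / 2) * (1 + ε) := by nlinarith
  have h3 : 1 * b ≤ ((1 - ε / 2) * (1 + ε)) * b := mul_le_mul_of_nonneg_right h2 hb
  have h4 : (1 - ε / 2) * ((1 + ε) * b) ≤ (1 - ε / 2) * θ :=
    mul_le_mul_of_nonneg_left h1 (by linarith)
  linarith

lemma num5 {ε M D E : ℝ} (hε : 0 < ε) (hM : 0 ≤ M) (hE : 1 ≤ E) (hD : D ≤ 2 * E) :
    (2 * M + 1) * D + 1 ≤ (4 * M + 4 + 8 / ε) * E := by
  have h4 : (2 * M + 1) * D ≤ (2 * M + 1) * (2 * E) :=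
    mul_le_mul_of_nonneg_left hD (by positivity)
  have h5 : 0 ≤ 8 / ε * E := by positivity
  have h6 : (4 * M + 4 + 8 / ε) * E = (2 * M + 1) * (2 * E) + 2 * E + 8 / ε * E := by ring
  rw [h6]
  linarith

lemma step_of_bar {F : ArithmeticFunction ℤ} (hF : F.IsMultiplicative) {ε : ℝ}
    (hε : 0 < ε) (hε1 : ε ≤ 1) (hS : (SF F).Infinite)
    (hfreq : ∃ᶠ X : ℕ in atTop, Bar F ε X) {M : ℕ} (hM : 2 ≤ M) :
    ∃ d : ℕ, ∀ m : ℕ, 0 < m → m ≤ M → (F m).natAbs = m ^ d := by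
  classical
  have hMR : (2 : ℝ) ≤ M := by exact_mod_cast hM
  -- the lower cut
  obtain ⟨B0, hB0M, hB0⟩ : ∃ B0 : ℕ, M ≤ B0 ∧ 4 / ε ≤ Real.log B0 := by
    have h1 := (tendsto_log_nat.eventually_ge_atTop (4 / ε)).and (eventually_ge_atTop M)
    obtain ⟨B0, h2, h3⟩ := h1.exists
    exact ⟨B0, h3, h2⟩
  have hlogB0 : 0 < Real.log B0 := lt_of_lt_of_le (by positivity) hB0
  -- eventual inequalities
  have E1 : ∀ᶠ X : ℕ in atTop, theta (SF F) B0 ≤ ε / 4 * Real.log X :=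
    (tendsto_log_nat.const_mul_atTop (show 0 < ε / 4 by positivity)).eventually_ge_atTop _
  have E2 : ∀ᶠ X : ℕ in atTop, 0 * Real.log X + (4 * (M : ℝ) + 4 + 8 / ε) <
      Real.exp (ε / 2 * Real.log X) :=
    tendsto_log_nat.eventually (eventually_lin (by positivity))
  have E3 : ∀ᶠ X : ℕ in atTop, (2 * ((M : ℝ) + 1)) * Real.log X + (2 * ((M : ℝ) + 1)) <
      Real.exp (ε * Real.log X) :=
    tendsto_log_nat.eventually (eventually_lin hε)
  have E4 : ∀ᶠ X : ℕ in atTop, 2 ≤ X ∧ B0 ≤ X := (eventually_ge_atTop 2).and (eventually_ge_atTop B0)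
  obtain ⟨X, ⟨B, hB, hθ⟩, e1, e2, e3, e4, e5⟩ :=
    (hfreq.and_eventually (E1.and (E2.and (E3.and E4)))).exists
  have hXR : (2 : ℝ) ≤ X := by exact_mod_cast e4
  have hX0 : (0 : ℝ) < X := by linarith
  have hlogX : 0 < Real.log X := Real.log_pos (by linarith)
  obtain ⟨hB1, hlogB⟩ := log_B_nonneg hF hε (by omega) hB
  set L := Real.log X with hL
  have hXexp : (X : ℝ) = Real.exp L := by rw [hL, Real.exp_log hX0]
  have hXpow : ∀ a : ℝ, (X : ℝ) ^ a = Real.exp (a * L) := by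
    intro a
    rw [Real.rpow_def_of_pos hX0, mul_comm]
  set I := (Finset.Icc 1 X).filter (fun ℓ => ℓ ∈ SF F ∧ B0 < ℓ) with hI
  have hsplit : theta (SF F) X = theta (SF F) B0 + ∑ ℓ ∈ I, Real.log ℓ := by
    unfold theta
    rw [hI, ← Finset.sum_union]
    · apply Finset.sum_congr _ (fun _ _ => rfl)
      ext ℓ
      simp only [Finset.mem_filter, Finset.mem_Icc, Finset.mem_union]
      constructor
      · rintro ⟨⟨h1, h2⟩, h3⟩
        by_cases h4 : ℓ ≤ B0
        · exact Or.inl ⟨⟨h1, h4⟩, h3⟩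
        · exact Or.inr ⟨⟨h1, h2⟩, h3, by omega⟩
      · rintro (⟨⟨h1, h2⟩, h3⟩ | ⟨⟨h1, h2⟩, h3, h4⟩)
        · exact ⟨⟨h1, by omega⟩, h3⟩
        · exact ⟨⟨h1, h2⟩, h3⟩
    · rw [Finset.disjoint_left]
      intro ℓ h1 h2
      simp only [Finset.mem_filter, Finset.mem_Icc] at h1 h2
      omega
  set θ := ∑ ℓ ∈ I, Real.log ℓ with hθI
  have hmem : ∀ ℓ ∈ I, ℓ ∈ SF F ∧ B0 < ℓ ∧ 1 ≤ ℓ ∧ ℓ ≤ X := by
    intro ℓ hℓ
    simp only [hI, Finset.mem_filter, Finset.mem_Icc] at hℓ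
    exact ⟨hℓ.2.1, hℓ.2.2, hℓ.1.1, hℓ.1.2⟩
  have hθ2 : (1 + ε) * Real.log B + 3 * ε / 4 * L ≤ θ := by
    rw [hsplit] at hθ
    linarith
  have hθpos : 0 < θ := by
    have : 0 < 3 * ε / 4 * L := by positivity
    have h2 : 0 ≤ (1 + ε) * Real.log B := by positivity
    linarith
  have hcard : (I.card : ℝ) * (4 / ε) ≤ θ := by
    have h1 : (I.card : ℝ) * Real.log B0 ≤ θ := by
      rw [← nsmul_eq_mul]
      apply Finset.card_nsmul_le_sum
      intro ℓ hℓ
      have h2 := (hmem ℓ hℓ).2.1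
      rcases Nat.eq_zero_or_pos B0 with h0 | h0
      · rw [h0] at hlogB0
        simp at hlogB0
      · apply Real.log_le_log
        · exact_mod_cast h0
        · exact_mod_cast h2.le
    exact (mul_le_mul_of_nonneg_left hB0 (Nat.cast_nonneg _)).trans h1
  have hcard2 : (I.card : ℝ) ≤ ε / 4 * θ := by
    calc (I.card : ℝ) = ε / 4 * ((I.card : ℝ) * (4 / ε)) := num0 hε
      _ ≤ _ := mul_le_mul_of_nonneg_left hcard (by positivity)
  have hlogB2 : Real.log B ≤ (1 - ε / 2) * θ :=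
    num4 hε hε1 hlogB (show 0 < 3 * ε / 4 * L by positivity) hθ2
  have hprod : ∏ ℓ ∈ I, (ℓ : ℝ) = Real.exp θ := by
    rw [← Real.exp_log (show 0 < ∏ ℓ ∈ I, (ℓ : ℝ) from Finset.prod_pos (fun ℓ hℓ => by
      exact_mod_cast (hmem ℓ hℓ).2.2.1)), Real.log_prod (fun ℓ hℓ => by
        have := (hmem ℓ hℓ).2.2.1
        positivity)]
  have hBexp : B = Real.exp (Real.log B) := (Real.exp_log (by linarith)).symm
  by_cases hcase : ((M : ℝ) + 1) * I.card ≤ Real.exp (ε * L)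
  · -- few primes
    have hsum : (∑ ℓ ∈ I, ℓ) ≤ I.card * X := by
      rw [← smul_eq_mul]
      exact Finset.sum_le_card_nsmul _ _ _ (fun ℓ hℓ => (hmem ℓ hℓ).2.2.2)
    have hne : I.Nonempty := by
      rw [Finset.nonempty_iff_ne_empty]
      intro h
      rw [hθI, h] at hθpos
      simp at hθpos
    refine finite_step hF hS (I := I) (fun ℓ hℓ => (hmem ℓ hℓ).1) hne
      (fun ℓ hℓ => lt_of_le_of_lt hB0M (hmem ℓ hℓ).2.1) (B := B) ?_ ?_
    · intro j hj1 hj2
      apply hB j (by omega)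
      have h1 : j ≤ (M + 1) * (I.card * X) := hj2.trans (Nat.mul_le_mul_left _ hsum)
      have h2 : (j : ℝ) ≤ ((M : ℝ) + 1) * (I.card * X) := by exact_mod_cast h1
      have h3 : ((M : ℝ) + 1) * (I.card * X) = (((M : ℝ) + 1) * I.card) * X := by ring
      rw [hXpow]
      calc (j : ℝ) ≤ (((M : ℝ) + 1) * I.card) * X := by rw [← h3]; exact h2
        _ ≤ Real.exp (ε * L) * X := mul_le_mul_of_nonneg_right hcase hX0.le
        _ = Real.exp ((1 + ε) * L) := by
          rw [add_mul, Real.exp_add, one_mul, ← hXexp, mul_comm]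
    · rw [hprod]
      have h1 : (2 : ℝ) ^ I.card ≤ Real.exp (ε / 4 * θ) := by
        rw [← Real.exp_log (show (0 : ℝ) < 2 ^ I.card by positivity), Real.log_pow]
        apply Real.exp_le_exp.2
        have h2 : Real.log 2 ≤ 1 := by
          have := Real.log_two_lt_d9
          linarith
        calc (I.card : ℝ) * Real.log 2 ≤ (I.card : ℝ) * 1 :=
              mul_le_mul_of_nonneg_left h2 (Nat.cast_nonneg _)
          _ ≤ _ := by rw [mul_one]; exact hcard2
      calc (2 : ℝ) ^ I.card * B ≤ Real.exp (ε / 4 * θ) * B :=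
            mul_le_mul_of_nonneg_right h1 (by linarith)
        _ = Real.exp (ε / 4 * θ + Real.log B) := by
            rw [Real.exp_add, ← hBexp]
        _ < Real.exp θ := Real.exp_lt_exp.2 (num2 hε hθpos hlogB2)
  · -- many primes
    push Not at hcase
    have hθbig : 4 * (2 * L + 2) < ε * θ := by
      have h1 : Real.exp (ε * L) * (4 / ε) < ((M : ℝ) + 1) * θ := by
        have h2 : Real.exp (ε * L) * (4 / ε) < (((M : ℝ) + 1) * I.card) * (4 / ε) :=
          mul_lt_mul_of_pos_right hcase (by positivity)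
        have h3 : (((M : ℝ) + 1) * I.card) * (4 / ε) = ((M : ℝ) + 1) * (I.card * (4 / ε)) := by
          ring
        rw [h3] at h2
        exact lt_of_lt_of_le h2 (mul_le_mul_of_nonneg_left hcard (by positivity))
      have h4 : ((M : ℝ) + 1) * (2 * L + 2) * (4 / ε) < ((M : ℝ) + 1) * θ := by
        refine lt_of_le_of_lt ?_ h1
        apply mul_le_mul_of_nonneg_right _ (by positivity)
        have : ((M : ℝ) + 1) * (2 * L + 2) = 2 * ((M : ℝ) + 1) * L + 2 * ((M : ℝ) + 1) := by ring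
        rw [this]
        exact e3.le
      have h5 : (2 * L + 2) * (4 / ε) < θ := by
        have h6 : ((M : ℝ) + 1) * ((2 * L + 2) * (4 / ε)) < ((M : ℝ) + 1) * θ := by
          rw [← mul_assoc]
          exact h4
        exact lt_of_mul_lt_mul_left h6 (by positivity)
      have h8 : 4 * (2 * L + 2) = ε * ((2 * L + 2) * (4 / ε)) := by
        have := num0 (c := 4 * (2 * L + 2)) hε
        have h9 : ε * ((2 * L + 2) * (4 / ε)) = ε / 4 * ((4 * (2 * L + 2)) * (4 / ε)) := by ring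
        rw [h9]
        exact this
      rw [h8]
      exact mul_lt_mul_of_pos_left h5 hε
    set D := ⌈Real.exp ((1 + ε / 2) * L)⌉₊ with hD
    have hD1 : Real.exp ((1 + ε / 2) * L) ≤ D := Nat.le_ceil _
    have hDexp1 : 1 ≤ Real.exp ((1 + ε / 2) * L) := Real.one_le_exp (by positivity)
    have hD2 : (D : ℝ) < Real.exp ((1 + ε / 2) * L) + 1 := Nat.ceil_lt_add_one (by positivity)
    have hDpos : (0 : ℝ) < D := by linarith
    set H := ⌊Real.exp (X * θ / D)⌋₊ with hH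
    have hH1 : (H : ℝ) ≤ Real.exp (X * θ / D) := Nat.floor_le (Real.exp_pos _).le
    have hH2 : Real.exp (X * θ / D) < (H : ℝ) + 1 := Nat.lt_floor_add_one _
    have hXD : X * θ / D ≤ ε / 8 * θ := by
      rw [div_le_iff₀ hDpos]
      have h1 : (X : ℝ) * Real.exp (ε / 2 * L) ≤ D := by
        refine le_trans (le_of_eq ?_) hD1
        rw [hXexp, ← Real.exp_add]
        congr 1
        ring
      have h2 : 8 / ε ≤ Real.exp (ε / 2 * L) := by
        have : (0 : ℝ) ≤ M := by linarith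
        linarith
      have h3 : (X : ℝ) * (8 / ε) ≤ D := (mul_le_mul_of_nonneg_left h2 hX0.le).trans h1
      have h4 : (X : ℝ) ≤ ε / 8 * D := by
        have h5 : (X : ℝ) = ε / 8 * ((X : ℝ) * (8 / ε)) := by
          have h6 := num0 (c := (X : ℝ)) hε
          have h7 : ε / 8 * ((X : ℝ) * (8 / ε)) = ε / 4 * ((X : ℝ) * (4 / ε)) := by ring
          rw [h7]
          exact h6
        calc (X : ℝ) = ε / 8 * ((X : ℝ) * (8 / ε)) := h5
          _ ≤ _ := mul_le_mul_of_nonneg_left h3 (by positivity)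
      calc (X : ℝ) * θ ≤ (ε / 8 * D) * θ := mul_le_mul_of_nonneg_right h4 hθpos.le
        _ = ε / 8 * θ * D := by ring
    refine finite_stepS hF hS (I := I) (fun ℓ hℓ => (hmem ℓ hℓ).1) (D := D) (H := H) ?_ hM
      (B := B) ?_ ?_
    · -- counting
      have h1 : ((∏ ℓ ∈ I, ℓ ^ ℓ : ℕ) : ℝ) ≤ Real.exp (X * θ) := by
        have h2 : (∏ ℓ ∈ I, ℓ ^ ℓ) ≤ ∏ ℓ ∈ I, ℓ ^ X := by
          apply Finset.prod_le_prod (fun _ _ => Nat.zero_le _)
          intro ℓ hℓ
          exact Nat.pow_le_pow_right (hmem ℓ hℓ).2.2.1 (hmem ℓ hℓ).2.2.2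
        have h3 : ((∏ ℓ ∈ I, ℓ ^ X : ℕ) : ℝ) = Real.exp (X * θ) := by
          push_cast
          rw [Finset.prod_pow, hprod, ← Real.exp_nat_mul]
        rw [← h3]
        exact_mod_cast h2
      have h2 : Real.exp (X * θ) < ((H : ℝ) + 1) ^ D := by
        have h3 : Real.exp (X * θ) = Real.exp (X * θ / D) ^ D := by
          rw [← Real.exp_nat_mul]
          congr 1
          field_simp
        rw [h3]
        apply pow_lt_pow_left₀ hH2 (Real.exp_pos _).le
        have : 0 < D := by exact_mod_cast hDpos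
        omega
      have h3 : ((∏ ℓ ∈ I, ℓ ^ ℓ : ℕ) : ℝ) < (((H + 1) ^ D : ℕ) : ℝ) := by
        push_cast at h1 ⊢
        linarith
      exact_mod_cast h3
    · intro j hj1 hj2
      apply hB j (by omega)
      have h1 : (j : ℝ) ≤ (2 * M + 1) * D + 1 := by exact_mod_cast hj2
      rw [hXpow]
      have h2 : (D : ℝ) ≤ 2 * Real.exp ((1 + ε / 2) * L) := by linarith
      have h3 : (2 * (M : ℝ) + 1) * D + 1 ≤ (4 * M + 4 + 8 / ε) * Real.exp ((1 + ε / 2) * L) :=
        num5 hε (Nat.cast_nonneg _) hDexp1 h2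
      calc (j : ℝ) ≤ (4 * M + 4 + 8 / ε) * Real.exp ((1 + ε / 2) * L) := h1.trans h3
        _ ≤ Real.exp (ε / 2 * L) * Real.exp ((1 + ε / 2) * L) := by
            apply mul_le_mul_of_nonneg_right _ (Real.exp_pos _).le
            linarith
        _ = Real.exp ((1 + ε) * L) := by
            rw [← Real.exp_add]
            congr 1
            ring
    · rw [hprod]
      have h1 : (D : ℝ) + 1 ≤ Real.exp (2 * L + 2) := by
        have h2 : (D : ℝ) + 1 ≤ 3 * Real.exp ((1 + ε / 2) * L) := by linarith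
        have h3 : (3 : ℝ) ≤ Real.exp 2 := by
          have := Real.add_one_le_exp (2 : ℝ)
          linarith
        have h4 : Real.exp ((1 + ε / 2) * L) ≤ Real.exp (2 * L) :=
          Real.exp_le_exp.2 (mul_le_mul_of_nonneg_right (by linarith) hlogX.le)
        calc (D : ℝ) + 1 ≤ 3 * Real.exp ((1 + ε / 2) * L) := h2
          _ ≤ Real.exp 2 * Real.exp (2 * L) := mul_le_mul h3 h4 (Real.exp_pos _).le (Real.exp_pos _).le
          _ = Real.exp (2 * L + 2) := by rw [← Real.exp_add]; congr 1; ring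
      have h5 : (H : ℝ) ≤ Real.exp (ε / 8 * θ) := hH1.trans (Real.exp_le_exp.2 hXD)
      calc ((D : ℝ) + 1) * (H * B) ≤ Real.exp (2 * L + 2) * (Real.exp (ε / 8 * θ) * B) := by
            apply mul_le_mul h1 (mul_le_mul_of_nonneg_right h5 (by linarith)) (by positivity)
              (Real.exp_pos _).le
        _ = Real.exp ((2 * L + 2) + (ε / 8 * θ + Real.log B)) := by
            rw [Real.exp_add (2 * L + 2), Real.exp_add (ε / 8 * θ), ← hBexp]
        _ < Real.exp θ := Real.exp_lt_exp.2 (num3 hε hθpos hlogB2 hθbig)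

theorem main_barrier {F : ArithmeticFunction ℤ} (hF : F.IsMultiplicative) {ε : ℝ} (hε : 0 < ε)
    (hfreq : ∃ᶠ X : ℕ in atTop, Bar F ε X) :
    ∃ d : ℕ, ∀ n : ℕ, 0 < n → F n = (n : ℤ) ^ d := by
  set ε' := min ε 1 with hε'
  have hε'0 : 0 < ε' := lt_min hε one_pos
  have hfreq' : ∃ᶠ X : ℕ in atTop, Bar F ε' X :=
    (hfreq.and_eventually (eventually_ge_atTop 1)).mono
      (fun X hX => Bar.mono hF hε'0 (min_le_left _ _) hX.2 hX.1)
  have hinf : (SF F).Infinite := by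
    apply infinite_of_theta (a := ε') hε'0
    refine (hfreq'.and_eventually (eventually_ge_atTop 1)).mono (fun X hX => ?_)
    obtain ⟨⟨B, hB, hθ⟩, hX1⟩ := hX
    obtain ⟨-, hlog⟩ := log_B_nonneg hF hε'0 hX1 hB
    have : 0 ≤ (1 + ε') * Real.log B := by positivity
    linarith
  exact combine hF hinf (fun M hM => step_of_bar hF hε'0 (min_le_right _ _) hinf hfreq' hM)

/-- polynomial growth -/
theorem main_poly {F : ArithmeticFunction ℤ} (hF : F.IsMultiplicative) {C K ε : ℝ} (hK : 0 ≤ K)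
    (hε : 0 < ε) (hgrow : ∀ n : ℕ, 0 < n → |(F n : ℝ)| ≤ C * (n : ℝ) ^ K)
    (hfreq : ∃ᶠ X : ℕ in atTop, (K + ε) * Real.log X ≤ theta (SF F) X) :
    ∃ d : ℕ, ∀ n : ℕ, 0 < n → F n = (n : ℤ) ^ d := by
  have hC : 1 ≤ C := by
    have := hgrow 1 one_pos
    rw [hF.map_one] at this
    simpa using this
  have hC0 : 0 < C := by linarith
  set δ := min 1 (ε / (2 * (3 * K + 1))) with hδ
  have hδ0 : 0 < δ := lt_min one_pos (by positivity)
  have hδ1 : δ ≤ 1 := min_le_left _ _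
  have hδ2 : δ * (3 * K + 1) ≤ ε / 2 := by
    have : δ ≤ ε / (2 * (3 * K + 1)) := min_le_right _ _
    calc δ * (3 * K + 1) ≤ ε / (2 * (3 * K + 1)) * (3 * K + 1) :=
          mul_le_mul_of_nonneg_right this (by positivity)
      _ = ε / 2 := by field_simp
  refine main_barrier hF hδ0 ?_
  have E1 : ∀ᶠ X : ℕ in atTop, (1 + δ) * Real.log C ≤ ε / 2 * Real.log X :=
    (tendsto_log_nat.const_mul_atTop (show 0 < ε / 2 by positivity)).eventually_ge_atTop _
  refine (hfreq.and_eventually (E1.and (eventually_ge_atTop 2))).mono (fun X hX => ?_)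
  obtain ⟨hθ, e1, e2⟩ := hX
  have hXR : (2 : ℝ) ≤ X := by exact_mod_cast e2
  have hX0 : (0 : ℝ) < X := by linarith
  have hlogX : 0 < Real.log X := Real.log_pos (by linarith)
  refine ⟨C * (X : ℝ) ^ ((1 + δ) * K), fun n hn hnX => ?_, ?_⟩
  · refine (hgrow n hn).trans (mul_le_mul_of_nonneg_left ?_ hC0.le)
    rw [Real.rpow_mul hX0.le]
    exact Real.rpow_le_rpow (Nat.cast_nonneg _) hnX hK
  · rw [Real.log_mul hC0.ne' (Real.rpow_pos_of_pos hX0 _).ne', Real.log_rpow hX0]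
    refine le_trans ?_ hθ
    have h1 : (1 + δ) * ((1 + δ) * K) ≤ (1 + 3 * δ) * K := by
      have : (1 + δ) * (1 + δ) ≤ 1 + 3 * δ := by nlinarith
      calc (1 + δ) * ((1 + δ) * K) = ((1 + δ) * (1 + δ)) * K := by ring
        _ ≤ _ := mul_le_mul_of_nonneg_right this hK
    have h2 : (1 + δ) * ((1 + δ) * K) + δ ≤ K + ε / 2 := by linarith
    have h3 : ((1 + δ) * ((1 + δ) * K) + δ) * Real.log X ≤ (K + ε / 2) * Real.log X :=
      mul_le_mul_of_nonneg_right h2 hlogX.le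
    linarith

/-- a lower bound for `theta` in terms of `cnt` -/
lemma cnt_le_theta (F : ArithmeticFunction ℤ) (X : ℕ) :
    (cnt (SF F) X : ℝ) / 2 ≤ theta (SF F) X := by
  classical
  unfold cnt theta
  rw [div_eq_mul_one_div, ← nsmul_eq_mul]
  apply Finset.card_nsmul_le_sum
  intro ℓ hℓ
  have h1 : ℓ.Prime := (Finset.mem_filter.1 hℓ).2.1
  have h2 : Real.log 2 ≤ Real.log ℓ := Real.log_le_log (by norm_num) (by exact_mod_cast h1.two_le)
  have h3 := Real.log_two_gt_d9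
  linarith

/-- growth `exp (C n ^ b)` -/
theorem main_exp {F : ArithmeticFunction ℤ} (hF : F.IsMultiplicative) {C b ε : ℝ} (hb : 0 ≤ b)
    (hε : 0 < ε) (hgrow : ∀ n : ℕ, 0 < n → |(F n : ℝ)| ≤ Real.exp (C * (n : ℝ) ^ b))
    (hfreq : ∃ᶠ X : ℕ in atTop, (X : ℝ) ^ (b + ε) ≤ (cnt (SF F) X : ℝ)) :
    ∃ d : ℕ, ∀ n : ℕ, 0 < n → F n = (n : ℤ) ^ d := by
  set δ := min 1 (ε / (2 * (b + 1))) with hδ
  have hδ0 : 0 < δ := lt_min one_pos (by positivity)
  have hδ1 : δ ≤ 1 := min_le_left _ _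
  have hδ2 : (1 + δ) * b ≤ b + ε / 2 := by
    have : δ ≤ ε / (2 * (b + 1)) := min_le_right _ _
    have h1 : δ * (b + 1) ≤ ε / 2 := by
      calc δ * (b + 1) ≤ ε / (2 * (b + 1)) * (b + 1) :=
            mul_le_mul_of_nonneg_right this (by positivity)
        _ = ε / 2 := by field_simp
    nlinarith
  refine main_barrier hF hδ0 ?_
  have E1 : ∀ᶠ X : ℕ in atTop, 2 * Real.log X + 4 * (1 + δ) * |C| <
      Real.exp (ε / 2 * Real.log X) :=
    tendsto_log_nat.eventually (eventually_lin (by positivity))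
  refine (hfreq.and_eventually (E1.and (eventually_ge_atTop 2))).mono (fun X hX => ?_)
  obtain ⟨hcnt, e1, e2⟩ := hX
  have hXR : (2 : ℝ) ≤ X := by exact_mod_cast e2
  have hX0 : (0 : ℝ) < X := by linarith
  have hlogX : 0 < Real.log X := Real.log_pos (by linarith)
  have hexp : Real.exp (ε / 2 * Real.log X) = (X : ℝ) ^ (ε / 2) := by
    rw [Real.rpow_def_of_pos hX0, mul_comm]
  set Y := (X : ℝ) ^ (b + ε / 2) with hY
  have hY1 : 1 ≤ Y := Real.one_le_rpow (by linarith) (by positivity)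
  refine ⟨Real.exp (|C| * Y), fun n hn hnX => ?_, ?_⟩
  · refine (hgrow n hn).trans (Real.exp_le_exp.2 ?_)
    have h1 : (n : ℝ) ^ b ≤ Y := by
      calc (n : ℝ) ^ b ≤ ((X : ℝ) ^ (1 + δ)) ^ b := Real.rpow_le_rpow (Nat.cast_nonneg _) hnX hb
        _ = (X : ℝ) ^ ((1 + δ) * b) := by rw [Real.rpow_mul hX0.le]
        _ ≤ Y := Real.rpow_le_rpow_of_exponent_le (by linarith) hδ2
    have h2 : (0 : ℝ) ≤ (n : ℝ) ^ b := Real.rpow_nonneg (Nat.cast_nonneg _) _
    calc C * (n : ℝ) ^ b ≤ |C| * (n : ℝ) ^ b := mul_le_mul_of_nonneg_right (le_abs_self C) h2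
      _ ≤ |C| * Y := mul_le_mul_of_nonneg_left h1 (abs_nonneg C)
  · rw [Real.log_exp]
    refine le_trans ?_ ((div_le_div_of_nonneg_right hcnt (by norm_num)).trans (cnt_le_theta F X))
    have h1 : (X : ℝ) ^ (b + ε) = Y * (X : ℝ) ^ (ε / 2) := by
      rw [hY, ← Real.rpow_add hX0]
      congr 1
      ring
    rw [h1, ← hexp]
    have h2 : Y * (2 * Real.log X + 4 * (1 + δ) * |C|) ≤ Y * Real.exp (ε / 2 * Real.log X) :=
      mul_le_mul_of_nonneg_left e1.le (by linarith)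
    have h3 : 2 * Real.log X ≤ Y * (2 * Real.log X) := by nlinarith
    have h4 : δ * Real.log X ≤ Real.log X := by nlinarith
    have h5 : 0 ≤ (1 + δ) * (|C| * Y) := by positivity
    nlinarith

end Pool.Agent.Lib.MP_c7ee41_nt
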