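import Mathlib

set_option autoImplicit false

/-!
# The auxiliary polynomial

Completely multiplicative functions which are periodic modulo the primes of a set `S`.
-/

namespace Pool.Agent.Lib.MP_c7ee41_nt

open MvPolynomial

/-- completely multiplicative functions from the positive integers to the positive integers -/
structure CM (h : ℕ → ℕ) : Prop where
  one : h 1 = 1
  mul : ∀ m n, 0 < m → 0 < n → h (m * n) = h m * h n
  pos : ∀ n, 0 < n → 0 < h n

/-- periodicity modulo the elements of `S` -/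
def Per (S : Set ℕ) (h : ℕ → ℕ) : Prop :=
  ∀ ℓ ∈ S, ∀ m n, 0 < m → 0 < n → m ≡ n [MOD ℓ] → h m ≡ h n [MOD ℓ]

lemma CM.id : CM (fun n => n) := ⟨rfl, fun _ _ _ _ => rfl, fun _ h => h⟩

lemma Per.id (S : Set ℕ) : Per S (fun n => n) := fun _ _ _ _ _ _ h => h

lemma CM.comp {g h : ℕ → ℕ} (hg : CM g) (hh : CM h) : CM (fun n => g (h n)) where
  one := by rw [hh.one, hg.one]
  mul m n hm hn := by rw [hh.mul m n hm hn, hg.mul _ _ (hh.pos m hm) (hh.pos n hn)]
  pos n hn := hg.pos _ (hh.pos n hn)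

lemma Per.comp {S : Set ℕ} {g h : ℕ → ℕ} (hg : Per S g) (hh : Per S h) (hc : CM h) :
    Per S (fun n => g (h n)) :=
  fun ℓ hℓ m n hm hn hmn => hg ℓ hℓ _ _ (hc.pos m hm) (hc.pos n hn) (hh ℓ hℓ m n hm hn hmn)

lemma CM.pow {h : ℕ → ℕ} (hh : CM h) {n : ℕ} (hn : 0 < n) (k : ℕ) : h (n ^ k) = h n ^ k := by
  induction k with
  | zero => simp [hh.one]
  | succ k ih => rw [pow_succ, hh.mul _ _ (pow_pos hn k) hn, ih, pow_succ]

lemma CM.prod {h : ℕ → ℕ} (hh : CM h) {ι : Type*} (s : Finset ι) (f : ι → ℕ)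
    (hf : ∀ i ∈ s, 0 < f i) : h (∏ i ∈ s, f i) = ∏ i ∈ s, h (f i) := by
  classical
  induction s using Finset.induction_on with
  | empty => simp [hh.one]
  | insert a s ha ih =>
    rw [Finset.prod_insert ha, Finset.prod_insert ha, hh.mul _ _ (hf a (Finset.mem_insert_self _ _))
      (Finset.prod_pos fun i hi => hf i (Finset.mem_insert_of_mem hi)),
      ih fun i hi => hf i (Finset.mem_insert_of_mem hi)]

/-- The auxiliary polynomial. -/
theorem exists_aux {D : ℕ} {S : Set ℕ} (h : Fin D → ℕ → ℕ)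
    (hCM : ∀ j, CM (h j)) (hPer : ∀ j, Per S (h j)) (I : Finset ℕ) (hI : ∀ ℓ ∈ I, ℓ ∈ S)
    (hprime : ∀ ℓ ∈ I, ℓ.Prime) (hne : I.Nonempty) (X T : ℕ) (hX : ∀ ℓ ∈ I, ℓ ≤ X)
    (hT : 4 * X ≤ T ^ D) :
    ∃ Q : MvPolynomial (Fin D) ℚ, Q ≠ 0 ∧ Q.totalDegree ≤ D * T ∧
      ∀ n : ℕ, 0 < n → (∀ ℓ ∈ I, ¬ ℓ ∣ n) →
        (T ^ D * (∏ j, h j n) ^ T) ^ 2 ≤ ∏ ℓ ∈ I, ℓ →
        eval (fun j => (h j n : ℚ)) Q = 0 := by
  classical
  set Pr := ∏ ℓ ∈ I, ℓ with hPr
  have hPr2 : 2 ≤ Pr := by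
    obtain ⟨ℓ, hℓ⟩ := hne
    have h1 : ℓ ∣ Pr := Finset.dvd_prod_of_mem _ hℓ
    have h2 : 0 < Pr := Finset.prod_pos fun ℓ hℓ => (hprime ℓ hℓ).pos
    exact (hprime ℓ hℓ).two_le.trans (Nat.le_of_dvd h2 h1)
  set H := Nat.sqrt (Nat.sqrt Pr) with hH
  have hH1 : H ^ 4 ≤ Pr := by
    have h1 : H * H ≤ Nat.sqrt Pr := Nat.sqrt_le _
    have h2 : Nat.sqrt Pr * Nat.sqrt Pr ≤ Pr := Nat.sqrt_le _
    calc H ^ 4 = (H * H) * (H * H) := by ring
      _ ≤ Nat.sqrt Pr * Nat.sqrt Pr := Nat.mul_le_mul h1 h1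
      _ ≤ Pr := h2
  have hH2 : Pr < (H + 1) ^ 4 := by
    have h1 : Nat.sqrt Pr < (H + 1) * (H + 1) := Nat.lt_succ_sqrt _
    have h2 : Pr < (Nat.sqrt Pr + 1) * (Nat.sqrt Pr + 1) := Nat.lt_succ_sqrt _
    calc Pr < (Nat.sqrt Pr + 1) * (Nat.sqrt Pr + 1) := h2
      _ ≤ ((H + 1) * (H + 1)) * ((H + 1) * (H + 1)) := Nat.mul_le_mul h1 h1
      _ = (H + 1) ^ 4 := by ring
  have hXpos : 0 < X := by
    obtain ⟨ℓ, hℓ⟩ := hne
    exact (hprime ℓ hℓ).pos.trans_le (hX ℓ hℓ)
  -- the index set of the conditions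
  set J : Finset (Σ _ : ℕ, ℕ) := I.sigma (fun ℓ => Finset.Ico 1 ℓ) with hJ
  let val : ((Fin D → Fin T) → Fin (H + 1)) → ℕ → ℕ :=
    fun q n => ∑ e, (q e : ℕ) * ∏ j, h j n ^ (e j : ℕ)
  let Φ : ((Fin D → Fin T) → Fin (H + 1)) → (J → ℕ) := fun q x => val q x.1.2 % x.1.1
  set t := Fintype.piFinset (fun x : J => Finset.range x.1.1) with ht
  have hcardt : t.card ≤ Pr ^ X := by
    rw [ht, Fintype.card_piFinset]
    simp only [Finset.card_range]
    rw [Finset.prod_coe_sort J (fun x => x.1), hJ, Finset.prod_sigma, hPr, ← Finset.prod_pow]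
    apply Finset.prod_le_prod (fun _ _ => Nat.zero_le _)
    intro ℓ hℓ
    rw [Finset.prod_const, Nat.card_Ico]
    exact Nat.pow_le_pow_right (hprime ℓ hℓ).pos (by have := hX ℓ hℓ; omega)
  have hlt : t.card < (Finset.univ : Finset ((Fin D → Fin T) → Fin (H + 1))).card := by
    rw [Finset.card_univ, Fintype.card_fun, Fintype.card_fun, Fintype.card_fin, Fintype.card_fin,
      Fintype.card_fin]
    calc t.card ≤ Pr ^ X := hcardt
      _ < ((H + 1) ^ 4) ^ X := Nat.pow_lt_pow_left hH2 hXpos.ne'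
      _ = (H + 1) ^ (4 * X) := by rw [← pow_mul]
      _ ≤ (H + 1) ^ (T ^ D) := Nat.pow_le_pow_right (Nat.succ_pos _) hT
  obtain ⟨q, -, q', -, hqq, hΦ⟩ := Finset.exists_ne_map_eq_of_card_lt_of_maps_to hlt
    (f := Φ) (by
      intro q _
      rw [ht, Finset.mem_coe, Fintype.mem_piFinset]
      intro x
      rw [Finset.mem_range]
      have hx := Finset.mem_sigma.1 x.2
      exact Nat.mod_lt _ (hprime _ hx.1).pos)
  let z : (Fin D → Fin T) → ℤ := fun e => (q e : ℤ) - (q' e : ℤ)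
  have hz : ∀ e, |z e| ≤ H := by
    intro e
    have h1 := (q e).2
    have h2 := (q' e).2
    rw [abs_le]
    constructor <;> simp only [z] <;> omega
  obtain ⟨e₀, he₀⟩ : ∃ e, z e ≠ 0 := by
    by_contra hcon
    push Not at hcon
    apply hqq
    ext e
    have := hcon e
    simp only [z] at this
    omega
  let mon : (Fin D → Fin T) → (Fin D →₀ ℕ) := fun e =>
    Finsupp.equivFunOnFinite.symm (fun j => (e j : ℕ))
  have hmon : Function.Injective mon := by
    intro e e' h1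
    have h2 := Finsupp.equivFunOnFinite.symm.injective h1
    ext j
    exact congrFun h2 j
  refine ⟨∑ e, monomial (mon e) (z e : ℚ), ?_, ?_, ?_⟩
  · intro h0
    have h1 := congrArg (coeff (mon e₀)) h0
    rw [coeff_sum, coeff_zero, Finset.sum_eq_single e₀] at h1
    · rw [coeff_monomial, if_pos rfl] at h1
      exact he₀ (by exact_mod_cast h1)
    · intro e _ hne'
      rw [coeff_monomial, if_neg (fun h => hne' (hmon h))]
    · intro h; exact absurd (Finset.mem_univ _) h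
  · apply totalDegree_finsetSum_le
    intro e _
    refine (totalDegree_monomial_le _ _).trans ?_
    rw [Finsupp.sum_fintype _ _ (fun _ => rfl)]
    calc ∑ j, mon e j ≤ ∑ _j : Fin D, T := Finset.sum_le_sum fun j _ => (e j).2.le
      _ = D * T := by simp
  · intro n hn hnd hbound
    -- the value is an integer
    set V : ℤ := ∑ e, z e * ∏ j, (h j n : ℤ) ^ (e j : ℕ) with hV
    have hval : eval (fun j => (h j n : ℚ)) (∑ e, monomial (mon e) (z e : ℚ)) = (V : ℚ) := by
      rw [map_sum, hV]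
      push_cast
      apply Finset.sum_congr rfl
      intro e _
      rw [eval_monomial, Finsupp.prod_fintype _ _ (fun _ => pow_zero _)]
      rfl
    have hdvd : ∀ ℓ ∈ I, (ℓ : ℤ) ∣ V := by
      intro ℓ hℓ
      have hp := hprime ℓ hℓ
      set a := n % ℓ with ha
      have ha1 : 1 ≤ a := by
        rw [ha]
        have : n % ℓ ≠ 0 := fun h0 => hnd ℓ hℓ (Nat.dvd_of_mod_eq_zero h0)
        omega
      have ha2 : a < ℓ := Nat.mod_lt _ hp.pos
      have hmem : (⟨ℓ, a⟩ : Σ _ : ℕ, ℕ) ∈ J := by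
        rw [hJ, Finset.mem_sigma]
        exact ⟨hℓ, Finset.mem_Ico.2 ⟨ha1, ha2⟩⟩
      have h1 := congrFun hΦ ⟨_, hmem⟩
      have h2 : val q a ≡ val q' a [MOD ℓ] := h1
      have h3 : ((val q a : ℕ) : ℤ) - (val q' a : ℕ) ≡ V [ZMOD ℓ] := by
        have h4 : ((val q a : ℕ) : ℤ) - (val q' a : ℕ) =
            ∑ e, z e * ∏ j, (h j a : ℤ) ^ (e j : ℕ) := by
          simp only [val, z]
          push_cast
          rw [← Finset.sum_sub_distrib]
          apply Finset.sum_congr rfl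
          intro e _
          ring
        rw [h4, hV]
        apply Int.ModEq.sum
        intro e _
        apply Int.ModEq.mul_left
        apply Int.ModEq.prod
        intro j _
        apply Int.ModEq.pow
        have h5 : a ≡ n [MOD ℓ] := Nat.mod_modEq _ _
        exact Int.natCast_modEq_iff.2 (hPer j ℓ (hI ℓ hℓ) a n (by omega) hn h5)
      have h6 : (0 : ℤ) ≡ ((val q a : ℕ) : ℤ) - (val q' a : ℕ) [ZMOD ℓ] := by
        have h7 := Int.natCast_modEq_iff.2 h2
        have h8 := h7.sub_right ((val q' a : ℕ) : ℤ)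
        rw [sub_self] at h8
        exact h8.symm
      have h9 := h6.trans h3
      exact (Int.modEq_zero_iff_dvd).1 h9.symm
    have hPrdvd : (Pr : ℤ) ∣ V := by
      have h1 : (Pr : ℤ) = ∏ ℓ ∈ I, (ℓ : ℤ) := by rw [hPr]; push_cast; rfl
      rw [h1]
      apply Finset.prod_dvd_of_coprime
      · intro ℓ hℓ ℓ' hℓ' hne'
        have := (Nat.coprime_primes (hprime ℓ hℓ) (hprime ℓ' hℓ')).2 hne'
        exact Nat.isCoprime_iff_coprime.2 this
      · exact hdvd
    have hB : |V| ≤ T ^ D * H * (∏ j, h j n) ^ T := by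
      calc |V| ≤ ∑ e, |z e * ∏ j, (h j n : ℤ) ^ (e j : ℕ)| := Finset.abs_sum_le_sum_abs _ _
        _ ≤ ∑ e : Fin D → Fin T, (H : ℤ) * (∏ j, h j n : ℕ) ^ T := by
          apply Finset.sum_le_sum
          intro e _
          rw [abs_mul]
          apply mul_le_mul (hz e) _ (abs_nonneg _) (by positivity)
          rw [Finset.abs_prod]
          push_cast
          rw [← Finset.prod_pow]
          apply Finset.prod_le_prod (fun _ _ => abs_nonneg _)
          intro j _
          rw [abs_pow, Nat.abs_cast]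
          apply pow_le_pow_right₀
          · exact_mod_cast (hCM j).pos n hn
          · exact (e j).2.le
        _ = T ^ D * H * (∏ j, h j n) ^ T := by
          rw [Finset.sum_const, Finset.card_univ, Fintype.card_fun, Fintype.card_fin,
            Fintype.card_fin]
          push_cast
          rw [nsmul_eq_mul]
          push_cast
          ring
    have hlt' : T ^ D * H * (∏ j, h j n) ^ T < Pr := by
      have h1 : (T ^ D * H * (∏ j, h j n) ^ T) ^ 4 < Pr ^ 4 := by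
        calc (T ^ D * H * (∏ j, h j n) ^ T) ^ 4
            = ((T ^ D * (∏ j, h j n) ^ T) ^ 2) ^ 2 * H ^ 4 := by ring
          _ ≤ Pr ^ 2 * Pr := Nat.mul_le_mul (Nat.pow_le_pow_left hbound 2) hH1
          _ < Pr ^ 4 := by
            have h2 : Pr ^ 4 = Pr ^ 2 * Pr * Pr := by ring
            rw [h2]
            have h3 : 0 < Pr ^ 2 * Pr := by positivity
            nlinarith
      exact lt_of_pow_lt_pow_left₀ 4 (Nat.zero_le _) h1
    have hV0 : V = 0 := by
      apply Int.eq_zero_of_abs_lt_dvd hPrdvd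
      refine lt_of_le_of_lt hB ?_
      exact_mod_cast hlt'
    rw [hval, hV0]
    simp

end Pool.Agent.Lib.MP_c7ee41_nt
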