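import Mathlib
import Pool.Agent.Lib.MP_c7ee41_nt.Siegel

set_option autoImplicit false

/-!
# The homomorphism `x ↦ G x / x ^ K` on `(ZMod ℓ)ˣ`
-/

namespace Pool.Agent.Lib.MP_c7ee41_nt

variable {S : Set ℕ} {G : ℕ → ℕ}

lemma modEq_iff_cast {ℓ m n : ℕ} : m ≡ n [MOD ℓ] ↔ (m : ZMod ℓ) = n :=
  (ZMod.natCast_eq_natCast_iff m n ℓ).symm

lemma coprime_G (hG : CM G) (hPer : Per S G) {ℓ : ℕ} (hℓS : ℓ ∈ S) (hℓ : ℓ.Prime) {n : ℕ}
    (hn : 0 < n) (hc : Nat.Coprime n ℓ) : Nat.Coprime (G n) ℓ := by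
  obtain ⟨m, hm⟩ := Nat.exists_mul_mod_eq_one_of_coprime hc hℓ.one_lt
  have hm0 : 0 < m := by
    rcases Nat.eq_zero_or_pos m with h0 | h0
    · rw [h0] at hm; simp at hm
    · exact h0
  have h1 : n * m ≡ 1 [MOD ℓ] := by
    unfold Nat.ModEq
    rw [hm.2, Nat.mod_eq_of_lt hℓ.one_lt]
  have h2 := hPer ℓ hℓS _ _ (Nat.mul_pos hn hm0) one_pos h1
  rw [hG.mul _ _ hn hm0, hG.one] at h2
  rw [Nat.coprime_comm, Nat.Prime.coprime_iff_not_dvd hℓ]
  intro hd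
  have h3 : ℓ ∣ G n * G m := Dvd.dvd.mul_right hd _
  have h4 := (Nat.modEq_zero_iff_dvd.2 h3).symm.trans h2
  have h5 : ℓ ∣ 1 := Nat.modEq_zero_iff_dvd.1 h4.symm
  exact hℓ.one_lt.ne' (Nat.dvd_one.1 h5)

section hom

variable (hG : CM G) (hPer : Per S G) {ℓ : ℕ} [hℓ : Fact ℓ.Prime] (hℓS : ℓ ∈ S)

lemma val_pos (x : (ZMod ℓ)ˣ) : 0 < (x : ZMod ℓ).val := by
  rw [ZMod.val_pos]
  exact x.ne_zero

lemma val_cop (x : (ZMod ℓ)ˣ) : Nat.Coprime (x : ZMod ℓ).val ℓ := ZMod.val_coe_unit_coprime x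

/-- the homomorphism induced by `G` on the units modulo `ℓ` -/
noncomputable def Gh : (ZMod ℓ)ˣ →* (ZMod ℓ)ˣ where
  toFun x := ZMod.unitOfCoprime (G (x : ZMod ℓ).val)
    (coprime_G hG hPer hℓS hℓ.out (val_pos x) (val_cop x))
  map_one' := by
    ext
    rw [ZMod.coe_unitOfCoprime, Units.val_one, ZMod.val_one, hG.one]
    simp
  map_mul' x y := by
    ext
    rw [ZMod.coe_unitOfCoprime, Units.val_mul, Units.val_mul, ZMod.coe_unitOfCoprime,
      ZMod.coe_unitOfCoprime, ← Nat.cast_mul, ← hG.mul _ _ (val_pos x) (val_pos y)]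
    apply modEq_iff_cast.1
    apply hPer ℓ hℓS
    · have := val_pos (x * y)
      rwa [Units.val_mul] at this
    · exact Nat.mul_pos (val_pos x) (val_pos y)
    · rw [ZMod.val_mul]
      exact Nat.mod_modEq _ _

lemma Gh_unit {n : ℕ} (hn : 0 < n) (hc : Nat.Coprime n ℓ) :
    ((Gh hG hPer hℓS (ZMod.unitOfCoprime n hc) : (ZMod ℓ)ˣ) : ZMod ℓ) = G n := by
  change ((G ((ZMod.unitOfCoprime n hc : (ZMod ℓ)ˣ) : ZMod ℓ).val : ℕ) : ZMod ℓ) = G n
  apply modEq_iff_cast.1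
  apply hPer ℓ hℓS _ _ (val_pos _) hn
  rw [ZMod.coe_unitOfCoprime, ZMod.val_natCast]
  exact Nat.mod_modEq _ _

/-- `x ↦ G x / x ^ K` -/
noncomputable def psi (K : ℕ) : (ZMod ℓ)ˣ →* (ZMod ℓ)ˣ := Gh hG hPer hℓS / powMonoidHom K

lemma psi_apply (K : ℕ) (x : (ZMod ℓ)ˣ) : psi hG hPer hℓS K x = Gh hG hPer hℓS x / x ^ K := rfl

lemma psi_unit_pow (K : ℕ) {n : ℕ} (hn : 0 < n) (hc : Nat.Coprime n ℓ) (e : ℕ) :
    psi hG hPer hℓS K (ZMod.unitOfCoprime n hc) ^ e = 1 ↔ (G n) ^ e ≡ n ^ (K * e) [MOD ℓ] := by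
  rw [psi_apply, div_pow, div_eq_one, modEq_iff_cast, Units.ext_iff]
  push_cast
  rw [Gh_unit hG hPer hℓS hn hc, ZMod.coe_unitOfCoprime, pow_mul]

end hom

/-- all the elementary information about the homomorphism `G x / x ^ K` modulo `ℓ` -/
theorem exists_Dm (hG : CM G) (hPer : Per S G) (K : ℕ) {ℓ : ℕ} (hℓS : ℓ ∈ S) (hℓ : ℓ.Prime) :
    ∃ D m : ℕ, 0 < D ∧ D * m = ℓ - 1 ∧
      (D = 1 → ∀ n, 0 < n → Nat.Coprime n ℓ → G n ≡ n ^ K [MOD ℓ]) ∧
      (∀ q, q.Prime → q ∣ D → ∃ n, 0 < n ∧ Nat.Coprime n ℓ ∧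
        ∀ e, (G n) ^ e ≡ n ^ (K * e) [MOD ℓ] → q ∣ e) ∧
      (∀ (k M : ℕ) (a b : Fin k → ℕ), (∀ i, 0 < a i) → (∀ i, 0 < b i) →
        (∀ i, Nat.Coprime (a i) ℓ) → (∀ i, Nat.Coprime (b i) ℓ) →
        (∀ i, G (a i) * b i ^ K = G (b i) * a i ^ K) → m < M ^ k →
        ∃ γ : Fin k → ℤ, γ ≠ 0 ∧ (∀ i, -(M : ℤ) ≤ γ i ∧ γ i ≤ M) ∧
          (∏ i, a i ^ (γ i).toNat * b i ^ (-γ i).toNat) ≡
            (∏ i, a i ^ (-γ i).toNat * b i ^ (γ i).toNat) [MOD ℓ]) := by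
  classical
  have hF : Fact ℓ.Prime := ⟨hℓ⟩
  set ψ := psi hG hPer hℓS K with hψ
  refine ⟨Nat.card ψ.range, Nat.card ψ.ker, Nat.card_pos, ?_, ?_, ?_, ?_⟩
  · rw [← Subgroup.index_ker, mul_comm, Subgroup.card_mul_index, Nat.card_eq_fintype_card,
      ZMod.card_units]
  · intro hD n hn hc
    have h1 : ψ.range = ⊥ := Subgroup.card_eq_one.1 hD
    have h2 : ψ (ZMod.unitOfCoprime n hc) = 1 := by
      have : ψ (ZMod.unitOfCoprime n hc) ∈ ψ.range := ⟨_, rfl⟩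
      rw [h1] at this
      exact Subgroup.mem_bot.1 this
    have h3 := (psi_unit_pow hG hPer hℓS K hn hc 1).1 (by rw [pow_one]; exact h2)
    simpa using h3
  · intro q hq hqD
    have : Fact q.Prime := ⟨hq⟩
    obtain ⟨y, hy⟩ := exists_prime_orderOf_dvd_card' q hqD
    obtain ⟨⟨_, x, rfl⟩, hy'⟩ : ∃ z : ψ.range, z = y := ⟨y, rfl⟩
    refine ⟨(x : ZMod ℓ).val, val_pos x, val_cop x, fun e he => ?_⟩
    have h1 := (psi_unit_pow hG hPer hℓS K (val_pos x) (val_cop x) e).2 he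
    have h2 : ZMod.unitOfCoprime (x : ZMod ℓ).val (val_cop x) = x := by
      ext
      rw [ZMod.coe_unitOfCoprime, ZMod.natCast_zmod_val]
    rw [h2] at h1
    rw [← hy]
    apply orderOf_dvd_of_pow_eq_one
    rw [← hy']
    ext1
    exact h1
  · intro k M a b ha hb hac hbc hab hm
    set y : Fin k → (ZMod ℓ)ˣ := fun i =>
      ZMod.unitOfCoprime (a i) (hac i) / ZMod.unitOfCoprime (b i) (hbc i) with hy
    have hyker : ∀ i, y i ∈ ψ.ker := by
      intro i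
      rw [MonoidHom.mem_ker, hy, map_div, hψ, psi_apply, psi_apply, div_eq_one, div_eq_div_iff_mul_eq_mul]
      ext
      push_cast
      rw [Gh_unit hG hPer hℓS (ha i) (hac i), Gh_unit hG hPer hℓS (hb i) (hbc i),
        ZMod.coe_unitOfCoprime, ZMod.coe_unitOfCoprime]
      have := congrArg (Nat.cast : ℕ → ZMod ℓ) (hab i)
      push_cast at this
      rw [this]
    have hfin : Finite ψ.ker := inferInstance
    have := Fintype.ofFinite ψ.ker
    let Φ : (Fin k → Fin M) → ψ.ker := fun β =>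
      ⟨∏ i, y i ^ (β i : ℕ), Subgroup.prod_mem _ fun i _ => Subgroup.pow_mem _ (hyker i) _⟩
    obtain ⟨β, β', hne, hΦ⟩ := Fintype.exists_ne_map_eq_of_card_lt Φ (by
      rw [Fintype.card_fun, Fintype.card_fin, Fintype.card_fin, ← Nat.card_eq_fintype_card]
      exact hm)
    have hΦ' : ∏ i, y i ^ (β i : ℕ) = ∏ i, y i ^ (β' i : ℕ) := congrArg Subtype.val hΦ
    refine ⟨fun i => (β i : ℤ) - β' i, ?_, ?_, ?_⟩
    · intro h0
      apply hne
      ext i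
      have := congrFun h0 i
      simp only [Pi.zero_apply] at this
      omega
    · intro i
      have h1 := (β i).2
      have h2 := (β' i).2
      beta_reduce
      constructor <;> omega
    · have h1 : ∏ i, y i ^ ((β i : ℤ) - β' i) = 1 := by
        have : ∀ i, y i ^ ((β i : ℤ) - β' i) = y i ^ (β i : ℕ) / y i ^ (β' i : ℕ) := by
          intro i
          rw [zpow_sub, zpow_natCast, zpow_natCast, div_eq_mul_inv]
        rw [Finset.prod_congr rfl fun i _ => this i, Finset.prod_div_distrib, hΦ', div_self']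
      have h2 : ∀ (x z : (ZMod ℓ)ˣ) (g : ℤ), (x / z) ^ g =
          (x ^ g.toNat * z ^ (-g).toNat) / (x ^ (-g).toNat * z ^ g.toNat) := by
        intro x z g
        rcases le_total 0 g with h | h
        · obtain ⟨n, rfl⟩ := Int.eq_ofNat_of_zero_le h
          have e1 : (-(n : ℤ)).toNat = 0 := by omega
          have e2 : ((n : ℤ)).toNat = n := by omega
          rw [e1, e2, zpow_natCast, div_pow, pow_zero, pow_zero, mul_one, one_mul]
        · obtain ⟨n, hn⟩ := Int.eq_ofNat_of_zero_le (show 0 ≤ -g by omega)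
          have hg : g = -(n : ℤ) := by omega
          have e1 : (-g).toNat = n := by omega
          have e2 : g.toNat = 0 := by omega
          rw [e1, e2, hg, zpow_neg, zpow_natCast, div_pow, pow_zero, pow_zero, mul_one, one_mul,
            inv_div]
      simp only [hy, h2] at h1
      rw [Finset.prod_div_distrib, div_eq_one, Units.ext_iff] at h1
      rw [modEq_iff_cast]
      push_cast at h1 ⊢
      exact h1

end Pool.Agent.Lib.MP_c7ee41_nt
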