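import Mathlib

set_option autoImplicit false

/-!
# A zero estimate on a torus

If a nonzero polynomial of small degree vanishes at many points `∏ i, c i ^ b i` (`b` in a box of
`ℤ ^ r`) of a torus, then many points of the box lie in the kernel of a fixed nontrivial character.
-/

namespace Pool.Agent.Lib.MP_c7ee41_nt

open MvPolynomial

section translate

variable {σ : Type*}

/-- translation of a polynomial by a point of the torus -/
noncomputable def tr (t : σ → ℚ) : MvPolynomial σ ℚ →ₐ[ℚ] MvPolynomial σ ℚ :=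
  aeval (fun j => C (t j) * X j)

lemma eval_tr (t z : σ → ℚ) (P : MvPolynomial σ ℚ) :
    eval z (tr t P) = eval (fun j => t j * z j) P := by
  induction P using MvPolynomial.induction_on with
  | C a => simp [tr]
  | add p q hp hq => rw [map_add, map_add, map_add, hp, hq]
  | mul_X p i hp =>
    rw [map_mul, map_mul, map_mul, hp]
    congr 1
    simp [tr]

lemma coeff_tr (t : σ → ℚ) (P : MvPolynomial σ ℚ) (m : σ →₀ ℕ) :
    coeff m (tr t P) = (m.prod fun j e => t j ^ e) * coeff m P := by
  classical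
  induction P using MvPolynomial.induction_on' with
  | monomial u a =>
    have h1 : tr t (monomial u a) = monomial u ((u.prod fun j e => t j ^ e) * a) := by
      unfold tr
      rw [aeval_monomial]
      have h2 : (u.prod fun j e => (C (t j) * X j : MvPolynomial σ ℚ) ^ e) =
          C (u.prod fun j e => t j ^ e) * monomial u 1 := by
        rw [monomial_eq (s := u) (a := (1 : ℚ)), C_1, one_mul]
        unfold Finsupp.prod
        rw [map_prod, ← Finset.prod_mul_distrib]
        apply Finset.prod_congr rfl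
        intro j _
        simp only [mul_pow, map_pow]
      rw [h2, algebraMap_eq, ← mul_assoc, ← C_mul, C_mul_monomial, mul_one, mul_comm a]
    rw [h1, coeff_monomial, coeff_monomial]
    split_ifs with h
    · rw [h]
    · simp
  | add p q hp hq => rw [map_add, coeff_add, coeff_add, hp, hq]; ring

lemma totalDegree_tr_le (t : σ → ℚ) (P : MvPolynomial σ ℚ) :
    (tr t P).totalDegree ≤ P.totalDegree := by
  unfold totalDegree
  apply Finset.sup_mono
  intro m hm
  rw [mem_support_iff] at hm ⊢
  intro h0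
  apply hm
  rw [coeff_tr, h0, mul_zero]

end translate

section resultant

open Polynomial in
/-- the resultant of a prime polynomial and a polynomial which it does not divide is nonzero -/
lemma resultant_ne_zero_of_prime {A : Type*} [CommRing A] [IsDomain A] {f g : A[X]}
    (hf : Prime f) (hfg : ¬ f ∣ g) (_hd : f.natDegree ≠ 0) : f.resultant g ≠ 0 := by
  intro h0
  unfold Polynomial.resultant at h0
  obtain ⟨v, hv, hv0⟩ := Matrix.exists_mulVec_eq_zero_iff.2 h0
  set b₁ := ((degreeLT.basis A f.natDegree).prod (degreeLT.basis A g.natDegree)).reindex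
    finSumFinEquiv with hb1
  set b₂ := degreeLT.basis A (f.natDegree + g.natDegree) with hb2
  have hM := toMatrix_sylvesterMap' f g le_rfl le_rfl
  set x := b₁.equivFun.symm v with hx
  have hx0 : x ≠ 0 := by
    intro h
    apply hv
    have := (LinearEquiv.symm_apply_eq _).1 (hx.symm.trans h)
    rw [this, map_zero]
  have h1 : sylvesterMap f g le_rfl le_rfl x = 0 := by
    have h2 : b₂.repr (sylvesterMap f g le_rfl le_rfl x) = 0 := by
      have h3 := LinearMap.toMatrix_mulVec_repr b₁ b₂ (sylvesterMap f g le_rfl le_rfl) x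
      rw [hM] at h3
      have h4 : (b₁.repr x : Fin (f.natDegree + g.natDegree) → A) = v := by
        have := b₁.equivFun.apply_symm_apply v
        rw [← hx] at this
        rw [← this]
        rfl
      rw [h4, hv0] at h3
      ext i
      have := congrFun h3 i
      simpa using this.symm
    exact (LinearEquiv.map_eq_zero_iff _).1 h2
  have h2 : f * (x.2 : A[X]) + g * (x.1 : A[X]) = 0 := by
    have := congrArg Subtype.val h1
    simpa [sylvesterMap] using this
  have hdeg1 := x.1.2
  rw [Polynomial.mem_degreeLT] at hdeg1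
  have h3 : f ∣ g * (x.1 : A[X]) := by
    refine ⟨-(x.2 : A[X]), ?_⟩
    linear_combination h2
  rcases hf.2.2 _ _ h3 with h4 | h4
  · exact hfg h4
  · have h5 : (x.1 : A[X]) = 0 := by
      by_contra hne
      have h6 := Polynomial.degree_le_of_dvd h4 hne
      rw [Polynomial.degree_eq_natDegree hf.1] at h6
      exact absurd hdeg1 (not_lt.2 h6)
    rw [h5, mul_zero, add_zero] at h2
    have h6 : (x.2 : A[X]) = 0 := by
      rcases mul_eq_zero.1 h2 with h7 | h7
      · exact absurd h7 hf.1
      · exact h7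
    apply hx0
    ext1
    · exact Subtype.ext h5
    · exact Subtype.ext h6

/-- degree bound for the resultant -/
lemma totalDegree_resultant_le {σ : Type*} {f g : Polynomial (MvPolynomial σ ℚ)} {T : ℕ}
    (hf : ∀ i, (f.coeff i).totalDegree ≤ T) (hg : ∀ i, (g.coeff i).totalDegree ≤ T) (m n : ℕ) :
    (f.resultant g m n).totalDegree ≤ (m + n) * T := by
  classical
  unfold Polynomial.resultant
  rw [Matrix.det_apply]
  apply totalDegree_finsetSum_le
  intro s _
  have h1 : (∏ i, (Polynomial.sylvester f g m n) (s i) i).totalDegree ≤ (m + n) * T := by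
    refine (totalDegree_finsetProd _ _).trans ?_
    have h2 : ∀ i : Fin (m + n), ((Polynomial.sylvester f g m n) (s i) i).totalDegree ≤ T := by
      intro i
      induction i using Fin.addCases with
      | left j =>
        simp only [Polynomial.sylvester, Matrix.of_apply, Fin.addCases_left]
        split_ifs
        · exact hg _
        · simp
      | right j =>
        simp only [Polynomial.sylvester, Matrix.of_apply, Fin.addCases_right]
        split_ifs
        · exact hf _
        · simp
    refine (Finset.sum_le_sum fun i _ => h2 i).trans ?_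
    simp
  rcases Int.units_eq_one_or (Equiv.Perm.sign s) with h | h
  · rw [h, one_smul]; exact h1
  · rw [h, Units.neg_smul, one_smul, totalDegree_neg]; exact h1

end resultant

section factor

lemma one_le_totalDegree_of_not_unit {σ : Type*} {P : MvPolynomial σ ℚ} (h0 : P ≠ 0)
    (hu : ¬ IsUnit P) : 1 ≤ P.totalDegree := by
  by_contra h
  have h1 : P.totalDegree = 0 := by omega
  rw [totalDegree_eq_zero_iff_eq_C] at h1
  apply hu
  rw [h1]
  have h2 : coeff 0 P ≠ 0 := by
    intro h3
    rw [h3, C_0] at h1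
    exact h0 h1
  exact (isUnit_iff_ne_zero.2 h2).map (C : ℚ →+* MvPolynomial σ ℚ)

lemma exists_irreducible_aux {σ α : Type*} (ev : α → σ → ℚ) (Z : Finset α)
    (T : ℕ) : ∀ (n : ℕ) (P : MvPolynomial σ ℚ), P ≠ 0 → 1 ≤ P.totalDegree → P.totalDegree ≤ n →
      P.totalDegree * Z.card ≤ T * {a ∈ Z | eval (ev a) P = 0}.card →
      ∃ P' : MvPolynomial σ ℚ, Irreducible P' ∧ P'.totalDegree ≤ n ∧
        P'.totalDegree * Z.card ≤ T * {a ∈ Z | eval (ev a) P' = 0}.card := by
  classical
  intro n
  induction n with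
  | zero => intro P _ h1 h2; omega
  | succ n ih =>
    intro P h0 h1 hn hcard
    by_cases hirr : Irreducible P
    · exact ⟨P, hirr, hn, hcard⟩
    · have hnu : ¬ IsUnit P := by
        intro hu
        rw [isUnit_iff_totalDegree_of_isReduced] at hu
        omega
      rw [irreducible_iff] at hirr
      push Not at hirr
      obtain ⟨A, B, hAB, hA, hB⟩ := hirr hnu
      have hA0 : A ≠ 0 := by rintro rfl; exact h0 (by rw [hAB, zero_mul])
      have hB0 : B ≠ 0 := by rintro rfl; exact h0 (by rw [hAB, mul_zero])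
      have hA1 := one_le_totalDegree_of_not_unit hA0 hA
      have hB1 := one_le_totalDegree_of_not_unit hB0 hB
      have hdeg : P.totalDegree = A.totalDegree + B.totalDegree := by
        rw [hAB, totalDegree_mul_of_isDomain hA0 hB0]
      have hsub : {a ∈ Z | eval (ev a) P = 0}.card ≤
          {a ∈ Z | eval (ev a) A = 0}.card + {a ∈ Z | eval (ev a) B = 0}.card := by
        refine (Finset.card_le_card ?_).trans (Finset.card_union_le _ _)
        intro a ha
        rw [Finset.mem_filter] at ha
        rw [Finset.mem_union, Finset.mem_filter, Finset.mem_filter]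
        have := ha.2
        rw [hAB, map_mul, mul_eq_zero] at this
        rcases this with h | h
        · exact Or.inl ⟨ha.1, h⟩
        · exact Or.inr ⟨ha.1, h⟩
      have hor : A.totalDegree * Z.card ≤ T * {a ∈ Z | eval (ev a) A = 0}.card ∨
          B.totalDegree * Z.card ≤ T * {a ∈ Z | eval (ev a) B = 0}.card := by
        by_contra hcon
        push Not at hcon
        have h3 : T * {a ∈ Z | eval (ev a) P = 0}.card < P.totalDegree * Z.card := by
          calc T * {a ∈ Z | eval (ev a) P = 0}.card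
              ≤ T * ({a ∈ Z | eval (ev a) A = 0}.card + {a ∈ Z | eval (ev a) B = 0}.card) :=
                Nat.mul_le_mul_left _ hsub
            _ = T * {a ∈ Z | eval (ev a) A = 0}.card + T * {a ∈ Z | eval (ev a) B = 0}.card := by
                ring
            _ < A.totalDegree * Z.card + B.totalDegree * Z.card := by
                exact add_lt_add hcon.1 hcon.2
            _ = P.totalDegree * Z.card := by rw [hdeg]; ring
        omega
      rcases hor with h | h
      · obtain ⟨P', h1', h2', h3'⟩ := ih A hA0 hA1 (by omega) h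
        exact ⟨P', h1', by omega, h3'⟩
      · obtain ⟨P', h1', h2', h3'⟩ := ih B hB0 hB1 (by omega) h
        exact ⟨P', h1', by omega, h3'⟩

/-- some irreducible polynomial of small degree vanishes at many of the points -/
lemma exists_irreducible {σ α : Type*} (ev : α → σ → ℚ) (Z : Finset α) (hne : Z.Nonempty)
    (T : ℕ) (Q : MvPolynomial σ ℚ) (hQ : Q ≠ 0) (hT : Q.totalDegree ≤ T)
    (hv : ∀ a ∈ Z, eval (ev a) Q = 0) :
    ∃ P : MvPolynomial σ ℚ, Irreducible P ∧ P.totalDegree ≤ T ∧
      Z.card ≤ T * {a ∈ Z | eval (ev a) P = 0}.card := by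
  have h1 : 1 ≤ Q.totalDegree := by
    by_contra h
    have h1 : Q.totalDegree = 0 := by omega
    rw [totalDegree_eq_zero_iff_eq_C] at h1
    obtain ⟨a, ha⟩ := hne
    have h2 := hv a ha
    rw [h1, eval_C] at h2
    rw [h2, C_0] at h1
    exact hQ h1
  have h2 : Q.totalDegree * Z.card ≤ T * {a ∈ Z | eval (ev a) Q = 0}.card := by
    rw [Finset.filter_true_of_mem hv]
    exact Nat.mul_le_mul_right _ hT
  obtain ⟨P, hP1, hP2, hP3⟩ := exists_irreducible_aux ev Z T T Q hQ h1 hT h2
  refine ⟨P, hP1, hP2, le_trans ?_ hP3⟩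
  have := one_le_totalDegree_of_not_unit hP1.ne_zero hP1.not_isUnit
  exact Nat.le_mul_of_pos_left _ this

/-- a polynomial vanishing at a point of the torus has two monomials -/
lemma exists_two_monomials {σ : Type*} {P : MvPolynomial σ ℚ} (hP : P ≠ 0) {z : σ → ℚ}
    (hz : ∀ j, z j ≠ 0) (hv : eval z P = 0) :
    ∃ m ∈ P.support, ∃ m' ∈ P.support, m ≠ m' := by
  classical
  by_contra hcon
  push Not at hcon
  obtain ⟨m, hm⟩ := support_nonempty.2 hP
  have h1 : P.support = {m} := by
    ext m'
    rw [Finset.mem_singleton]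
    constructor
    · intro h; exact (hcon m hm m' h).symm
    · rintro rfl; exact hm
  rw [eval_eq, h1, Finset.sum_singleton] at hv
  rcases mul_eq_zero.1 hv with h | h
  · exact (mem_support_iff.1 hm) h
  · rw [Finset.prod_eq_zero_iff] at h
    obtain ⟨j, _, hj⟩ := h
    exact pow_ne_zero _ (hz j) hj

/-- a polynomial which divides its translate is an eigenvector of the translation -/
lemma eigen_of_dvd {σ : Type*} {P : MvPolynomial σ ℚ} (hP : P ≠ 0) {t : σ → ℚ}
    (ht : ∀ j, t j ≠ 0) (hdvd : P ∣ tr t P) :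
    ∃ c : ℚ, ∀ m ∈ P.support, (m.prod fun j e => t j ^ e) = c := by
  obtain ⟨R, hR⟩ := hdvd
  have hprod : ∀ m : σ →₀ ℕ, (m.prod fun j e => t j ^ e) ≠ 0 := by
    intro m
    unfold Finsupp.prod
    exact Finset.prod_ne_zero_iff.2 fun j _ => pow_ne_zero _ (ht j)
  have hne : tr t P ≠ 0 := by
    obtain ⟨m, hm⟩ := support_nonempty.2 hP
    intro h0
    have h1 := coeff_tr t P m
    rw [h0, coeff_zero] at h1
    rcases mul_eq_zero.1 h1.symm with h | h
    · exact hprod m h
    · exact (mem_support_iff.1 hm) h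
  have hR0 : R ≠ 0 := by
    rintro rfl
    exact hne (by rw [hR, mul_zero])
  have hdeg := totalDegree_tr_le t P
  rw [hR, totalDegree_mul_of_isDomain hP hR0] at hdeg
  have h1 : R.totalDegree = 0 := by omega
  rw [totalDegree_eq_zero_iff_eq_C] at h1
  refine ⟨coeff 0 R, fun m hm => ?_⟩
  have h2 := coeff_tr t P m
  rw [hR, h1, mul_comm P, coeff_C_mul] at h2
  exact (mul_right_cancel₀ (mem_support_iff.1 hm) h2).symm

end factor

section popular

variable {ι : Type*} [Fintype ι] [DecidableEq ι]

lemma card_box (N : ℕ) :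
    (Fintype.piFinset (fun _ : ι => Finset.Icc (-(N : ℤ)) N)).card =
      (2 * N + 1) ^ Fintype.card ι := by
  rw [Fintype.card_piFinset]
  simp only [Int.card_Icc, Finset.prod_const, Finset.card_univ]
  congr 1
  omega

lemma popular (N θ : ℕ) (Z : Finset (ι → ℤ)) (hZ : ∀ a ∈ Z, ∀ i, 0 ≤ a i ∧ a i ≤ N)
    (hcard : (2 * N + 1) ^ Fintype.card ι ≤ θ * Z.card) :
    ∃ G : Finset (ι → ℤ), (∀ b ∈ G, ∀ i, -(N : ℤ) ≤ b i ∧ b i ≤ N) ∧
      (2 * N + 1) ^ Fintype.card ι ≤ 2 * θ * G.card ∧
      ∀ b ∈ G, (2 * N + 1) ^ Fintype.card ι ≤ 2 * θ ^ 2 * {a ∈ Z | a + b ∈ Z}.card := by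
  set M := (2 * N + 1) ^ Fintype.card ι with hM
  have hMpos : 0 < M := by positivity
  set B := Fintype.piFinset (fun _ : ι => Finset.Icc (-(N : ℤ)) N) with hB
  have hBcard : B.card = M := card_box N
  have hsum : ∑ b ∈ B, {a ∈ Z | a + b ∈ Z}.card = Z.card * Z.card := by
    have h1 : ∀ b ∈ B, {a ∈ Z | a + b ∈ Z}.card = ∑ a ∈ Z, if a + b ∈ Z then 1 else 0 := by
      intro b _
      rw [Finset.card_filter]
    rw [Finset.sum_congr rfl h1, Finset.sum_comm]
    have h2 : ∀ a ∈ Z, (∑ b ∈ B, if a + b ∈ Z then 1 else 0) = Z.card := by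
      intro a ha
      rw [← Finset.card_filter]
      apply Finset.card_bij (fun b _ => a + b)
      · intro b hb
        exact (Finset.mem_filter.1 hb).2
      · intro b _ b' _ h
        exact add_left_cancel h
      · intro a' ha'
        refine ⟨a' - a, ?_, by simp⟩
        rw [Finset.mem_filter]
        refine ⟨?_, by simpa using ha'⟩
        rw [hB, Fintype.mem_piFinset]
        intro i
        have h3 := hZ a ha i
        have h4 := hZ a' ha' i
        rw [Finset.mem_Icc, Pi.sub_apply]
        constructor <;> omega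
    rw [Finset.sum_congr rfl h2, Finset.sum_const, smul_eq_mul]
  have hZpos : 0 < θ * Z.card := lt_of_lt_of_le hMpos hcard
  set G := B.filter (fun b => Z.card ≤ 2 * θ * {a ∈ Z | a + b ∈ Z}.card) with hG
  have hle : ∀ b, {a ∈ Z | a + b ∈ Z}.card ≤ Z.card := fun b => Finset.card_filter_le _ _
  have hkey : 2 * θ * (Z.card * Z.card) ≤ 2 * θ * Z.card * G.card + M * Z.card := by
    rw [← hsum, Finset.mul_sum, ← Finset.sum_filter_add_sum_filter_not B
      (fun b => Z.card ≤ 2 * θ * {a ∈ Z | a + b ∈ Z}.card)]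
    apply add_le_add
    · calc ∑ b ∈ G, 2 * θ * {a ∈ Z | a + b ∈ Z}.card ≤ ∑ b ∈ G, 2 * θ * Z.card :=
            Finset.sum_le_sum fun b _ => Nat.mul_le_mul_left _ (hle b)
        _ = 2 * θ * Z.card * G.card := by rw [Finset.sum_const, smul_eq_mul]; ring
    · calc ∑ b ∈ B with ¬ Z.card ≤ 2 * θ * {a ∈ Z | a + b ∈ Z}.card,
              2 * θ * {a ∈ Z | a + b ∈ Z}.card
            ≤ ∑ b ∈ B with ¬ Z.card ≤ 2 * θ * {a ∈ Z | a + b ∈ Z}.card, Z.card := by
              apply Finset.sum_le_sum
              intro b hb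
              have := (Finset.mem_filter.1 hb).2
              omega
        _ ≤ M * Z.card := by
              rw [Finset.sum_const, smul_eq_mul, ← hBcard]
              exact Nat.mul_le_mul_right _ (Finset.card_filter_le _ _)
  have hG1 : Z.card ≤ 2 * G.card := by
    by_contra hcon
    push Not at hcon
    have h1 : M * Z.card ≤ θ * Z.card * Z.card := Nat.mul_le_mul_right _ hcard
    have h2 : 2 * θ * (Z.card * Z.card) ≤ θ * Z.card * (2 * G.card) + θ * Z.card * Z.card := by
      calc 2 * θ * (Z.card * Z.card) ≤ 2 * θ * Z.card * G.card + M * Z.card := hkey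
        _ ≤ 2 * θ * Z.card * G.card + θ * Z.card * Z.card := by omega
        _ = _ := by ring
    have h3 : θ * Z.card * (2 * G.card) < θ * Z.card * Z.card :=
      (Nat.mul_lt_mul_left hZpos).2 hcon
    have h4 : 2 * θ * (Z.card * Z.card) = θ * Z.card * Z.card + θ * Z.card * Z.card := by ring
    omega
  refine ⟨G, ?_, ?_, ?_⟩
  · intro b hb i
    have h1 := (Finset.mem_filter.1 hb).1
    rw [hB, Fintype.mem_piFinset] at h1
    exact Finset.mem_Icc.1 (h1 i)
  · calc M ≤ θ * Z.card := hcard
      _ ≤ θ * (2 * G.card) := Nat.mul_le_mul_left _ hG1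
      _ = _ := by ring
  · intro b hb
    have h1 := (Finset.mem_filter.1 hb).2
    calc M ≤ θ * Z.card := hcard
      _ ≤ θ * (2 * θ * {a ∈ Z | a + b ∈ Z}.card) := Nat.mul_le_mul_left _ h1
      _ = _ := by ring

end popular

section zero

lemma pos_right {a b : ℕ} (h : 0 < a * b) : 0 < b :=
  Nat.pos_of_ne_zero (by rintro rfl; simp at h)

variable {ι : Type*} [Fintype ι]

/-- the point with exponent vector `b` -/
def pt {d : ℕ} (c : ι → Fin d → ℚ) (b : ι → ℤ) : Fin d → ℚ :=
  fun j => ∏ i, c i j ^ b i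

lemma pt_ne_zero {d : ℕ} {c : ι → Fin d → ℚ} (hc : ∀ i j, c i j ≠ 0) (b : ι → ℤ) (j : Fin d) :
    pt c b j ≠ 0 :=
  Finset.prod_ne_zero_iff.2 fun i _ => zpow_ne_zero _ (hc i j)

lemma pt_add {d : ℕ} {c : ι → Fin d → ℚ} (hc : ∀ i j, c i j ≠ 0) (a b : ι → ℤ) (j : Fin d) :
    pt c (a + b) j = pt c b j * pt c a j := by
  unfold pt
  rw [← Finset.prod_mul_distrib]
  apply Finset.prod_congr rfl
  intro i _
  rw [Pi.add_apply, zpow_add₀ (hc i j), mul_comm]

/-- the bound in the zero estimate -/
def gz : ℕ → ℕ → ℕ → ℕ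
  | 0, θ, T => θ * T
  | d + 1, θ, T => gz d (2 * (T * θ) ^ 2) (2 * T ^ 2) + 2 * (T * θ)

lemma zero_base (c : ι → Fin 1 → ℚ) (hc : ∀ i j, c i j ≠ 0)
    (hinj : ∀ b : ι → ℤ, ∏ i, c i 0 ^ b i = 1 → b = 0) (T : ℕ) (Z : Finset (ι → ℤ))
    (Q : MvPolynomial (Fin 1) ℚ) (hQ : Q ≠ 0) (hT : Q.totalDegree ≤ T)
    (hv : ∀ a ∈ Z, eval (pt c a) Q = 0) : Z.card ≤ T := by
  classical
  set q := Polynomial.map (eval (Fin.elim0 : Fin 0 → ℚ)) (finSuccEquiv ℚ 0 Q) with hq
  have hinjev : Function.Injective (eval (Fin.elim0 : Fin 0 → ℚ)) := by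
    intro x y hxy
    rw [eq_C_of_isEmpty x, eq_C_of_isEmpty y] at hxy ⊢
    simpa using hxy
  have hq0 : q ≠ 0 := by
    rw [hq, Ne, Polynomial.map_eq_zero_iff hinjev]
    intro h
    exact hQ ((map_eq_zero_iff _ (finSuccEquiv ℚ 0).injective).1 h)
  have hdeg : q.natDegree ≤ T := by
    rw [hq]
    refine (Polynomial.natDegree_map_le).trans ?_
    rw [natDegree_finSuccEquiv]
    exact (degreeOf_le_totalDegree Q 0).trans hT
  have hroot : ∀ a ∈ Z, pt c a 0 ∈ q.roots.toFinset := by
    intro a ha
    rw [Multiset.mem_toFinset, Polynomial.mem_roots hq0, Polynomial.IsRoot.def, hq,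
      ← eval_eq_eval_mv_eval']
    have : (Fin.cons (pt c a 0) (Fin.elim0 : Fin 0 → ℚ) : Fin 1 → ℚ) = pt c a := by
      ext j
      refine Fin.cases ?_ (fun i => i.elim0) j
      rfl
    rw [this]
    exact hv a ha
  have hcardle : Z.card ≤ q.roots.toFinset.card := by
    apply Finset.card_le_card_of_injOn (fun a => pt c a 0) hroot
    intro a _ a' _ h
    have h1 : ∏ i, c i 0 ^ (a - a') i = 1 := by
      have h2 : pt c ((a - a') + a') 0 = pt c a' 0 * pt c (a - a') 0 := pt_add hc _ _ _
      rw [sub_add_cancel] at h2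
      have h3 : pt c a 0 = pt c a' 0 := h
      rw [h3] at h2
      have h4 := pt_ne_zero hc a' 0
      have h5 : pt c (a - a') 0 = 1 := by
        have : pt c a' 0 * pt c (a - a') 0 = pt c a' 0 * 1 := by rw [mul_one]; exact h2.symm
        exact mul_left_cancel₀ h4 this
      exact h5
    have := hinj _ h1
    exact sub_eq_zero.1 this
  exact hcardle.trans ((Multiset.toFinset_card_le _).trans ((Polynomial.card_roots' q).trans hdeg))

theorem zero_estimate [DecidableEq ι] (d : ℕ) : ∀ (c : ι → Fin (d + 1) → ℚ)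
    (_hc : ∀ i j, c i j ≠ 0)
    (_hinj : ∀ b : ι → ℤ, ∏ i, c i (Fin.last d) ^ b i = 1 → b = 0) (N T θ : ℕ)
    (Z : Finset (ι → ℤ)) (_hZ : ∀ a ∈ Z, ∀ i, 0 ≤ a i ∧ a i ≤ N)
    (_hcard : (2 * N + 1) ^ Fintype.card ι ≤ θ * Z.card)
    (Q : MvPolynomial (Fin (d + 1)) ℚ) (_hQ : Q ≠ 0) (_hT : Q.totalDegree ≤ T)
    (_hv : ∀ a ∈ Z, eval (pt c a) Q = 0),
    ∃ (u : Fin (d + 1) → ℤ) (G : Finset (ι → ℤ)), u ≠ 0 ∧
      (∀ b ∈ G, ∀ i, -(N : ℤ) ≤ b i ∧ b i ≤ N) ∧
      (∀ b ∈ G, ∏ j, pt c b j ^ u j = 1) ∧
      (2 * N + 1) ^ Fintype.card ι ≤ gz d θ T * G.card := by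
  classical
  induction d with
  | zero =>
    intro c hc hinj N T θ Z hZ hcard Q hQ hT hv
    have h1 := zero_base c hc (by simpa using hinj) T Z Q hQ hT hv
    refine ⟨fun _ => 1, {0}, ?_, ?_, ?_, ?_⟩
    · intro h
      have := congrFun h 0
      simp at this
    · intro b hb i
      rw [Finset.mem_singleton] at hb
      rw [hb]
      simp
    · intro b hb
      rw [Finset.mem_singleton] at hb
      rw [hb]
      simp [pt]
    · rw [Finset.card_singleton, mul_one, gz]
      exact hcard.trans (Nat.mul_le_mul_left _ h1)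
  | succ d ih =>
    intro c hc hinj N T θ Z hZ hcard Q hQ hT hv
    set M := (2 * N + 1) ^ Fintype.card ι with hM
    have hMpos : 0 < M := by positivity
    have hZpos : 0 < θ * Z.card := lt_of_lt_of_le hMpos hcard
    have hne : Z.Nonempty := by
      rw [← Finset.card_pos]
      exact pos_right hZpos
    obtain ⟨P, hirr, hPT, hPcard⟩ := exists_irreducible (pt c) Z hne T Q hQ hT hv
    set Z₁ := {a ∈ Z | eval (pt c a) P = 0} with hZ1
    have hcard1 : M ≤ (T * θ) * Z₁.card := by
      calc M ≤ θ * Z.card := hcard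
        _ ≤ θ * (T * Z₁.card) := Nat.mul_le_mul_left _ hPcard
        _ = _ := by ring
    have hZ1box : ∀ a ∈ Z₁, ∀ i, 0 ≤ a i ∧ a i ≤ N := fun a ha =>
      hZ a (Finset.mem_filter.1 ha).1
    have hZ1v : ∀ a ∈ Z₁, eval (pt c a) P = 0 := fun a ha => (Finset.mem_filter.1 ha).2
    have hne1 : Z₁.Nonempty := by
      rw [← Finset.card_pos]
      exact pos_right (lt_of_lt_of_le hMpos hcard1)
    obtain ⟨G₀, hG0box, hG0card, hG0pop⟩ := popular N (T * θ) Z₁ hZ1box hcard1
    by_cases hcase : ∀ b ∈ G₀, P ∣ tr (pt c b) P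
    · -- Case A
      obtain ⟨a₀, ha₀⟩ := hne1
      obtain ⟨m, hm, m', hm', hmm⟩ := exists_two_monomials hirr.ne_zero (pt_ne_zero hc a₀)
        (hZ1v a₀ ha₀)
      refine ⟨fun j => (m j : ℤ) - m' j, G₀, ?_, hG0box, ?_, ?_⟩
      · intro h
        apply hmm
        ext j
        have := congrFun h j
        simp only [Pi.zero_apply] at this
        omega
      · intro b hb
        obtain ⟨e, he⟩ := eigen_of_dvd hirr.ne_zero (pt_ne_zero hc b) (hcase b hb)
        have h1 := he m hm
        have h2 := he m' hm'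
        rw [Finsupp.prod_fintype _ _ (fun j => pow_zero _)] at h1 h2
        have h3 : ∏ j, pt c b j ^ ((m j : ℤ) - m' j) =
            (∏ j, pt c b j ^ (m j)) / ∏ j, pt c b j ^ (m' j) := by
          rw [← Finset.prod_div_distrib]
          apply Finset.prod_congr rfl
          intro j _
          rw [zpow_sub₀ (pt_ne_zero hc b j), zpow_natCast, zpow_natCast]
        rw [h3, h1, h2, div_self]
        rw [← h2]
        exact Finset.prod_ne_zero_iff.2 fun j _ => pow_ne_zero _ (pt_ne_zero hc b j)
      · refine hG0card.trans (Nat.mul_le_mul_right _ ?_)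
        rw [gz]
        exact Nat.le_add_left _ _
    · -- Case B
      push Not at hcase
      obtain ⟨b, hb, hndvd⟩ := hcase
      set Z₂ := {a ∈ Z₁ | a + b ∈ Z₁} with hZ2
      have hcard2 : M ≤ (2 * (T * θ) ^ 2) * Z₂.card := hG0pop b hb
      have hZ2box : ∀ a ∈ Z₂, ∀ i, 0 ≤ a i ∧ a i ≤ N := fun a ha =>
        hZ1box a (Finset.mem_filter.1 ha).1
      have hv1 : ∀ a ∈ Z₂, eval (pt c a) P = 0 := fun a ha => hZ1v a (Finset.mem_filter.1 ha).1
      have hv2 : ∀ a ∈ Z₂, eval (pt c a) (tr (pt c b) P) = 0 := by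
        intro a ha
        rw [eval_tr]
        have h1 := hZ1v (a + b) (Finset.mem_filter.1 ha).2
        have h2 : pt c (a + b) = fun j => pt c b j * pt c a j := by
          ext j; exact pt_add hc a b j
        rwa [h2] at h1
      set c' : ι → Fin (d + 1) → ℚ := fun i j => c i j.succ with hc'
      have hpt : ∀ a, pt c a = Fin.cons (pt c a 0) (pt c' a) := by
        intro a
        ext j
        refine Fin.cases ?_ (fun j => ?_) j
        · rfl
        · rfl
      set f := finSuccEquiv ℚ (d + 1) P with hf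
      set g := finSuccEquiv ℚ (d + 1) (tr (pt c b) P) with hg
      have hcoeff : ∀ (W : MvPolynomial (Fin (d + 1 + 1)) ℚ), W.totalDegree ≤ T → ∀ i,
          ((finSuccEquiv ℚ (d + 1) W).coeff i).totalDegree ≤ T := by
        intro W hW i
        by_cases h0 : (finSuccEquiv ℚ (d + 1) W).coeff i = 0
        · rw [h0]; simp
        · have := totalDegree_coeff_finSuccEquiv_add_le W i h0
          omega
      have hfprime : Prime f := by
        rw [hf]
        have := (MulEquiv.prime_iff (finSuccEquiv ℚ (d + 1)).toMulEquiv (p := P)).2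
          (UniqueFactorizationMonoid.irreducible_iff_prime.1 hirr)
        exact this
      have hfg : ¬ f ∣ g := by
        intro h
        apply hndvd
        exact (map_dvd_iff (finSuccEquiv ℚ (d + 1))).1 h
      have hevf : ∀ a ∈ Z₂, Polynomial.eval (pt c a 0) (f.map (eval (pt c' a))) = 0 := by
        intro a ha
        rw [hf, ← eval_eq_eval_mv_eval', ← hpt a]
        exact hv1 a ha
      have hevg : ∀ a ∈ Z₂, Polynomial.eval (pt c a 0) (g.map (eval (pt c' a))) = 0 := by
        intro a ha
        rw [hg, ← eval_eq_eval_mv_eval', ← hpt a]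
        exact hv2 a ha
      -- the eliminated polynomial
      obtain ⟨R, hR0, hRdeg, hRv⟩ : ∃ R : MvPolynomial (Fin (d + 1)) ℚ, R ≠ 0 ∧
          R.totalDegree ≤ 2 * T ^ 2 ∧ ∀ a ∈ Z₂, eval (pt c' a) R = 0 := by
        by_cases hnd : f.natDegree = 0
        · refine ⟨f.coeff 0, ?_, ?_, ?_⟩
          · intro h
            apply hfprime.ne_zero
            rw [Polynomial.eq_C_of_natDegree_eq_zero hnd, h, Polynomial.C_0]
          · refine (hcoeff P hPT 0).trans ?_
            have hT1 : 1 ≤ T := (one_le_totalDegree_of_not_unit hirr.ne_zero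
              hirr.not_isUnit).trans hPT
            nlinarith
          · intro a ha
            have := hevf a ha
            rw [Polynomial.eq_C_of_natDegree_eq_zero hnd, Polynomial.map_C,
              Polynomial.eval_C] at this
            exact this
        · refine ⟨f.resultant g, resultant_ne_zero_of_prime hfprime hfg hnd, ?_, ?_⟩
          · refine (totalDegree_resultant_le (hcoeff P hPT) (hcoeff _
              ((totalDegree_tr_le _ _).trans hPT)) _ _).trans ?_
            have h1 : f.natDegree ≤ T := by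
              rw [hf, natDegree_finSuccEquiv]
              exact (degreeOf_le_totalDegree _ _).trans hPT
            have h2 : g.natDegree ≤ T := by
              rw [hg, natDegree_finSuccEquiv]
              exact (degreeOf_le_totalDegree _ _).trans ((totalDegree_tr_le _ _).trans hPT)
            nlinarith
          · intro a ha
            obtain ⟨p, q, -, -, hpq⟩ := Polynomial.exists_mul_add_mul_eq_C_resultant f g le_rfl
              le_rfl (Or.inl hnd)
            have h1 := congrArg (fun w => Polynomial.eval (pt c a 0)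
              (w.map (eval (pt c' a)))) hpq
            simp only [Polynomial.map_add, Polynomial.map_mul, Polynomial.eval_add,
              Polynomial.eval_mul, hevf a ha, hevg a ha, zero_mul, add_zero, Polynomial.map_C,
              Polynomial.eval_C] at h1
            exact h1.symm
      obtain ⟨u, G, hu, hGbox, hG1, hGcard⟩ := ih c' (fun i j => hc i j.succ)
        (fun b hb => hinj b hb) N (2 * T ^ 2) (2 * (T * θ) ^ 2) Z₂ hZ2box hcard2
        R hR0 hRdeg hRv
      refine ⟨Fin.cons 0 u, G, ?_, hGbox, ?_, ?_⟩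
      · intro h
        apply hu
        ext j
        have := congrFun h j.succ
        simpa using this
      · intro b hb
        rw [Fin.prod_univ_succ]
        simp only [Fin.cons_zero, zpow_zero, one_mul, Fin.cons_succ]
        exact hG1 b hb
      · refine hGcard.trans (Nat.mul_le_mul_right _ ?_)
        rw [gz]
        exact Nat.le_add_right _ _

lemma gz_le (d : ℕ) : ∀ θ T : ℕ, 1 ≤ θ → 1 ≤ T → gz d θ T ≤ (4 * (θ * T)) ^ (4 ^ d) := by
  induction d with
  | zero =>
    intro θ T _ _
    rw [gz, pow_zero, pow_one]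
    omega
  | succ d ih =>
    intro θ T h1 h2
    rw [gz]
    have h3 := ih (2 * (T * θ) ^ 2) (2 * T ^ 2) (by
      have : 0 < T * θ := Nat.mul_pos h2 h1
      have : 0 < (T * θ) ^ 2 := by positivity
      omega) (by
      have : 0 < T ^ 2 := by positivity
      omega)
    set x := θ * T with hx
    have hxpos : 1 ≤ x := Nat.mul_pos h1 h2
    have h4 : 4 * (2 * (T * θ) ^ 2 * (2 * T ^ 2)) ≤ 16 * x ^ 4 := by
      have : T ^ 2 ≤ x ^ 2 := Nat.pow_le_pow_left (by rw [hx]; exact Nat.le_mul_of_pos_left _ h1) 2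
      calc 4 * (2 * (T * θ) ^ 2 * (2 * T ^ 2)) = 16 * (x ^ 2 * T ^ 2) := by rw [hx]; ring
        _ ≤ 16 * (x ^ 2 * x ^ 2) := by gcongr
        _ = 16 * x ^ 4 := by ring
    have h5 : (16 * x ^ 4) ^ 4 ^ d + 2 * (T * θ) ≤ (256 * x ^ 4) ^ 4 ^ d := by
      have h6 : 1 ≤ 4 ^ d := Nat.one_le_pow _ _ (by norm_num)
      obtain ⟨e, he⟩ := Nat.exists_eq_add_of_le h6
      rw [he, pow_add, pow_one, pow_add, pow_one]
      have h7 : (16 * x ^ 4) ^ e ≤ (256 * x ^ 4) ^ e := Nat.pow_le_pow_left (by
        have : 0 < x ^ 4 := by positivity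
        omega) e
      have h8 : 1 ≤ (256 * x ^ 4) ^ e := Nat.one_le_pow _ _ (by positivity)
      have h9 : x ≤ x ^ 4 := Nat.le_self_pow (by norm_num) x
      have h10 : T * θ = x := by rw [hx]; ring
      rw [h10]
      calc 16 * x ^ 4 * (16 * x ^ 4) ^ e + 2 * x
          ≤ 16 * x ^ 4 * (256 * x ^ 4) ^ e + 2 * x ^ 4 * (256 * x ^ 4) ^ e := by
            apply add_le_add
            · exact Nat.mul_le_mul_left _ h7
            · calc 2 * x ≤ 2 * x ^ 4 := by omega
                _ = 2 * x ^ 4 * 1 := (mul_one _).symm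
                _ ≤ _ := Nat.mul_le_mul_left _ h8
        _ = 18 * x ^ 4 * (256 * x ^ 4) ^ e := by ring
        _ ≤ 256 * x ^ 4 * (256 * x ^ 4) ^ e := by gcongr; norm_num
    calc gz d (2 * (T * θ) ^ 2) (2 * T ^ 2) + 2 * (T * θ)
        ≤ (4 * (2 * (T * θ) ^ 2 * (2 * T ^ 2))) ^ 4 ^ d + 2 * (T * θ) := by omega
      _ ≤ (16 * x ^ 4) ^ 4 ^ d + 2 * (T * θ) := by
        have := Nat.pow_le_pow_left h4 (4 ^ d)
        omega
      _ ≤ (256 * x ^ 4) ^ 4 ^ d := h5
      _ = (4 * x) ^ 4 ^ (d + 1) := by
        have h11 : 4 ^ (d + 1) = 4 * 4 ^ d := by ring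
        rw [h11, pow_mul]
        congr 1
        ring

end zero

end Pool.Agent.Lib.MP_c7ee41_nt
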