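import Mathlib
import Pool.Agent.Lib.MP_c7ee41_nt.Zero
import Pool.Agent.Lib.MP_c7ee41_nt.Siegel

set_option autoImplicit false

/-!
# Rank bounds
-/

namespace Pool.Agent.Lib.MP_c7ee41_nt

open Filter

section linalg

/-- a set of integer vectors in a box which satisfy a vector relation of rank `ρ` is small -/
lemma card_le_of_rank {ι : Type} [Fintype ι] [DecidableEq ι] {V : Type} [AddCommGroup V]
    [Module ℚ V] (w : ι → V) (N : ℕ) (G : Finset (ι → ℤ))
    (hbox : ∀ b ∈ G, ∀ i, -(N : ℤ) ≤ b i ∧ b i ≤ N)
    (hG : ∀ b ∈ G, ∑ i, (b i : ℚ) • w i = 0) :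
    G.card * (2 * N + 1) ^ (Module.finrank ℚ (Submodule.span ℚ (Set.range w))) ≤
      (2 * N + 1) ^ Fintype.card ι := by
  classical
  obtain ⟨κ, a, ha, hspan, hli⟩ := exists_linearIndependent' ℚ w
  have : Finite κ := Finite.of_injective a ha
  have : Fintype κ := Fintype.ofFinite κ
  have hρ : Module.finrank ℚ (Submodule.span ℚ (Set.range w)) = Fintype.card κ := by
    rw [← hspan]
    exact finrank_span_eq_card hli
  rw [hρ]
  set B : Finset ι := Finset.univ.image a with hB
  have hBcard : B.card = Fintype.card κ := by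
    rw [hB, Finset.card_image_of_injective _ ha, Finset.card_univ]
  set t := Fintype.piFinset (fun _ : {i // i ∉ B} => Finset.Icc (-(N : ℤ)) N) with ht
  have htcard : t.card = (2 * N + 1) ^ (Fintype.card ι - Fintype.card κ) := by
    rw [ht, card_box]
    congr 1
    rw [Fintype.card_subtype_compl, Fintype.card_coe, hBcard]
  have hle : G.card ≤ t.card := by
    apply Finset.card_le_card_of_injOn (fun b (i : {i // i ∉ B}) => b i.1)
    · intro b hb
      rw [ht, Finset.mem_coe, Fintype.mem_piFinset]
      intro i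
      exact Finset.mem_Icc.2 (hbox b hb i.1)
    · intro b hb b' hb' hbb
      have h1 : ∀ i, i ∉ B → b i = b' i := fun i hi => congrFun hbb ⟨i, hi⟩
      have h2 : ∑ i, ((b i : ℚ) - b' i) • w i = 0 := by
        simp only [sub_smul]
        rw [Finset.sum_sub_distrib, hG b hb, hG b' hb', sub_zero]
      have h3 : ∑ x : κ, ((b (a x) : ℚ) - b' (a x)) • (w ∘ a) x = 0 := by
        rw [← h2]
        have h4 : ∑ i ∈ B, ((b i : ℚ) - b' i) • w i = ∑ i, ((b i : ℚ) - b' i) • w i := by
          apply Finset.sum_subset (Finset.subset_univ _)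
          intro i _ hi
          rw [h1 i hi, sub_self, zero_smul]
        rw [← h4, hB, Finset.sum_image (fun x _ y _ h => ha h)]
        rfl
      have h5 := Fintype.linearIndependent_iff.1 hli _ h3
      ext i
      by_cases hi : i ∈ B
      · rw [hB, Finset.mem_image] at hi
        obtain ⟨x, -, rfl⟩ := hi
        have := h5 x
        have h6 : (b (a x) : ℚ) = b' (a x) := by linarith
        exact_mod_cast h6
      · exact h1 i hi
  calc G.card * (2 * N + 1) ^ Fintype.card κ
      ≤ (2 * N + 1) ^ (Fintype.card ι - Fintype.card κ) * (2 * N + 1) ^ Fintype.card κ := by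
        rw [← htcard]; exact Nat.mul_le_mul_right _ hle
    _ = (2 * N + 1) ^ Fintype.card ι := by
      rw [← pow_add]
      congr 1
      have := Fintype.card_le_of_injective a ha
      omega

end linalg

section val

/-- the vector of valuations -/
noncomputable def val (n : ℕ) : ℕ →₀ ℚ := n.factorization.mapRange (Nat.cast : ℕ → ℚ) (by simp)

lemma val_apply (n q : ℕ) : val n q = (n.factorization q : ℚ) := by
  unfold val; rw [Finsupp.mapRange_apply]

lemma val_mul {m n : ℕ} (hm : m ≠ 0) (hn : n ≠ 0) : val (m * n) = val m + val n := by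
  ext q
  rw [Finsupp.add_apply, val_apply, val_apply, val_apply, Nat.factorization_mul hm hn,
    Finsupp.add_apply]
  push_cast
  rfl

lemma val_one : val 1 = 0 := by
  ext q
  rw [val_apply]
  simp

lemma val_pow {m : ℕ} (k : ℕ) : val (m ^ k) = (k : ℚ) • val m := by
  ext q
  rw [Finsupp.smul_apply, val_apply, val_apply, Nat.factorization_pow, Finsupp.smul_apply]
  simp

lemma val_inj {m n : ℕ} (hm : m ≠ 0) (hn : n ≠ 0) (h : val m = val n) : m = n := by
  apply Nat.eq_of_factorization_eq hm hn
  intro q
  have := DFunLike.congr_fun h q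
  rw [val_apply, val_apply] at this
  exact_mod_cast this

lemma val_prime {p : ℕ} (hp : p.Prime) : val p = Finsupp.single p 1 := by
  ext q
  rw [val_apply, hp.factorization]
  by_cases h : p = q
  · subst h; simp
  · rw [Finsupp.single_eq_of_ne (Ne.symm h), Finsupp.single_eq_of_ne (Ne.symm h)]; simp

lemma padicValRat_prod_zpow (q : ℕ) [hq : Fact q.Prime] {ι : Type*} (s : Finset ι) (x : ι → ℚ)
    (hx : ∀ i ∈ s, x i ≠ 0) (b : ι → ℤ) :
    padicValRat q (∏ i ∈ s, x i ^ b i) = ∑ i ∈ s, b i * padicValRat q (x i) := by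
  classical
  induction s using Finset.induction_on with
  | empty => simp
  | insert a s ha ih =>
    rw [Finset.prod_insert ha, Finset.sum_insert ha, padicValRat.mul, padicValRat.zpow,
      ih fun i hi => hx i (Finset.mem_insert_of_mem hi)]
    · exact zpow_ne_zero _ (hx a (Finset.mem_insert_self _ _))
    · exact Finset.prod_ne_zero_iff.2 fun i hi =>
        zpow_ne_zero _ (hx i (Finset.mem_insert_of_mem hi))

/-- a multiplicative relation gives a linear relation between the valuation vectors -/
lemma vec_of_char {ι : Type*} [Fintype ι] {D : ℕ} (c : ι → Fin D → ℕ) (hc : ∀ i j, 0 < c i j)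
    (u : Fin D → ℤ) (b : ι → ℤ) (h : ∏ j, pt (fun i j => (c i j : ℚ)) b j ^ u j = 1) :
    ∑ i, (b i : ℚ) • ∑ j, (u j : ℚ) • val (c i j) = 0 := by
  ext q
  rw [Finsupp.finsetSum_apply]
  simp only [Finsupp.smul_apply, Finsupp.finsetSum_apply, val_apply, Finsupp.coe_zero,
    Pi.zero_apply, smul_eq_mul]
  by_cases hq : q.Prime
  · have : Fact q.Prime := ⟨hq⟩
    have h1 := congrArg (padicValRat q) h
    have hc0 : ∀ i j, ((c i j : ℕ) : ℚ) ≠ 0 := fun i j => by
      have := hc i j
      positivity
    rw [padicValRat.one, padicValRat_prod_zpow q _ _ (fun j _ => pt_ne_zero hc0 b j)] at h1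
    have h2 : ∀ j, padicValRat q (pt (fun i j => (c i j : ℚ)) b j) =
        ∑ i, b i * ((c i j).factorization q : ℤ) := by
      intro j
      unfold pt
      rw [padicValRat_prod_zpow q _ _ (fun i _ => hc0 i j)]
      apply Finset.sum_congr rfl
      intro i _
      rw [padicValRat.of_nat, Nat.factorization_def _ hq]
    simp only [h2] at h1
    have h3 : ∑ i, (b i : ℚ) * ∑ j, (u j : ℚ) * ((c i j).factorization q : ℚ) =
        ((∑ j, u j * ∑ i, b i * ((c i j).factorization q : ℤ) : ℤ) : ℚ) := by
      push_cast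
      simp only [Finset.mul_sum]
      rw [Finset.sum_comm]
      apply Finset.sum_congr rfl
      intro j _
      apply Finset.sum_congr rfl
      intro i _
      ring
    rw [h3, h1]
    simp
  · have : ∀ i j, (c i j).factorization q = 0 := fun i j =>
      Nat.factorization_eq_zero_of_not_prime _ hq
    simp [this]

lemma primes_independent {ι : Type*} [Fintype ι] (p : ι → ℕ) (hp : ∀ i, (p i).Prime)
    (hinj : Function.Injective p) (b : ι → ℤ) (h : ∏ i, (p i : ℚ) ^ b i = 1) : b = 0 := by
  classical
  ext i
  have : Fact (p i).Prime := ⟨hp i⟩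
  have h1 := congrArg (padicValRat (p i)) h
  rw [padicValRat.one, padicValRat_prod_zpow _ _ _ (fun j _ => by
    have := (hp j).pos
    positivity), Finset.sum_eq_single i] at h1
  · rw [padicValRat.self (hp i).one_lt, mul_one] at h1
    simpa using h1
  · intro j _ hj
    have : Fact (p j).Prime := ⟨hp j⟩
    rw [padicValRat.of_nat, padicValNat_primes (fun h => hj (hinj h).symm)]
    simp
  · intro h; exact absurd (Finset.mem_univ _) h

end val

end Pool.Agent.Lib.MP_c7ee41_nt
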