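import Mathlib
import Pool.Agent.Lib.MP_c7ee41_nt.Rank

set_option autoImplicit false

/-!
# The key proposition: small rank of a multiplicative combination
-/

namespace Pool.Agent.Lib.MP_c7ee41_nt

open Filter

open Classical in
/-- number of elements of `S` in `[1, X]` -/
noncomputable def cntS (S : Set ℕ) (X : ℕ) : ℕ :=
  ((Finset.Icc 1 X).filter (fun ℓ => ℓ ∈ S)).card

/-- the valuation vector of `∏ j, h j n ^ u j` -/
noncomputable def vec {D : ℕ} (h : Fin D → ℕ → ℕ) (u : Fin D → ℤ) (n : ℕ) : ℕ →₀ ℚ :=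
  ∑ j, (u j : ℚ) • val (h j n)

lemma key_numeric {Z k d A X0 c : ℕ} (hZ : 2 ^ (k + 3) * (d + 1 + A) + X0 ≤ Z) (hZ1 : 1 ≤ Z)
    (hc : Z ^ (k + 2) ≤ c + X0) :
    2 * (4 * (2 * Z) ^ k) * (d + 1 + A * Z) ≤ c := by
  have h1 : 2 * (4 * (2 * Z) ^ k) * (d + 1 + A * Z) ≤ (2 ^ (k + 3) * (d + 1 + A)) * Z ^ (k + 1) := by
    calc 2 * (4 * (2 * Z) ^ k) * (d + 1 + A * Z)
        ≤ 2 * (4 * (2 * Z) ^ k) * ((d + 1 + A) * Z) := by
          apply Nat.mul_le_mul_left
          nlinarith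
      _ = (2 ^ (k + 3) * (d + 1 + A)) * Z ^ (k + 1) := by
          rw [mul_pow]; ring
  have h2 : (2 ^ (k + 3) * (d + 1 + A)) * Z ^ (k + 1) + X0 ≤ Z ^ (k + 2) := by
    have h3 : 1 ≤ Z ^ (k + 1) := Nat.one_le_pow _ _ hZ1
    calc (2 ^ (k + 3) * (d + 1 + A)) * Z ^ (k + 1) + X0
        ≤ (2 ^ (k + 3) * (d + 1 + A)) * Z ^ (k + 1) + X0 * Z ^ (k + 1) := by
          have := Nat.le_mul_of_pos_right X0 h3
          omega
      _ = (2 ^ (k + 3) * (d + 1 + A) + X0) * Z ^ (k + 1) := by ring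
      _ ≤ Z * Z ^ (k + 1) := Nat.mul_le_mul_right _ hZ
      _ = Z ^ (k + 2) := by ring
  omega

theorem key {d : ℕ} {S : Set ℕ} (hS : ∀ ℓ ∈ S, ℓ.Prime) (h : Fin (d + 1) → ℕ → ℕ)
    (hCM : ∀ j, CM (h j)) (hPer : ∀ j, Per S (h j)) (hlast : ∀ n, h (Fin.last d) n = n) (k : ℕ)
    (hfreq : ∃ᶠ Z : ℕ in atTop, Z ^ (k + 2) ≤ cntS S ((2 * Z) ^ ((d + 1) * k)))
    (P : Finset ℕ) (hP : ∀ p ∈ P, p.Prime) :
    ∃ u : Fin (d + 1) → ℤ, u ≠ 0 ∧
      Module.finrank ℚ (Submodule.span ℚ (Set.range (fun p : P => vec h u p))) ≤ k * 4 ^ d := by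
  classical
  set r := Fintype.card P with hr
  set A := ∏ p : P, ∏ j, h j p with hA
  set X0 := P.sup id with hX0
  set C1 := 2 ^ (k + 3) * (d + 1 + A) + X0 with hC1
  set C2 := (4 * (2 ^ r * ((d + 1) * (4 * 2 ^ k)))) ^ (4 ^ d) with hC2
  obtain ⟨Z, hZc, hZ⟩ := (hfreq.and_eventually (eventually_ge_atTop (C1 + C2 + 1))).exists
  have hZ1 : 1 ≤ Z := by omega
  set T := 4 * (2 * Z) ^ k with hT
  set X := (2 * Z) ^ ((d + 1) * k) with hX
  have hTpos : 1 ≤ T := by
    have : 0 < (2 * Z) ^ k := by positivity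
    omega
  have hpP : ∀ p : P, 0 < (p : ℕ) := fun p => (hP p p.2).pos
  have hhpos : ∀ (p : P) j, 0 < h j p := fun p j => (hCM j).pos p (hpP p)
  have hApos : 1 ≤ A := Finset.prod_pos fun p _ => Finset.prod_pos fun j _ => hhpos p j
  set I := ((Finset.Icc 1 X).filter (fun ℓ => ℓ ∈ S)).filter (fun ℓ => X0 < ℓ) with hI
  have hIcard : Z ^ (k + 2) ≤ I.card + X0 := by
    refine hZc.trans ?_
    unfold cntS
    rw [← Finset.card_filter_add_card_filter_not (s := (Finset.Icc 1 X).filter (fun ℓ => ℓ ∈ S))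
      (fun ℓ => X0 < ℓ)]
    apply Nat.add_le_add_left
    calc _ ≤ (Finset.Icc 1 X0).card := by
          apply Finset.card_le_card
          intro ℓ hℓ
          rw [Finset.mem_filter, Finset.mem_filter, Finset.mem_Icc] at hℓ
          rw [Finset.mem_Icc]
          omega
      _ = X0 := by simp
  have hnum := key_numeric (Z := Z) (k := k) (d := d) (A := A) (X0 := X0) (c := I.card)
    (by omega) hZ1 hIcard
  have hIS : ∀ ℓ ∈ I, ℓ ∈ S := fun ℓ hℓ => (Finset.mem_filter.1 (Finset.mem_filter.1 hℓ).1).2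
  have hIprime : ∀ ℓ ∈ I, ℓ.Prime := fun ℓ hℓ => hS ℓ (hIS ℓ hℓ)
  have hIX : ∀ ℓ ∈ I, ℓ ≤ X := fun ℓ hℓ =>
    (Finset.mem_Icc.1 (Finset.mem_filter.1 (Finset.mem_filter.1 hℓ).1).1).2
  have hIX0 : ∀ ℓ ∈ I, X0 < ℓ := fun ℓ hℓ => (Finset.mem_filter.1 hℓ).2
  have hIne : I.Nonempty := by
    rw [← Finset.card_pos]
    refine lt_of_lt_of_le ?_ hnum
    positivity
  have hTX : 4 * X ≤ T ^ (d + 1) := by
    have h4 : 4 ≤ 4 ^ (d + 1) := by
      calc 4 = 4 ^ 1 := by norm_num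
        _ ≤ 4 ^ (d + 1) := Nat.pow_le_pow_right (by norm_num) (by omega)
    calc 4 * X ≤ 4 ^ (d + 1) * X := Nat.mul_le_mul_right _ h4
      _ = T ^ (d + 1) := by
        rw [hT, hX, mul_pow 4 ((2 * Z) ^ k) (d + 1), ← pow_mul, mul_comm k (d + 1)]
  obtain ⟨Q, hQ0, hQdeg, hQv⟩ := exists_aux h hCM hPer I hIS hIprime hIne X T hIX hTX
  -- the points
  set c : P → Fin (d + 1) → ℕ := fun p j => h j p with hc
  set cq : P → Fin (d + 1) → ℚ := fun p j => (c p j : ℚ) with hcq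
  have hcq0 : ∀ p j, cq p j ≠ 0 := fun p j => by
    have := hhpos p j
    simp only [hcq, hc]
    positivity
  set box := Fintype.piFinset (fun _ : P => Finset.Icc (0 : ℤ) Z) with hbox
  have hboxcard : box.card = (Z + 1) ^ r := by
    rw [hbox, Fintype.card_piFinset]
    simp only [Int.card_Icc, Finset.prod_const, Finset.card_univ]
    congr 1
  have hboxmem : ∀ a ∈ box, ∀ p, 0 ≤ a p ∧ a p ≤ Z := fun a ha p =>
    Finset.mem_Icc.1 ((Fintype.mem_piFinset.1 ha) p)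
  have hv : ∀ a ∈ box, MvPolynomial.eval (pt cq a) Q = 0 := by
    intro a ha
    set n := ∏ p : P, (p : ℕ) ^ (a p).toNat with hn
    have hnpos : 0 < n := Finset.prod_pos fun p _ => pow_pos (hpP p) _
    have hhn : ∀ j, h j n = ∏ p : P, (h j p) ^ (a p).toNat := by
      intro j
      rw [hn, (hCM j).prod _ _ (fun p _ => pow_pos (hpP p) _)]
      exact Finset.prod_congr rfl fun p _ => (hCM j).pow (hpP p) _
    have hpt : pt cq a = fun j => (h j n : ℚ) := by
      ext j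
      rw [hhn j]
      unfold pt
      push_cast
      apply Finset.prod_congr rfl
      intro p _
      rw [← zpow_natCast, Int.toNat_of_nonneg (hboxmem a ha p).1]
    rw [hpt]
    apply hQv n hnpos
    · intro ℓ hℓ hdvd
      rw [hn] at hdvd
      obtain ⟨p, -, hp⟩ := (Prime.dvd_finsetProd_iff (hIprime ℓ hℓ).prime _).1 hdvd
      have h1 := (hIprime ℓ hℓ).dvd_of_dvd_pow hp
      have h2 := (Nat.prime_dvd_prime_iff_eq (hIprime ℓ hℓ) (hP p p.2)).1 h1
      have h3 : (p : ℕ) ≤ X0 := Finset.le_sup (f := id) p.2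
      have h4 := hIX0 ℓ hℓ
      omega
    · have hB : ∏ j, h j n ≤ A ^ Z := by
        calc ∏ j, h j n = ∏ p : P, ∏ j, (h j p) ^ (a p).toNat := by
              rw [Finset.prod_comm]
              exact Finset.prod_congr rfl fun j _ => hhn j
          _ ≤ ∏ p : P, ∏ j, (h j p) ^ Z := by
              apply Finset.prod_le_prod (fun _ _ => Nat.zero_le _)
              intro p _
              apply Finset.prod_le_prod (fun _ _ => Nat.zero_le _)
              intro j _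
              apply Nat.pow_le_pow_right (hhpos p j)
              have := (hboxmem a ha p).2
              omega
          _ = A ^ Z := by
              rw [hA, ← Finset.prod_pow]
              exact Finset.prod_congr rfl fun p _ => Finset.prod_pow _ _ _
      have h1 : T ^ (d + 1) ≤ 2 ^ (T * (d + 1)) := by
        rw [pow_mul]
        exact Nat.pow_le_pow_left (Nat.lt_two_pow_self).le _
      have h2 : (A ^ Z) ^ T ≤ 2 ^ (A * Z * T) := by
        rw [mul_assoc, pow_mul 2, ← pow_mul A]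
        exact Nat.pow_le_pow_left (Nat.lt_two_pow_self).le _
      calc (T ^ (d + 1) * (∏ j, h j n) ^ T) ^ 2
          ≤ (2 ^ (T * (d + 1)) * 2 ^ (A * Z * T)) ^ 2 := by
            apply Nat.pow_le_pow_left
            exact Nat.mul_le_mul h1 ((Nat.pow_le_pow_left hB T).trans h2)
        _ = 2 ^ (2 * T * (d + 1 + A * Z)) := by
            rw [← pow_add, ← pow_mul]
            congr 1
            ring
        _ ≤ 2 ^ I.card := Nat.pow_le_pow_right (by norm_num) hnum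
        _ = ∏ _ℓ ∈ I, 2 := by rw [Finset.prod_const]
        _ ≤ ∏ ℓ ∈ I, ℓ := Finset.prod_le_prod (fun _ _ => Nat.zero_le _)
            fun ℓ hℓ => (hIprime ℓ hℓ).two_le
  have hcardbox : (2 * Z + 1) ^ r ≤ 2 ^ r * box.card := by
    rw [hboxcard, ← mul_pow]
    apply Nat.pow_le_pow_left
    omega
  obtain ⟨u, G, hu, hGbox, hGchar, hGcard⟩ := zero_estimate d cq hcq0 (by
    intro b hb
    have h1 : ∏ p : P, ((p : ℕ) : ℚ) ^ b p = 1 := by
      rw [← hb]
      apply Finset.prod_congr rfl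
      intro p _
      simp only [hcq, hc]
      rw [hlast]
    exact primes_independent (fun p : P => (p : ℕ)) (fun p => hP p p.2)
      Subtype.val_injective b h1) Z ((d + 1) * T) (2 ^ r) box hboxmem hcardbox Q hQ0 hQdeg hv
  refine ⟨u, hu, ?_⟩
  have hrel : ∀ b ∈ G, ∑ p : P, (b p : ℚ) • vec h u p = 0 := fun b hb =>
    vec_of_char c hhpos u b (hGchar b hb)
  have hrank := card_le_of_rank (fun p : P => vec h u p) Z G hGbox hrel
  set ρ := Module.finrank ℚ (Submodule.span ℚ (Set.range (fun p : P => vec h u p))) with hρ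
  have hGpos : 0 < G.card := by
    apply pos_right (a := gz d (2 ^ r) ((d + 1) * T))
    exact lt_of_lt_of_le (by positivity) hGcard
  have h1 : (2 * Z + 1) ^ ρ ≤ gz d (2 ^ r) ((d + 1) * T) := by
    have h2 : G.card * (2 * Z + 1) ^ ρ ≤ G.card * gz d (2 ^ r) ((d + 1) * T) := by
      rw [mul_comm G.card (gz _ _ _)]
      exact hrank.trans hGcard
    exact Nat.le_of_mul_le_mul_left h2 hGpos
  have h2 : gz d (2 ^ r) ((d + 1) * T) ≤ C2 * Z ^ (k * 4 ^ d) := by
    refine (gz_le d _ _ (Nat.one_le_two_pow) (Nat.mul_pos (show 0 < d + 1 by omega) hTpos)).trans ?_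
    rw [hC2, pow_mul Z, ← mul_pow, hT, mul_pow 2 Z k]
    apply Nat.pow_le_pow_left
    apply le_of_eq
    ring
  by_contra hcon
  push Not at hcon
  have h3 : Z ^ (k * 4 ^ d) * Z ≤ C2 * Z ^ (k * 4 ^ d) := by
    calc Z ^ (k * 4 ^ d) * Z = Z ^ (k * 4 ^ d + 1) := (pow_succ _ _).symm
      _ ≤ Z ^ ρ := Nat.pow_le_pow_right hZ1 hcon
      _ ≤ (2 * Z + 1) ^ ρ := Nat.pow_le_pow_left (by omega) _
      _ ≤ _ := h1.trans h2
  have h4 : 0 < Z ^ (k * 4 ^ d) := by positivity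
  rw [mul_comm C2] at h3
  have := Nat.le_of_mul_le_mul_left h3 h4
  omega

end Pool.Agent.Lib.MP_c7ee41_nt
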