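import Mathlib
import Pool.Agent.Lib.MP_c7ee41_nt.Key

set_option autoImplicit false

/-!
# The exponent `κ` and the finite rank of `G n / n ^ κ`
-/

namespace Pool.Agent.Lib.MP_c7ee41_nt

open Filter

/-- the valuation vector of `G n / n ^ κ` -/
noncomputable def wv (G : ℕ → ℕ) (κ : ℚ) (n : ℕ) : ℕ →₀ ℚ := val (G n) - κ • val n

/-- the rank over a finite set -/
noncomputable def rk (G : ℕ → ℕ) (κ : ℚ) (P : Finset ℕ) : ℕ :=
  Module.finrank ℚ (Submodule.span ℚ (wv G κ '' (P : Set ℕ)))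

lemma finrank_primes (P : Finset ℕ) (hP : ∀ p ∈ P, p.Prime) :
    Module.finrank ℚ (Submodule.span ℚ (val '' (P : Set ℕ))) = P.card := by
  have h1 : val '' (P : Set ℕ) = Set.range (fun p : P => val p) := by
    ext x
    simp
  rw [h1]
  have h2 : LinearIndependent ℚ (fun p : P => val p) := by
    have h3 : (fun p : P => val p) = fun p : P => Finsupp.single (p : ℕ) (1 : ℚ) := by
      ext1 p
      exact val_prime (hP p p.2)
    rw [h3]
    have h4 := Finsupp.linearIndependent_single_one ℚ ℕ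
    exact h4.comp (fun p : P => (p : ℕ)) Subtype.val_injective
  rw [finrank_span_eq_card h2]
  simp

lemma span_finite (G : ℕ → ℕ) (κ : ℚ) (P : Finset ℕ) :
    Module.Finite ℚ (Submodule.span ℚ (wv G κ '' (P : Set ℕ))) := by
  have : (wv G κ '' (P : Set ℕ)).Finite := P.finite_toSet.image _
  exact FiniteDimensional.span_of_finite ℚ this

lemma rk_mono (G : ℕ → ℕ) (κ : ℚ) {P P' : Finset ℕ} (h : P ⊆ P') : rk G κ P ≤ rk G κ P' := by
  unfold rk
  have := span_finite G κ P'
  apply Submodule.finrank_mono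
  apply Submodule.span_mono
  exact Set.image_mono (by exact_mod_cast h)

lemma kappa_unique (G : ℕ → ℕ) {κ κ' : ℚ} (hne : κ ≠ κ') (P : Finset ℕ)
    (hP : ∀ p ∈ P, p.Prime) : P.card ≤ rk G κ P + rk G κ' P := by
  have := span_finite G κ P
  have := span_finite G κ' P
  have h1 : Submodule.span ℚ (val '' (P : Set ℕ)) ≤
      Submodule.span ℚ (wv G κ '' (P : Set ℕ)) ⊔ Submodule.span ℚ (wv G κ' '' (P : Set ℕ)) := by
    rw [Submodule.span_le]
    rintro x ⟨p, hp, rfl⟩
    have h2 : val p = (κ' - κ)⁻¹ • wv G κ p + (-(κ' - κ)⁻¹) • wv G κ' p := by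
      unfold wv
      have h3 : κ' - κ ≠ 0 := sub_ne_zero.2 hne.symm
      ext q
      simp only [Finsupp.add_apply, Finsupp.smul_apply, Finsupp.sub_apply, smul_eq_mul]
      field_simp
      ring
    rw [h2]
    apply Submodule.add_mem
    · exact Submodule.mem_sup_left (Submodule.smul_mem _ _ (Submodule.subset_span ⟨p, hp, rfl⟩))
    · exact Submodule.mem_sup_right (Submodule.smul_mem _ _ (Submodule.subset_span ⟨p, hp, rfl⟩))
  rw [← finrank_primes P hP]
  refine (Submodule.finrank_mono h1).trans ?_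
  exact Submodule.finrank_add_le_finrank_add_finrank _ _

/-- the common exponent -/
theorem exists_kappa {G : ℕ → ℕ} {s : ℕ}
    (hkey : ∀ P : Finset ℕ, (∀ p ∈ P, p.Prime) → ∃ u : Fin 2 → ℤ, u ≠ 0 ∧
      Module.finrank ℚ (Submodule.span ℚ
        (Set.range (fun p : P => vec ![G, fun n => n] u p))) ≤ s) :
    ∃ κ : ℚ, ∀ P : Finset ℕ, (∀ p ∈ P, p.Prime) → rk G κ P ≤ s := by
  classical
  -- for large `P` a suitable `κ` exists
  have h1 : ∀ P : Finset ℕ, (∀ p ∈ P, p.Prime) → s < P.card → ∃ κ : ℚ, rk G κ P ≤ s := by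
    intro P hP hcard
    obtain ⟨u, hu, hfin⟩ := hkey P hP
    have hvec : ∀ n, vec ![G, fun n => n] u n = (u 0 : ℚ) • val (G n) + (u 1 : ℚ) • val n := by
      intro n
      unfold vec
      rw [Fin.sum_univ_two]
      rfl
    have hu0 : u 0 ≠ 0 := by
      intro h0
      have hu1 : u 1 ≠ 0 := by
        intro h1
        apply hu
        ext j
        fin_cases j
        · exact h0
        · exact h1
      have h2 : Submodule.span ℚ (val '' (P : Set ℕ)) ≤ Submodule.span ℚ
          (Set.range (fun p : P => vec ![G, fun n => n] u p)) := by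
        rw [Submodule.span_le]
        rintro x ⟨p, hp, rfl⟩
        have h3 : val p = ((u 1 : ℚ))⁻¹ • vec ![G, fun n => n] u p := by
          rw [hvec, h0]
          have : (u 1 : ℚ) ≠ 0 := by exact_mod_cast hu1
          simp [smul_smul, this]
        rw [h3]
        exact Submodule.smul_mem _ _ (Submodule.subset_span ⟨⟨p, hp⟩, rfl⟩)
      have : Module.Finite ℚ (Submodule.span ℚ
          (Set.range (fun p : P => vec ![G, fun n => n] u p))) :=
        FiniteDimensional.span_of_finite ℚ (Set.finite_range _)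
      have h4 := Submodule.finrank_mono h2
      rw [finrank_primes P hP] at h4
      omega
    refine ⟨-(u 1 : ℚ) / u 0, ?_⟩
    have hu0' : (u 0 : ℚ) ≠ 0 := by exact_mod_cast hu0
    have h2 : Submodule.span ℚ (wv G (-(u 1 : ℚ) / u 0) '' (P : Set ℕ)) ≤ Submodule.span ℚ
          (Set.range (fun p : P => vec ![G, fun n => n] u p)) := by
      rw [Submodule.span_le]
      rintro x ⟨p, hp, rfl⟩
      have h3 : wv G (-(u 1 : ℚ) / u 0) p = ((u 0 : ℚ))⁻¹ • vec ![G, fun n => n] u p := by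
        rw [hvec]
        unfold wv
        ext q
        simp only [Finsupp.add_apply, Finsupp.smul_apply, Finsupp.sub_apply, smul_eq_mul]
        field_simp
        ring
      rw [h3]
      exact Submodule.smul_mem _ _ (Submodule.subset_span ⟨⟨p, hp⟩, rfl⟩)
    have : Module.Finite ℚ (Submodule.span ℚ
        (Set.range (fun p : P => vec ![G, fun n => n] u p))) :=
      FiniteDimensional.span_of_finite ℚ (Set.finite_range _)
    exact (Submodule.finrank_mono h2).trans hfin
  -- a fixed large set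
  obtain ⟨P₀, hP₀, hP₀card⟩ := Nat.infinite_setOfPred_prime.exists_subset_card_eq (2 * s + 1)
  have hP₀' : ∀ p ∈ P₀, p.Prime := fun p hp => hP₀ (by exact_mod_cast hp)
  obtain ⟨κ, hκ⟩ := h1 P₀ hP₀' (by omega)
  refine ⟨κ, fun P hP => ?_⟩
  have hP' : ∀ p ∈ P ∪ P₀, p.Prime := by
    intro p hp
    rcases Finset.mem_union.1 hp with h | h
    · exact hP p h
    · exact hP₀' p h
  have hsub : P₀ ⊆ P ∪ P₀ := Finset.subset_union_right
  obtain ⟨κ', hκ'⟩ := h1 (P ∪ P₀) hP' (by
    have := Finset.card_le_card hsub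
    omega)
  have heq : κ = κ' := by
    by_contra hne
    have h2 := kappa_unique G hne P₀ hP₀'
    have h3 := rk_mono G κ' hsub
    omega
  rw [heq]
  exact (rk_mono G κ' Finset.subset_union_left).trans hκ'

/-- there is a finite set of primes whose vectors span everything -/
lemma exists_span {G : ℕ → ℕ} {κ : ℚ} {s : ℕ}
    (hrk : ∀ P : Finset ℕ, (∀ p ∈ P, p.Prime) → rk G κ P ≤ s) :
    ∃ P : Finset ℕ, (∀ p ∈ P, p.Prime) ∧ ∀ p, p.Prime →
      wv G κ p ∈ Submodule.span ℚ (wv G κ '' (P : Set ℕ)) := by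
  classical
  set V : Set ℕ := {v | ∃ P : Finset ℕ, (∀ p ∈ P, p.Prime) ∧ rk G κ P = v} with hV
  have hfin : V.Finite := (Set.finite_Iic s).subset (by
    rintro v ⟨P, hP, rfl⟩
    exact hrk P hP)
  have hne : V.Nonempty := ⟨_, ∅, by simp, rfl⟩
  obtain ⟨v, ⟨P, hP, rfl⟩, hmax⟩ := Set.exists_max_image V (fun x => x) hfin hne
  refine ⟨P, hP, fun p hp => ?_⟩
  have hP' : ∀ q ∈ insert p P, q.Prime := by
    intro q hq
    rcases Finset.mem_insert.1 hq with h | h
    · rw [h]; exact hp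
    · exact hP q h
  have h1 : rk G κ (insert p P) ≤ rk G κ P := hmax _ ⟨_, hP', rfl⟩
  have hle : Submodule.span ℚ (wv G κ '' (P : Set ℕ)) ≤
      Submodule.span ℚ (wv G κ '' ((insert p P : Finset ℕ) : Set ℕ)) := by
    apply Submodule.span_mono
    exact Set.image_mono (by exact_mod_cast Finset.subset_insert p P)
  have := span_finite G κ (insert p P)
  have heq := Submodule.eq_of_le_of_finrank_le hle h1
  rw [heq]
  exact Submodule.subset_span ⟨p, by simp, rfl⟩

/-- `κ` is a natural number -/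
lemma kappa_nat {G : ℕ → ℕ} {κ : ℚ} {s : ℕ}
    (hrk : ∀ P : Finset ℕ, (∀ p ∈ P, p.Prime) → rk G κ P ≤ s) : ∃ K : ℕ, κ = K := by
  classical
  obtain ⟨P, hP, hspan⟩ := exists_span hrk
  set T : Finset ℕ := P.biUnion (fun p => (wv G κ p).support) with hT
  obtain ⟨p, hp, hpT⟩ := Nat.infinite_setOfPred_prime.exists_notMem_finset T
  have h1 : wv G κ p p = 0 := by
    have h2 : Submodule.span ℚ (wv G κ '' (P : Set ℕ)) ≤
        LinearMap.ker (Finsupp.lapply p : (ℕ →₀ ℚ) →ₗ[ℚ] ℚ) := by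
      rw [Submodule.span_le]
      rintro x ⟨q, hq, rfl⟩
      rw [SetLike.mem_coe, LinearMap.mem_ker, Finsupp.lapply_apply]
      by_contra h3
      apply hpT
      rw [hT, Finset.mem_biUnion]
      exact ⟨q, hq, Finsupp.mem_support_iff.2 h3⟩
    have h3 := h2 (hspan p hp)
    rwa [LinearMap.mem_ker, Finsupp.lapply_apply] at h3
  unfold wv at h1
  have hp' : p.Prime := hp
  rw [Finsupp.sub_apply, Finsupp.smul_apply, val_prime hp', Finsupp.single_eq_same, val_apply,
    smul_eq_mul, mul_one] at h1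
  exact ⟨(G p).factorization p, by linarith⟩

lemma wv_mul {G : ℕ → ℕ} (hG : CM G) (κ : ℚ) {m n : ℕ} (hm : 0 < m) (hn : 0 < n) :
    wv G κ (m * n) = wv G κ m + wv G κ n := by
  unfold wv
  rw [hG.mul m n hm hn, val_mul (hG.pos m hm).ne' (hG.pos n hn).ne', val_mul hm.ne' hn.ne',
    smul_add]
  abel

lemma wv_one {G : ℕ → ℕ} (hG : CM G) (κ : ℚ) : wv G κ 1 = 0 := by
  unfold wv
  rw [hG.one, val_one]
  simp

lemma wv_mem {G : ℕ → ℕ} (hG : CM G) {κ : ℚ} {W : Submodule ℚ (ℕ →₀ ℚ)} {n : ℕ} (hn : 0 < n)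
    (hW : ∀ p ∈ n.primeFactors, wv G κ p ∈ W) : wv G κ n ∈ W := by
  induction n using Nat.recOnMul with
  | zero => omega
  | one => rw [wv_one hG]; exact W.zero_mem
  | prime p hp => exact hW p (by rw [hp.primeFactors]; simp)
  | mul a b iha ihb =>
    have ha : 0 < a := Nat.pos_of_ne_zero (by rintro rfl; simp at hn)
    have hb : 0 < b := Nat.pos_of_ne_zero (by rintro rfl; simp at hn)
    rw [wv_mul hG κ ha hb]
    apply W.add_mem
    · exact iha ha fun p hp => hW p (by
        rw [Nat.primeFactors_mul ha.ne' hb.ne']; exact Finset.mem_union_left _ hp)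
    · exact ihb hb fun p hp => hW p (by
        rw [Nat.primeFactors_mul ha.ne' hb.ne']; exact Finset.mem_union_right _ hp)

/-- any `s + 1` numbers satisfy a relation, with coefficients not all divisible by `q` -/
lemma exists_relation {G : ℕ → ℕ} (hG : CM G) {κ : ℚ} {s : ℕ}
    (hrk : ∀ P : Finset ℕ, (∀ p ∈ P, p.Prime) → rk G κ P ≤ s) (m : Fin (s + 1) → ℕ)
    (hm : ∀ i, 0 < m i) :
    ∃ c : Fin (s + 1) → ℤ, (∑ i, (c i : ℚ) • wv G κ (m i) = 0) ∧
      ∀ q : ℕ, q.Prime → ∃ i, ¬ (q : ℤ) ∣ c i := by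
  classical
  set P : Finset ℕ := Finset.univ.biUnion (fun i => (m i).primeFactors) with hPdef
  have hP : ∀ p ∈ P, p.Prime := by
    intro p hp
    rw [hPdef, Finset.mem_biUnion] at hp
    obtain ⟨i, -, hi⟩ := hp
    exact Nat.prime_of_mem_primeFactors hi
  set W := Submodule.span ℚ (wv G κ '' (P : Set ℕ)) with hW
  have : Module.Finite ℚ W := span_finite G κ P
  have hmem : ∀ i, wv G κ (m i) ∈ W := fun i => wv_mem hG (hm i) fun p hp =>
    Submodule.subset_span ⟨p, by
      rw [Finset.mem_coe, hPdef, Finset.mem_biUnion]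
      exact ⟨i, Finset.mem_univ _, hp⟩, rfl⟩
  have hdep : ¬ LinearIndependent ℚ (fun i => (⟨wv G κ (m i), hmem i⟩ : W)) := by
    intro hli
    have h1 := hli.fintype_card_le_finrank
    have h2 := hrk P hP
    unfold rk at h2
    rw [Fintype.card_fin] at h1
    rw [← hW] at h2
    omega
  rw [Fintype.not_linearIndependent_iff] at hdep
  obtain ⟨g, hg, i₀, hi₀⟩ := hdep
  have hg' : ∑ i, g i • wv G κ (m i) = 0 := by
    have := congrArg (fun x : W => (x : ℕ →₀ ℚ)) hg
    simpa using this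
  -- clear denominators
  set den : ℕ := ∏ i, (g i).den with hden
  have hdenpos : 0 < den := Finset.prod_pos fun i _ => (g i).pos
  have hint : ∀ i, ∃ z : ℤ, (z : ℚ) = den * g i := by
    intro i
    have h1 : (g i).den ∣ den := Finset.dvd_prod_of_mem _ (Finset.mem_univ i)
    obtain ⟨e, he⟩ := h1
    refine ⟨e * (g i).num, ?_⟩
    rw [he]
    push_cast
    have h2 : ((g i).den : ℚ) * g i = (g i).num := Rat.den_mul_eq_num _
    linear_combination (-(e : ℚ)) * h2
  choose z hz using hint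
  have hz0 : z i₀ ≠ 0 := by
    intro h0
    have h1 := hz i₀
    rw [h0] at h1
    have h2 : (den : ℚ) * g i₀ ≠ 0 := mul_ne_zero (by exact_mod_cast hdenpos.ne') hi₀
    exact h2 (by rw [← h1]; simp)
  set δ := Finset.univ.gcd z with hδ
  have hδ0 : δ ≠ 0 := by
    intro h0
    rw [hδ, Finset.gcd_eq_zero_iff] at h0
    exact hz0 (h0 i₀ (Finset.mem_univ _))
  have hdvd : ∀ i, δ ∣ z i := fun i => Finset.gcd_dvd (Finset.mem_univ i)
  choose c hc using hdvd
  refine ⟨c, ?_, ?_⟩
  · have h1 : (δ : ℚ) • ∑ i, (c i : ℚ) • wv G κ (m i) = 0 := by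
      rw [Finset.smul_sum]
      have h2 : ∀ i, (δ : ℚ) • (c i : ℚ) • wv G κ (m i) = (den : ℚ) • g i • wv G κ (m i) := by
        intro i
        rw [smul_smul, smul_smul, ← hz i, hc i]
        push_cast
        rfl
      rw [Finset.sum_congr rfl fun i _ => h2 i, ← Finset.smul_sum, hg', smul_zero]
    rcases smul_eq_zero.1 h1 with h2 | h2
    · exact absurd (by exact_mod_cast h2) hδ0
    · exact h2
  · intro q hq
    by_contra hcon
    push Not at hcon
    have h1 : ∀ i ∈ Finset.univ, (δ * q : ℤ) ∣ z i := by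
      intro i _
      rw [hc i]
      exact mul_dvd_mul_left _ (hcon i)
    have h2 : (δ * q : ℤ) ∣ δ := by
      rw [hδ]
      exact Finset.dvd_gcd h1
    obtain ⟨e, he⟩ := h2
    have h3 : (q : ℤ) * e = 1 := by
      have : δ * (q * e) = δ * 1 := by rw [mul_one, ← mul_assoc]; exact he.symm
      exact mul_left_cancel₀ hδ0 this
    have h4 : (q : ℤ) ∣ 1 := ⟨e, h3.symm⟩
    have h5 : q ∣ 1 := by exact_mod_cast h4
    exact hq.one_lt.ne' (Nat.dvd_one.1 h5)

end Pool.Agent.Lib.MP_c7ee41_nt
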