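import Mathlib
import Pool.Agent.Lib.MP_c7ee41_nt.Kappa
import Pool.Agent.Lib.MP_c7ee41_nt.Group

set_option autoImplicit false

/-!
# Counting the primes of `S` by the image and the kernel of `G x / x ^ K`
-/

namespace Pool.Agent.Lib.MP_c7ee41_nt

open Filter

lemma val_prod {ι : Type*} (s : Finset ι) (f : ι → ℕ) (hf : ∀ i ∈ s, 0 < f i) :
    val (∏ i ∈ s, f i) = ∑ i ∈ s, val (f i) := by
  classical
  induction s using Finset.induction_on with
  | empty => simp [val_one]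
  | insert a s ha ih =>
    rw [Finset.prod_insert ha, Finset.sum_insert ha, val_mul (hf a (Finset.mem_insert_self _ _)).ne'
      (Finset.prod_pos fun i hi => hf i (Finset.mem_insert_of_mem hi)).ne',
      ih fun i hi => hf i (Finset.mem_insert_of_mem hi)]

lemma rel_nat {G : ℕ → ℕ} (hG : CM G) {K : ℕ} {ι : Type*} [Fintype ι] (c : ι → ℤ) (N : ι → ℕ)
    (hN : ∀ i, 0 < N i) (h : ∑ i, (c i : ℚ) • wv G (K : ℚ) (N i) = 0) :
    ∏ i, (G (N i)) ^ (c i).toNat * (N i ^ K) ^ (-c i).toNat =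
      ∏ i, (G (N i)) ^ (-c i).toNat * (N i ^ K) ^ (c i).toNat := by
  have hpos : ∀ (x y : ℕ) i, 0 < (G (N i)) ^ x * (N i ^ K) ^ y := fun x y i => by
    have h1 := hG.pos _ (hN i)
    have h2 := hN i
    positivity
  apply val_inj
  · exact (Finset.prod_pos fun i _ => hpos _ _ i).ne'
  · exact (Finset.prod_pos fun i _ => hpos _ _ i).ne'
  rw [val_prod _ _ fun i _ => hpos _ _ i, val_prod _ _ fun i _ => hpos _ _ i, ← sub_eq_zero,
    ← Finset.sum_sub_distrib, ← h]
  apply Finset.sum_congr rfl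
  intro i _
  have h1 := (hG.pos _ (hN i)).ne'
  have h2 : N i ^ K ≠ 0 := (pow_pos (hN i) K).ne'
  rw [val_mul (pow_ne_zero _ h1) (pow_ne_zero _ h2), val_mul (pow_ne_zero _ h1)
    (pow_ne_zero _ h2)]
  simp only [val_pow]
  unfold wv
  have h3 : (c i : ℚ) = ((c i).toNat : ℚ) - ((-c i).toNat : ℚ) := by
    have : c i = ((c i).toNat : ℤ) - ((-c i).toNat : ℤ) := by omega
    exact_mod_cast congrArg (Int.cast : ℤ → ℚ) this
  rw [h3]
  module

/-- each prime `q` divides the order of the image for at most `s` primes of `S` -/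
theorem five_a {S : Set ℕ} (hS : ∀ ℓ ∈ S, ℓ.Prime) {G : ℕ → ℕ} (hG : CM G) (hPer : Per S G)
    {K s : ℕ} (hrk : ∀ P : Finset ℕ, (∀ p ∈ P, p.Prime) → rk G (K : ℚ) P ≤ s) {q : ℕ}
    (hq : q.Prime) (L : Fin (s + 1) → ℕ) (hL : Function.Injective L) (hLS : ∀ i, L i ∈ S)
    (hn : ∀ i, ∃ n, 0 < n ∧ Nat.Coprime n (L i) ∧
      ∀ e, (G n) ^ e ≡ n ^ (K * e) [MOD (L i)] → q ∣ e) : False := by
  classical
  choose n hnpos hncop hne using hn
  have hLp : ∀ i, (L i).Prime := fun i => hS _ (hLS i)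
  have hcrt : ∀ i, ∃ N, 0 < N ∧ N ≡ n i [MOD L i] ∧ ∀ j, j ≠ i → N ≡ 1 [MOD L j] := by
    intro i
    have hpw : Set.Pairwise (↑(Finset.univ : Finset (Fin (s + 1))))
        (Function.onFun Nat.Coprime L) := by
      intro j _ j' _ hjj
      exact (Nat.coprime_primes (hLp j) (hLp j')).2 (fun h => hjj (hL h))
    obtain ⟨N, hN⟩ := Nat.chineseRemainderOfFinset (fun j => if j = i then n i else 1) L
      Finset.univ (fun j _ => (hLp j).ne_zero) hpw
    have hNi : N ≡ n i [MOD L i] := by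
      have := hN i (Finset.mem_univ _)
      simpa using this
    refine ⟨N, ?_, hNi, ?_⟩
    · rcases Nat.eq_zero_or_pos N with h0 | h0
      · exfalso
        rw [h0] at hNi
        have h1 : L i ∣ n i := (Nat.modEq_zero_iff_dvd).1 hNi.symm
        have h2 := Nat.Coprime.eq_one_of_dvd (hncop i).symm h1
        exact (hLp i).ne_one h2
      · exact h0
    · intro j hj
      have := hN j (Finset.mem_univ _)
      simpa [hj] using this
  choose N hNpos hNi hNj using hcrt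
  obtain ⟨c, hc, hcq⟩ := exists_relation hG hrk N hNpos
  obtain ⟨i₀, hi₀⟩ := hcq q hq
  have hrel := rel_nat hG c N hNpos hc
  set ℓ := L i₀ with hℓ
  have hother : ∀ (x y : ℕ), ∀ i, i ≠ i₀ → (G (N i)) ^ x * (N i ^ K) ^ y ≡ 1 [MOD ℓ] := by
    intro x y i hi
    have h1 : N i ≡ 1 [MOD ℓ] := hNj i i₀ hi.symm
    have h2 : G (N i) ≡ 1 [MOD ℓ] := by
      have := hPer ℓ (hLS i₀) _ _ (hNpos i) one_pos h1
      rwa [hG.one] at this
    have h3 := (h2.pow x).mul ((h1.pow K).pow y)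
    simpa using h3
  have hprod : ∀ (x y : Fin (s + 1) → ℕ), ∏ i, (G (N i)) ^ x i * (N i ^ K) ^ y i ≡
      (G (N i₀)) ^ x i₀ * (N i₀ ^ K) ^ y i₀ [MOD ℓ] := by
    intro x y
    rw [← Finset.mul_prod_erase Finset.univ _ (Finset.mem_univ i₀)]
    have h1 : ∏ i ∈ Finset.univ.erase i₀, (G (N i)) ^ x i * (N i ^ K) ^ y i ≡ 1 [MOD ℓ] := by
      have h2 : ∏ i ∈ Finset.univ.erase i₀, (G (N i)) ^ x i * (N i ^ K) ^ y i ≡
          ∏ _i ∈ Finset.univ.erase i₀, 1 [MOD ℓ] := by
        apply Nat.ModEq.prod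
        intro i hi
        exact hother _ _ i (Finset.ne_of_mem_erase hi)
      simpa using h2
    have h3 := h1.mul_left ((G (N i₀)) ^ x i₀ * (N i₀ ^ K) ^ y i₀)
    rwa [mul_one] at h3
  have hmain : (G (N i₀)) ^ (c i₀).toNat * (N i₀ ^ K) ^ (-c i₀).toNat ≡
      (G (N i₀)) ^ (-c i₀).toNat * (N i₀ ^ K) ^ (c i₀).toNat [MOD ℓ] := by
    have h1 := hprod (fun i => (c i).toNat) (fun i => (-c i).toNat)
    have h2 := hprod (fun i => (-c i).toNat) (fun i => (c i).toNat)
    rw [hrel] at h1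
    exact h1.symm.trans h2
  have hmain2 : (G (N i₀)) ^ (c i₀).natAbs ≡ (N i₀ ^ K) ^ (c i₀).natAbs [MOD ℓ] := by
    rcases le_total 0 (c i₀) with h | h
    · have e1 : (c i₀).toNat = (c i₀).natAbs := by omega
      have e2 : (-c i₀).toNat = 0 := by omega
      rw [e1, e2] at hmain
      simpa using hmain
    · have e1 : (-c i₀).toNat = (c i₀).natAbs := by omega
      have e2 : (c i₀).toNat = 0 := by omega
      rw [e1, e2] at hmain
      simpa using hmain.symm
  have h1 : (G (n i₀)) ^ (c i₀).natAbs ≡ (n i₀) ^ (K * (c i₀).natAbs) [MOD ℓ] := by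
    have h2 := hPer ℓ (hLS i₀) _ _ (hNpos i₀) (hnpos i₀) (hNi i₀)
    rw [pow_mul]
    exact ((h2.pow _).symm.trans hmain2).trans (((hNi i₀).pow K).pow _)
  have h2 := hne i₀ _ h1
  apply hi₀
  exact Int.natCast_dvd.2 h2

/-- counting by the image -/
theorem count_a {S : Set ℕ} (hS : ∀ ℓ ∈ S, ℓ.Prime) {G : ℕ → ℕ} (hG : CM G) (hPer : Per S G)
    {K s : ℕ} (hrk : ∀ P : Finset ℕ, (∀ p ∈ P, p.Prime) → rk G (K : ℚ) P ≤ s) (D : ℕ → ℕ)
    (hD : ∀ ℓ ∈ S, ∀ q, q.Prime → q ∣ D ℓ → ∃ n, 0 < n ∧ Nat.Coprime n ℓ ∧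
        ∀ e, (G n) ^ e ≡ n ^ (K * e) [MOD ℓ] → q ∣ e) (E : Finset ℕ) (Y : ℕ)
    (hES : ∀ ℓ ∈ E, ℓ ∈ S) (hE1 : ∀ ℓ ∈ E, D ℓ ≠ 1) (hE0 : ∀ ℓ ∈ E, 0 < D ℓ)
    (hEY : ∀ ℓ ∈ E, D ℓ ≤ Y) : E.card ≤ s * (Y + 1) := by
  classical
  have h1 : ∀ q ∈ E.image (fun ℓ => (D ℓ).minFac), {ℓ ∈ E | (D ℓ).minFac = q}.card ≤ s := by
    intro q hq
    by_contra hcon
    push Not at hcon
    obtain ⟨t, htsub, htcard⟩ := Finset.exists_subset_card_eq (show s + 1 ≤ _ from hcon)
    rw [Finset.mem_image] at hq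
    obtain ⟨ℓ₀, hℓ₀, hq0⟩ := hq
    have hqp : q.Prime := by rw [← hq0]; exact Nat.minFac_prime (hE1 ℓ₀ hℓ₀)
    have hmem : ∀ i, t.orderEmbOfFin htcard i ∈ t := fun i => Finset.orderEmbOfFin_mem t htcard i
    have hmem' : ∀ i, t.orderEmbOfFin htcard i ∈ E ∧
        (D (t.orderEmbOfFin htcard i)).minFac = q := fun i =>
      Finset.mem_filter.1 (htsub (hmem i))
    exact five_a hS hG hPer hrk hqp (fun i => t.orderEmbOfFin htcard i)
      (t.orderEmbOfFin htcard).injective (fun i => hES _ (hmem' i).1)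
      (fun i => hD _ (hES _ (hmem' i).1) q hqp (by
        rw [← (hmem' i).2]
        exact Nat.minFac_dvd _))
  calc E.card ≤ s * (E.image (fun ℓ => (D ℓ).minFac)).card :=
        Finset.card_le_mul_card_image E s h1
    _ ≤ s * (Finset.range (Y + 1)).card := by
        apply Nat.mul_le_mul_left
        apply Finset.card_le_card
        intro q hq
        rw [Finset.mem_image] at hq
        obtain ⟨ℓ, hℓ, rfl⟩ := hq
        rw [Finset.mem_range]
        have := Nat.minFac_le (hE0 ℓ hℓ)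
        have := hEY ℓ hℓ
        omega
    _ = s * (Y + 1) := by rw [Finset.card_range]

lemma card_primeFactors_le {n e : ℕ} (hn : n ≠ 0) (h : n ≤ 2 ^ e) : n.primeFactors.card ≤ e := by
  have h1 : 2 ^ n.primeFactors.card ≤ 2 ^ e := by
    calc 2 ^ n.primeFactors.card = ∏ _p ∈ n.primeFactors, 2 := by rw [Finset.prod_const]
      _ ≤ ∏ p ∈ n.primeFactors, p := Finset.prod_le_prod (fun _ _ => Nat.zero_le _)
          fun p hp => (Nat.prime_of_mem_primeFactors hp).two_le
      _ ≤ n := Nat.le_of_dvd (Nat.pos_of_ne_zero hn) (Nat.prod_primeFactors_dvd n)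
      _ ≤ 2 ^ e := h
  exact (Nat.pow_le_pow_iff_right (by norm_num)).1 h1

/-- counting by the kernel -/
theorem count_b {k : ℕ} (a b : Fin k → ℕ) (ha : ∀ i, 0 < a i) (hb : ∀ i, 0 < b i)
    (hind : ∀ γ : Fin k → ℤ, γ ≠ 0 → (∏ i, a i ^ (γ i).toNat * b i ^ (-γ i).toNat) ≠
      (∏ i, a i ^ (-γ i).toNat * b i ^ (γ i).toNat)) (M : ℕ) (E : Finset ℕ)
    (hEp : ∀ ℓ ∈ E, ℓ.Prime)
    (hE : ∀ ℓ ∈ E, ∃ γ : Fin k → ℤ, γ ≠ 0 ∧ (∀ i, -(M : ℤ) ≤ γ i ∧ γ i ≤ M) ∧
          (∏ i, a i ^ (γ i).toNat * b i ^ (-γ i).toNat) ≡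
            (∏ i, a i ^ (-γ i).toNat * b i ^ (γ i).toNat) [MOD ℓ]) :
    E.card ≤ (2 * M + 1) ^ k * ((∏ i, a i * b i) * M) := by
  classical
  set C := ∏ i, a i * b i with hC
  set A : (Fin k → ℤ) → ℕ := fun γ => ∏ i, a i ^ (γ i).toNat * b i ^ (-γ i).toNat with hA
  set B : (Fin k → ℤ) → ℕ := fun γ => ∏ i, a i ^ (-γ i).toNat * b i ^ (γ i).toNat with hB
  set Δ : (Fin k → ℤ) → ℕ := fun γ => ((A γ : ℤ) - B γ).natAbs with hΔ
  set box := Fintype.piFinset (fun _ : Fin k => Finset.Icc (-(M : ℤ)) M) with hbox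
  set box' := box.filter (fun γ => γ ≠ 0) with hbox'
  have hle : ∀ γ ∈ box, A γ ≤ C ^ M ∧ B γ ≤ C ^ M := by
    intro γ hγ
    have h1 : ∀ i, -(M : ℤ) ≤ γ i ∧ γ i ≤ M := fun i =>
      Finset.mem_Icc.1 ((Fintype.mem_piFinset.1 hγ) i)
    constructor
    · rw [hC, ← Finset.prod_pow]
      apply Finset.prod_le_prod (fun _ _ => Nat.zero_le _)
      intro i _
      rw [mul_pow]
      apply Nat.mul_le_mul
      · exact Nat.pow_le_pow_right (ha i) (by have := h1 i; omega)
      · exact Nat.pow_le_pow_right (hb i) (by have := h1 i; omega)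
    · rw [hC, ← Finset.prod_pow]
      apply Finset.prod_le_prod (fun _ _ => Nat.zero_le _)
      intro i _
      rw [mul_pow]
      apply Nat.mul_le_mul
      · exact Nat.pow_le_pow_right (ha i) (by have := h1 i; omega)
      · exact Nat.pow_le_pow_right (hb i) (by have := h1 i; omega)
  have hsub : E ⊆ box'.biUnion (fun γ => (Δ γ).primeFactors) := by
    intro ℓ hℓ
    obtain ⟨γ, hγ0, hγbox, hγ⟩ := hE ℓ hℓ
    rw [Finset.mem_biUnion]
    refine ⟨γ, ?_, ?_⟩
    · rw [hbox', Finset.mem_filter, hbox, Fintype.mem_piFinset]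
      exact ⟨fun i => Finset.mem_Icc.2 (hγbox i), hγ0⟩
    · rw [Nat.mem_primeFactors]
      refine ⟨hEp ℓ hℓ, ?_, ?_⟩
      · have h1 : (ℓ : ℤ) ∣ (A γ : ℤ) - B γ := by
          have := (Nat.modEq_iff_dvd.1 hγ)
          have h2 := (dvd_neg (a := (ℓ : ℤ))).2 this
          rwa [neg_sub] at h2
        exact Int.natCast_dvd.1 h1
      · have := hind γ hγ0
        intro h0
        apply this
        have h1 : (A γ : ℤ) - B γ = 0 := Int.natAbs_eq_zero.1 h0
        have h2 : A γ = B γ := by omega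
        exact h2
  calc E.card ≤ (box'.biUnion (fun γ => (Δ γ).primeFactors)).card := Finset.card_le_card hsub
    _ ≤ box'.card * (C * M) := by
        apply Finset.card_biUnion_le_card_mul
        intro γ hγ
        rw [hbox', Finset.mem_filter] at hγ
        have h0 := hind γ hγ.2
        apply card_primeFactors_le
        · intro h1
          apply h0
          have h2 : (A γ : ℤ) - B γ = 0 := Int.natAbs_eq_zero.1 h1
          have h3 : A γ = B γ := by omega
          exact h3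
        · have h2 := hle γ hγ.1
          have h3 : Δ γ ≤ C ^ M := by
            have : Δ γ ≤ max (A γ) (B γ) := by
              simp only [hΔ]
              omega
            exact this.trans (max_le h2.1 h2.2)
          calc Δ γ ≤ C ^ M := h3
            _ ≤ (2 ^ C) ^ M := Nat.pow_le_pow_left (Nat.lt_two_pow_self).le _
            _ = 2 ^ (C * M) := by rw [← pow_mul]
    _ ≤ (2 * M + 1) ^ k * (C * M) := by
        apply Nat.mul_le_mul_right
        calc box'.card ≤ box.card := Finset.card_filter_le _ _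
          _ = (2 * M + 1) ^ k := by rw [hbox, card_box, Fintype.card_fin]

/-- `k` independent elements of the kernel of `G n / n ^ K` -/
theorem exists_pairs {G : ℕ → ℕ} (hG : CM G) {K s : ℕ}
    (hrk : ∀ P : Finset ℕ, (∀ p ∈ P, p.Prime) → rk G (K : ℚ) P ≤ s) (k : ℕ) :
    ∃ a b : Fin k → ℕ, (∀ i, 0 < a i) ∧ (∀ i, 0 < b i) ∧
      (∀ i, G (a i) * b i ^ K = G (b i) * a i ^ K) ∧
      ∀ γ : Fin k → ℤ, γ ≠ 0 → (∏ i, a i ^ (γ i).toNat * b i ^ (-γ i).toNat) ≠
      (∏ i, a i ^ (-γ i).toNat * b i ^ (γ i).toNat) := by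
  classical
  set p : Fin k → Fin (s + 1) → ℕ := fun i j => Nat.nth Nat.Prime (i * (s + 1) + j) with hp
  have hprime : ∀ i j, (p i j).Prime := fun i j => Nat.prime_nth_prime _
  have hinj : Function.Injective (fun x : Fin k × Fin (s + 1) => p x.1 x.2) := by
    rintro ⟨i, j⟩ ⟨i', j'⟩ h
    have h1 : (i : ℕ) * (s + 1) + j = i' * (s + 1) + j' :=
      Nat.nth_injective Nat.infinite_setOfPred_prime h
    have hj := j.2
    have hj' := j'.2
    have h2 : (i : ℕ) = i' := by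
      have e1 : ((i : ℕ) * (s + 1) + j) / (s + 1) = i := by
        rw [mul_comm, Nat.mul_add_div (by omega), Nat.div_eq_of_lt hj, add_zero]
      have e2 : ((i' : ℕ) * (s + 1) + j') / (s + 1) = i' := by
        rw [mul_comm, Nat.mul_add_div (by omega), Nat.div_eq_of_lt hj', add_zero]
      rw [← e1, h1, e2]
    have h3 : (j : ℕ) = j' := by
      rw [h2] at h1
      omega
    ext
    · exact h2
    · exact h3
  have hrel : ∀ i, ∃ c : Fin (s + 1) → ℤ, (∑ j, (c j : ℚ) • wv G (K : ℚ) (p i j) = 0) ∧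
      ∃ j, c j ≠ 0 := by
    intro i
    obtain ⟨c, hc, hcq⟩ := exists_relation hG hrk (p i) (fun j => (hprime i j).pos)
    obtain ⟨j, hj⟩ := hcq 2 Nat.prime_two
    refine ⟨c, hc, j, ?_⟩
    intro h0
    apply hj
    rw [h0]
    exact dvd_zero _
  choose c hc hc0 using hrel
  set a : Fin k → ℕ := fun i => ∏ j, p i j ^ (c i j).toNat with ha
  set b : Fin k → ℕ := fun i => ∏ j, p i j ^ (-c i j).toNat with hb
  have hapos : ∀ i, 0 < a i := fun i => Finset.prod_pos fun j _ => pow_pos (hprime i j).pos _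
  have hbpos : ∀ i, 0 < b i := fun i => Finset.prod_pos fun j _ => pow_pos (hprime i j).pos _
  refine ⟨a, b, hapos, hbpos, ?_, ?_⟩
  · intro i
    have h1 := rel_nat hG (c i) (p i) (fun j => (hprime i j).pos) (hc i)
    have h2 : ∀ (x : Fin (s + 1) → ℕ), G (∏ j, p i j ^ x j) = ∏ j, G (p i j) ^ x j := by
      intro x
      rw [hG.prod _ _ fun j _ => pow_pos (hprime i j).pos _]
      exact Finset.prod_congr rfl fun j _ => hG.pow (hprime i j).pos _
    have h3 : ∀ (x : Fin (s + 1) → ℕ), (∏ j, p i j ^ x j) ^ K = ∏ j, (p i j ^ K) ^ x j := by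
      intro x
      rw [← Finset.prod_pow]
      exact Finset.prod_congr rfl fun j _ => by rw [← pow_mul, ← pow_mul, mul_comm]
    simp only [ha, hb, h2, h3]
    rw [← Finset.prod_mul_distrib, ← Finset.prod_mul_distrib]
    exact h1
  · intro γ hγ hcon
    apply hγ
    have hpow : ∀ (x z : ℚ), x ≠ 0 → z ≠ 0 → ∀ (g : ℤ), (x / z) ^ g =
          (x ^ g.toNat * z ^ (-g).toNat) / (x ^ (-g).toNat * z ^ g.toNat) := by
      intro x z hx hz g
      rcases le_total 0 g with h | h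
      · obtain ⟨n, rfl⟩ := Int.eq_ofNat_of_zero_le h
        have e1 : (-(n : ℤ)).toNat = 0 := by omega
        have e2 : ((n : ℤ)).toNat = n := by omega
        rw [e1, e2, zpow_natCast, div_pow, pow_zero, pow_zero, mul_one, one_mul]
      · obtain ⟨n, hn⟩ := Int.eq_ofNat_of_zero_le (show 0 ≤ -g by omega)
        have hg : g = -(n : ℤ) := by omega
        have e1 : (-g).toNat = n := by omega
        have e2 : g.toNat = 0 := by omega
        rw [e1, e2, hg, zpow_neg, zpow_natCast, div_pow, pow_zero, pow_zero, mul_one, one_mul,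
          inv_div]
    have h1 : ∏ i, ((a i : ℚ) / b i) ^ γ i = 1 := by
      have h2 : ∀ i, ((a i : ℚ) / b i) ^ γ i =
          ((a i : ℚ) ^ (γ i).toNat * (b i : ℚ) ^ (-γ i).toNat) /
            ((a i : ℚ) ^ (-γ i).toNat * (b i : ℚ) ^ (γ i).toNat) := fun i => hpow _ _
        (by exact_mod_cast (hapos i).ne') (by exact_mod_cast (hbpos i).ne') _
      rw [Finset.prod_congr rfl fun i _ => h2 i, Finset.prod_div_distrib]
      have h3 := congrArg (Nat.cast : ℕ → ℚ) hcon
      push_cast at h3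
      rw [h3, div_self]
      apply Finset.prod_ne_zero_iff.2
      intro i _
      have h4 := hapos i
      have h5 := hbpos i
      positivity
    have h2 : ∏ x : Fin k × Fin (s + 1), ((p x.1 x.2 : ℕ) : ℚ) ^ (c x.1 x.2 * γ x.1) = 1 := by
      rw [Fintype.prod_prod_type, ← h1]
      apply Finset.prod_congr rfl
      intro i _
      have h3 : (a i : ℚ) / b i = ∏ j, ((p i j : ℕ) : ℚ) ^ c i j := by
        simp only [ha, hb]
        push_cast
        rw [← Finset.prod_div_distrib]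
        apply Finset.prod_congr rfl
        intro j _
        have hp0 : ((p i j : ℕ) : ℚ) ≠ 0 := by exact_mod_cast (hprime i j).ne_zero
        rw [← zpow_natCast, ← zpow_natCast, ← zpow_sub₀ hp0]
        congr 1
        omega
      rw [h3, ← Finset.prod_zpow]
      exact Finset.prod_congr rfl fun j _ => by rw [zpow_mul]
    have h3 := primes_independent (fun x : Fin k × Fin (s + 1) => p x.1 x.2)
      (fun x => hprime _ _) hinj _ h2
    ext i
    obtain ⟨j, hj⟩ := hc0 i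
    have h4 := congrFun h3 (i, j)
    simp only [Pi.zero_apply] at h4
    rcases mul_eq_zero.1 h4 with h5 | h5
    · exact absurd h5 hj
    · exact h5

end Pool.Agent.Lib.MP_c7ee41_nt
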