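import Mathlib
import Pool.Agent.Lib.MP_c7ee41_nt.Count

set_option autoImplicit false

/-!
# The half power theorem for positive completely multiplicative functions
-/

namespace Pool.Agent.Lib.MP_c7ee41_nt

open Filter

lemma final_numeric {k Z s C c0 c : ℕ} (hZ : 1 ≤ Z)
    (hZ2 : c0 + C + 5 ^ k * (C * 2) + s * (2 ^ k + 1) < Z)
    (hc : c ≤ c0 + C + (2 * (2 * Z) + 1) ^ k * (C * (2 * Z)) + s * ((2 * Z) ^ k + 1)) :
    c < Z ^ (k + 2) := by
  have h1 : 1 ≤ Z ^ k := Nat.one_le_pow _ _ hZ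
  have h2 : (2 * (2 * Z) + 1) ^ k ≤ 5 ^ k * Z ^ k := by
    rw [← mul_pow]
    exact Nat.pow_le_pow_left (by omega) k
  have h3 : (2 * (2 * Z) + 1) ^ k * (C * (2 * Z)) ≤ 5 ^ k * (C * 2) * Z ^ (k + 1) := by
    calc (2 * (2 * Z) + 1) ^ k * (C * (2 * Z)) ≤ 5 ^ k * Z ^ k * (C * (2 * Z)) :=
          Nat.mul_le_mul_right _ h2
      _ = 5 ^ k * (C * 2) * Z ^ (k + 1) := by ring
  have h4 : Z ^ k ≤ Z ^ (k + 1) := Nat.pow_le_pow_right hZ (by omega)
  have h5 : s * ((2 * Z) ^ k + 1) ≤ s * (2 ^ k + 1) * Z ^ (k + 1) := by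
    rw [mul_assoc]
    apply Nat.mul_le_mul_left
    rw [mul_pow]
    nlinarith [Nat.one_le_two_pow (n := k)]
  have h6 : c0 + C ≤ (c0 + C) * Z ^ (k + 1) := Nat.le_mul_of_pos_right _ (by positivity)
  calc c ≤ (c0 + C) * Z ^ (k + 1) + 5 ^ k * (C * 2) * Z ^ (k + 1) +
        s * (2 ^ k + 1) * Z ^ (k + 1) := by omega
    _ = (c0 + C + 5 ^ k * (C * 2) + s * (2 ^ k + 1)) * Z ^ (k + 1) := by ring
    _ < Z * Z ^ (k + 1) := Nat.mul_lt_mul_of_pos_right hZ2 (by positivity)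
    _ = Z ^ (k + 2) := by ring

theorem main_G {S : Set ℕ} (hS : ∀ ℓ ∈ S, ℓ.Prime) {G : ℕ → ℕ} (hG : CM G) (hPer : Per S G)
    (k : ℕ) (hfreq : ∃ᶠ Z : ℕ in atTop, Z ^ (k + 2) ≤ cntS S ((2 * Z) ^ (2 * k))) :
    ∃ K : ℕ, ∀ n, 0 < n → G n = n ^ K := by
  classical
  obtain ⟨κ, hκ⟩ := exists_kappa (G := G) (s := k * 4 ^ 1) (fun P hP =>
    key hS ![G, fun n => n] (by
      intro j
      fin_cases j
      · exact hG
      · exact CM.id) (by
      intro j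
      fin_cases j
      · exact hPer
      · exact Per.id S) (fun n => rfl) k hfreq P hP)
  set s := k * 4 ^ 1 with hs
  obtain ⟨K, rfl⟩ := kappa_nat hκ
  refine ⟨K, ?_⟩
  have hex : ∀ ℓ, ∃ D m : ℕ, ℓ ∈ S → 0 < D ∧ D * m = ℓ - 1 ∧
      (D = 1 → ∀ n, 0 < n → Nat.Coprime n ℓ → G n ≡ n ^ K [MOD ℓ]) ∧
      (∀ q, q.Prime → q ∣ D → ∃ n, 0 < n ∧ Nat.Coprime n ℓ ∧
        ∀ e, (G n) ^ e ≡ n ^ (K * e) [MOD ℓ] → q ∣ e) ∧
      (∀ (k M : ℕ) (a b : Fin k → ℕ), (∀ i, 0 < a i) → (∀ i, 0 < b i) →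
        (∀ i, Nat.Coprime (a i) ℓ) → (∀ i, Nat.Coprime (b i) ℓ) →
        (∀ i, G (a i) * b i ^ K = G (b i) * a i ^ K) → m < M ^ k →
        ∃ γ : Fin k → ℤ, γ ≠ 0 ∧ (∀ i, -(M : ℤ) ≤ γ i ∧ γ i ≤ M) ∧
          (∏ i, a i ^ (γ i).toNat * b i ^ (-γ i).toNat) ≡
            (∏ i, a i ^ (-γ i).toNat * b i ^ (γ i).toNat) [MOD ℓ]) := by
    intro ℓ
    by_cases hℓ : ℓ ∈ S
    · obtain ⟨D, m, h⟩ := exists_Dm hG hPer K hℓ (hS ℓ hℓ)
      exact ⟨D, m, fun _ => h⟩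
    · exact ⟨0, 0, fun h => absurd h hℓ⟩
  choose D m hDm using hex
  by_cases hinf : {ℓ ∈ S | D ℓ = 1}.Infinite
  · intro n hn
    obtain ⟨ℓ, ⟨hℓS, hℓD⟩, hlt⟩ := hinf.exists_gt (n + G n + n ^ K)
    have hp := hS ℓ hℓS
    have hc : Nat.Coprime n ℓ := by
      rw [Nat.coprime_comm, Nat.Prime.coprime_iff_not_dvd hp]
      intro hd
      have := Nat.le_of_dvd hn hd
      omega
    exact Nat.ModEq.eq_of_lt_of_lt ((hDm ℓ hℓS).2.2.1 hℓD n hn hc) (by omega) (by omega)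
  · exfalso
    rw [Set.not_infinite] at hinf
    set F0 := hinf.toFinset with hF0
    obtain ⟨a, b, ha, hb, hab, hind⟩ := exists_pairs hG hκ k
    set C := ∏ i, a i * b i with hC
    have hCpos : 0 < C := Finset.prod_pos fun i _ => Nat.mul_pos (ha i) (hb i)
    obtain ⟨Z, hZc, hZ⟩ := (hfreq.and_eventually (eventually_ge_atTop
      (F0.card + C + 5 ^ k * (C * 2) + s * (2 ^ k + 1) + 1))).exists
    have hZ1 : 1 ≤ Z := by omega
    set X := (2 * Z) ^ (2 * k) with hX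
    set E := (Finset.Icc 1 X).filter (fun ℓ => ℓ ∈ S) with hE
    have hES : ∀ ℓ ∈ E, ℓ ∈ S := fun ℓ hℓ => (Finset.mem_filter.1 hℓ).2
    have hEX : ∀ ℓ ∈ E, ℓ ≤ X := fun ℓ hℓ => (Finset.mem_Icc.1 (Finset.mem_filter.1 hℓ).1).2
    set E1 := E.filter (fun ℓ => D ℓ = 1) with hE1
    set E2 := E.filter (fun ℓ => ℓ ∣ C) with hE2
    set E3 := E.filter (fun ℓ => m ℓ < (2 * Z) ^ k ∧ ¬ ℓ ∣ C) with hE3
    set E4 := E.filter (fun ℓ => D ℓ ≠ 1 ∧ D ℓ ≤ (2 * Z) ^ k) with hE4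
    have hcover : E ⊆ ((E1 ∪ E2) ∪ E3) ∪ E4 := by
      intro ℓ hℓ
      by_cases h1 : D ℓ = 1
      · exact Finset.mem_union_left _ (Finset.mem_union_left _ (Finset.mem_union_left _
          (Finset.mem_filter.2 ⟨hℓ, h1⟩)))
      by_cases h2 : ℓ ∣ C
      · exact Finset.mem_union_left _ (Finset.mem_union_left _ (Finset.mem_union_right _
          (Finset.mem_filter.2 ⟨hℓ, h2⟩)))
      by_cases h3 : m ℓ < (2 * Z) ^ k
      · exact Finset.mem_union_left _ (Finset.mem_union_right _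
          (Finset.mem_filter.2 ⟨hℓ, h3, h2⟩))
      · apply Finset.mem_union_right
        refine Finset.mem_filter.2 ⟨hℓ, h1, ?_⟩
        push Not at h3
        have h4 := (hDm ℓ (hES ℓ hℓ)).2.1
        have h5 := hEX ℓ hℓ
        have h6 := (hS ℓ (hES ℓ hℓ)).pos
        by_contra h7
        push Not at h7
        have h8 : (2 * Z) ^ k * (2 * Z) ^ k ≤ D ℓ * m ℓ := Nat.mul_le_mul h7.le h3
        have h9 : (2 * Z) ^ k * (2 * Z) ^ k = X := by
          rw [hX, ← pow_add]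
          congr 1
          omega
        omega
    have hc1 : E1.card ≤ F0.card := by
      apply Finset.card_le_card
      intro ℓ hℓ
      rw [hE1, Finset.mem_filter] at hℓ
      rw [hF0, Set.Finite.mem_toFinset]
      exact ⟨hES ℓ hℓ.1, hℓ.2⟩
    have hc2 : E2.card ≤ C := by
      calc E2.card ≤ (Finset.Icc 1 C).card := by
            apply Finset.card_le_card
            intro ℓ hℓ
            rw [hE2, Finset.mem_filter] at hℓ
            rw [Finset.mem_Icc]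
            exact ⟨(hS ℓ (hES ℓ hℓ.1)).pos, Nat.le_of_dvd hCpos hℓ.2⟩
        _ = C := by simp
    have hc3 : E3.card ≤ (2 * (2 * Z) + 1) ^ k * (C * (2 * Z)) := by
      apply count_b a b ha hb hind (2 * Z) E3
      · intro ℓ hℓ
        exact hS ℓ (hES ℓ (Finset.mem_filter.1 hℓ).1)
      · intro ℓ hℓ
        rw [hE3, Finset.mem_filter] at hℓ
        obtain ⟨hℓE, hℓm, hℓC⟩ := hℓ
        have hp := hS ℓ (hES ℓ hℓE)
        have hcop : ∀ x, x ∣ C → Nat.Coprime x ℓ := by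
          intro x hx
          rw [Nat.coprime_comm, Nat.Prime.coprime_iff_not_dvd hp]
          exact fun hd => hℓC (hd.trans hx)
        have hdC : ∀ i, a i * b i ∣ C := fun i => Finset.dvd_prod_of_mem _ (Finset.mem_univ i)
        exact (hDm ℓ (hES ℓ hℓE)).2.2.2.2 k (2 * Z) a b ha hb
          (fun i => hcop _ ((Dvd.intro _ rfl).trans (hdC i)))
          (fun i => hcop _ ((Dvd.intro_left _ rfl).trans (hdC i))) hab hℓm
    have hc4 : E4.card ≤ s * ((2 * Z) ^ k + 1) := by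
      apply count_a hS hG hPer hκ D (fun ℓ hℓ => (hDm ℓ hℓ).2.2.2.1) E4 ((2 * Z) ^ k)
      · intro ℓ hℓ
        exact hES ℓ (Finset.mem_filter.1 hℓ).1
      · intro ℓ hℓ
        exact (Finset.mem_filter.1 hℓ).2.1
      · intro ℓ hℓ
        exact (hDm ℓ (hES ℓ (Finset.mem_filter.1 hℓ).1)).1
      · intro ℓ hℓ
        exact (Finset.mem_filter.1 hℓ).2.2
    have hEc : E.card ≤ F0.card + C + (2 * (2 * Z) + 1) ^ k * (C * (2 * Z)) +
        s * ((2 * Z) ^ k + 1) := by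
      have h1 := Finset.card_le_card hcover
      have h2 := Finset.card_union_le ((E1 ∪ E2) ∪ E3) E4
      have h3 := Finset.card_union_le (E1 ∪ E2) E3
      have h4 := Finset.card_union_le E1 E2
      omega
    have hlt := final_numeric (c := E.card) hZ1 (by omega) hEc
    unfold cntS at hZc
    have : E.card = ((Finset.Icc 1 X).filter (fun ℓ => ℓ ∈ S)).card := rfl
    omega

end Pool.Agent.Lib.MP_c7ee41_nt
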