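import Mathlib
import Pool.Agent.Lib.MP_c7ee41_nt.Basic
import Pool.Agent.Lib.MP_c7ee41_nt.Quasi
import Pool.Agent.Lib.MP_c7ee41_nt.Finite

set_option autoImplicit false

/-!
# Multiplicative functions periodic modulo infinitely many primes: polynomial growth

If `F` is multiplicative, `|F n| ≤ C n ^ K`, and `S_F` contains infinitely often slightly more than
the trivial number of primes (`limsup (∑_{ℓ ∈ S_F, ℓ ≤ X} log ℓ) / log X > K`, or
`limsup #(S_F ∩ [1, X]) / log log X > K`), then `F` is a monomial.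
-/

namespace Pool.Agent.Lib.MP_c7ee41_nt.PolyGrowth

open Pool.Agent.Lib.MP_c7ee41_nt Filter

open Classical in
/-- the weighted count -/
noncomputable def theta (A : Set ℕ) (X : ℕ) : ℝ :=
  ∑ ℓ ∈ (Finset.Icc 1 X).filter (fun ℓ => ℓ ∈ A), Real.log ℓ

open Classical in
/-- the count -/
noncomputable def cnt (A : Set ℕ) (X : ℕ) : ℕ :=
  ((Finset.Icc 1 X).filter (fun ℓ => ℓ ∈ A)).card

lemma exists_sub {I : Finset ℕ} {w : ℕ → ℝ} {L t : ℝ} (hw : ∀ i ∈ I, w i ≤ L) (hL : 0 ≤ L)
    (ht : 0 ≤ t) (hI : t ≤ ∑ i ∈ I, w i) :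
    ∃ J ⊆ I, t ≤ ∑ i ∈ J, w i ∧ ∑ i ∈ J, w i ≤ t + L := by
  classical
  induction I using Finset.induction_on with
  | empty =>
    refine ⟨∅, le_rfl, hI, ?_⟩
    simp
    linarith
  | insert a s ha ih =>
    by_cases h : t ≤ ∑ i ∈ s, w i
    · obtain ⟨J, hJ, h1, h2⟩ := ih (fun i hi => hw i (Finset.mem_insert_of_mem hi)) h
      exact ⟨J, hJ.trans (Finset.subset_insert _ _), h1, h2⟩
    · refine ⟨insert a s, le_rfl, hI, ?_⟩
      rw [Finset.sum_insert ha]
      have := hw a (Finset.mem_insert_self _ _)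
      linarith

lemma tendsto_log_nat : Tendsto (fun X : ℕ => Real.log X) atTop atTop :=
  Real.tendsto_log_atTop.comp tendsto_natCast_atTop_atTop

lemma eventually_small {K c b : ℝ} (hb : 0 < b) (hc : 0 ≤ c) :
    ∀ᶠ u : ℝ in atTop, c * u ^ K < Real.exp (b * u) := by
  have h := (isLittleO_rpow_exp_pos_mul_atTop K hb).def (show (0 : ℝ) < 1 / (c + 1) by positivity)
  filter_upwards [h, eventually_gt_atTop 0] with u hu hu0
  rw [Real.norm_of_nonneg (by positivity), Real.norm_of_nonneg (by positivity)] at hu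
  have h1 : c * u ^ K ≤ c * (1 / (c + 1) * Real.exp (b * u)) := mul_le_mul_of_nonneg_left hu hc
  have h2 : c * (1 / (c + 1) * Real.exp (b * u)) < Real.exp (b * u) := by
    have h3 : c * (1 / (c + 1)) < 1 := by
      rw [mul_one_div, div_lt_one (by positivity)]
      linarith
    have h4 := Real.exp_pos (b * u)
    nlinarith
  linarith

lemma block {F : ArithmeticFunction ℤ} (hF : F.IsMultiplicative) {C K ε : ℝ} (hK : 0 ≤ K)
    (hε : 0 < ε)
    (hgrow : ∀ n : ℕ, 0 < n → |(F n : ℝ)| ≤ C * (n : ℝ) ^ K)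
    (hfreq : ∃ᶠ X : ℕ in atTop, (K + ε) * Real.log X ≤ theta (SF F) X) (M : ℕ) :
    ∃ I : Finset ℕ, (∀ ℓ ∈ I, ℓ ∈ SF F) ∧ I.Nonempty ∧ (∀ ℓ ∈ I, M < ℓ) ∧
      ∃ B : ℝ, (∀ j, 1 ≤ j → j ≤ (M + 1) * ∑ ℓ ∈ I, ℓ → |(F j : ℝ)| ≤ B) ∧
        2 ^ I.card * B < ∏ ℓ ∈ I, (ℓ : ℝ) := by
  classical
  have hC : 0 ≤ C := by
    have := hgrow 1 one_pos
    rw [hF.map_one] at this
    simp at this
    linarith
  -- the lower cut
  obtain ⟨B0, hB0M, hB0⟩ : ∃ B0 : ℕ, M ≤ B0 ∧ 8 * (K + 1 + ε) / ε ≤ Real.log B0 := by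
    have h1 := (tendsto_log_nat.eventually_ge_atTop (8 * (K + 1 + ε) / ε)).and
      (eventually_ge_atTop M)
    obtain ⟨B0, h2, h3⟩ := h1.exists
    exact ⟨B0, h3, h2⟩
  have hlogB0 : 0 < Real.log B0 := lt_of_lt_of_le (by positivity) hB0
  -- eventual inequalities
  have E1 : ∀ᶠ X : ℕ in atTop, theta (SF F) B0 ≤ ε / 2 * Real.log X :=
    (tendsto_log_nat.const_mul_atTop (show 0 < ε / 2 by positivity)).eventually_ge_atTop _
  have E2 : ∀ᶠ X : ℕ in atTop, (C * (((M : ℝ) + 1) * (ε / 8)) ^ K) * (Real.log X) ^ K <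
      Real.exp (3 * ε / 8 * Real.log X) :=
    tendsto_log_nat.eventually (eventually_small (by positivity) (by positivity))
  have E3 : ∀ᶠ X : ℕ in atTop, 2 ≤ X ∧ B0 ≤ X := (eventually_ge_atTop 2).and (eventually_ge_atTop B0)
  obtain ⟨X, hX, e1, e2, e3, e4⟩ := (hfreq.and_eventually (E1.and (E2.and E3))).exists
  have hXR : (2 : ℝ) ≤ X := by exact_mod_cast e3
  have hlogX : 0 < Real.log X := Real.log_pos (by linarith)
  set I0 := (Finset.Icc 1 X).filter (fun ℓ => ℓ ∈ SF F ∧ B0 < ℓ) with hI0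
  have hsplit : theta (SF F) X = theta (SF F) B0 + ∑ ℓ ∈ I0, Real.log ℓ := by
    unfold theta
    rw [hI0, ← Finset.sum_union]
    · apply Finset.sum_congr _ (fun _ _ => rfl)
      ext ℓ
      simp only [Finset.mem_filter, Finset.mem_Icc, Finset.mem_union]
      constructor
      · rintro ⟨⟨h1, h2⟩, h3⟩
        by_cases h4 : ℓ ≤ B0
        · exact Or.inl ⟨⟨h1, h4⟩, h3⟩
        · exact Or.inr ⟨⟨h1, h2⟩, h3, by omega⟩
      · rintro (⟨⟨h1, h2⟩, h3⟩ | ⟨⟨h1, h2⟩, h3, h4⟩)
        · exact ⟨⟨h1, by omega⟩, h3⟩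
        · exact ⟨⟨h1, h2⟩, h3⟩
    · rw [Finset.disjoint_left]
      intro ℓ h1 h2
      simp only [Finset.mem_filter, Finset.mem_Icc] at h1 h2
      omega
  have hI0sum : (K + ε / 2) * Real.log X ≤ ∑ ℓ ∈ I0, Real.log ℓ := by
    have : (K + ε) * Real.log X = (K + ε / 2) * Real.log X + ε / 2 * Real.log X := by ring
    linarith
  obtain ⟨I, hII0, hI1, hI2⟩ := exists_sub (I := I0) (w := fun ℓ => Real.log ℓ)
    (L := Real.log X) (t := (K + ε / 2) * Real.log X)
    (fun ℓ hℓ => by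
      simp only [hI0, Finset.mem_filter, Finset.mem_Icc] at hℓ
      apply Real.log_le_log
      · exact_mod_cast hℓ.1.1
      · exact_mod_cast hℓ.1.2) hlogX.le (by positivity) hI0sum
  have hmem : ∀ ℓ ∈ I, ℓ ∈ SF F ∧ B0 < ℓ ∧ 1 ≤ ℓ ∧ ℓ ≤ X := by
    intro ℓ hℓ
    have := hII0 hℓ
    simp only [hI0, Finset.mem_filter, Finset.mem_Icc] at this
    exact ⟨this.2.1, this.2.2, this.1.1, this.1.2⟩
  have hcard : (I.card : ℝ) ≤ ε / 8 * Real.log X := by
    have h1 : (I.card : ℝ) * Real.log B0 ≤ ∑ ℓ ∈ I, Real.log ℓ := by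
      rw [← nsmul_eq_mul]
      apply Finset.card_nsmul_le_sum
      intro ℓ hℓ
      have h2 := (hmem ℓ hℓ).2.1
      rcases Nat.eq_zero_or_pos B0 with h0 | h0
      · rw [h0] at hlogB0
        simp at hlogB0
      · apply Real.log_le_log
        · exact_mod_cast h0
        · exact_mod_cast h2.le
    have h2 : (I.card : ℝ) * (8 * (K + 1 + ε) / ε) ≤ (K + 1 + ε) * Real.log X := by
      have h3 : (I.card : ℝ) * (8 * (K + 1 + ε) / ε) ≤ (I.card : ℝ) * Real.log B0 :=
        mul_le_mul_of_nonneg_left hB0 (Nat.cast_nonneg _)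
      have h4 : (K + ε / 2) * Real.log X + Real.log X ≤ (K + 1 + ε) * Real.log X := by
        nlinarith
      linarith
    have h3 : (I.card : ℝ) * (8 * (K + 1 + ε) / ε) = (K + 1 + ε) * ((I.card : ℝ) * 8 / ε) := by
      field_simp
    rw [h3] at h2
    have h4 := le_of_mul_le_mul_left h2 (by positivity)
    have h5 : (I.card : ℝ) = (ε / 8) * ((I.card : ℝ) * 8 / ε) := by
      field_simp
    rw [h5]
    exact mul_le_mul_of_nonneg_left h4 (by positivity)
  have hsum : (∑ ℓ ∈ I, ℓ) ≤ I.card * X := by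
    rw [← smul_eq_mul]
    exact Finset.sum_le_card_nsmul _ _ _ (fun ℓ hℓ => (hmem ℓ hℓ).2.2.2)
  refine ⟨I, fun ℓ hℓ => (hmem ℓ hℓ).1, ?_, fun ℓ hℓ => lt_of_le_of_lt hB0M (hmem ℓ hℓ).2.1,
    C * (((M : ℝ) + 1) * ((I.card : ℝ) * X)) ^ K, ?_, ?_⟩
  · rw [Finset.nonempty_iff_ne_empty]
    rintro rfl
    have : 0 < (K + ε / 2) * Real.log X := by positivity
    simp at hI1
    linarith
  · intro j hj1 hj2
    apply (hgrow j (by omega)).trans
    apply mul_le_mul_of_nonneg_left _ hC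
    apply Real.rpow_le_rpow (by positivity) _ hK
    have : j ≤ (M + 1) * (I.card * X) := hj2.trans (Nat.mul_le_mul_left _ hsum)
    exact_mod_cast this
  · have hprod : Real.exp ((K + ε / 2) * Real.log X) ≤ ∏ ℓ ∈ I, (ℓ : ℝ) := by
      rw [← Real.exp_log (show 0 < ∏ ℓ ∈ I, (ℓ : ℝ) from Finset.prod_pos (fun ℓ hℓ => by
        exact_mod_cast (hmem ℓ hℓ).2.2.1)), Real.log_prod (fun ℓ hℓ => by
          have := (hmem ℓ hℓ).2.2.1
          positivity)]
      exact Real.exp_le_exp.2 hI1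
    refine lt_of_lt_of_le ?_ hprod
    have h2pow : (2 : ℝ) ^ I.card ≤ Real.exp (ε / 8 * Real.log X) := by
      rw [← Real.exp_log (show (0 : ℝ) < 2 ^ I.card by positivity), Real.log_pow]
      apply Real.exp_le_exp.2
      have : Real.log 2 ≤ 1 := by
        have := Real.log_two_lt_d9
        linarith
      calc (I.card : ℝ) * Real.log 2 ≤ (I.card : ℝ) * 1 :=
            mul_le_mul_of_nonneg_left this (Nat.cast_nonneg _)
        _ ≤ _ := by rw [mul_one]; exact hcard
    have hB : C * (((M : ℝ) + 1) * ((I.card : ℝ) * X)) ^ K ≤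
        (C * (((M : ℝ) + 1) * (ε / 8)) ^ K * (Real.log X) ^ K) * Real.exp (K * Real.log X) := by
      have h1 : (((M : ℝ) + 1) * ((I.card : ℝ) * X)) ^ K ≤
          ((((M : ℝ) + 1) * (ε / 8)) * Real.log X * X) ^ K := by
        apply Real.rpow_le_rpow (by positivity) _ hK
        have : ((M : ℝ) + 1) * ((I.card : ℝ) * X) ≤ ((M : ℝ) + 1) * ((ε / 8 * Real.log X) * X) := by
          apply mul_le_mul_of_nonneg_left _ (by positivity)
          exact mul_le_mul_of_nonneg_right hcard (by positivity)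
        linarith
      have h2 : ((((M : ℝ) + 1) * (ε / 8)) * Real.log X * X) ^ K =
          (((M : ℝ) + 1) * (ε / 8)) ^ K * (Real.log X) ^ K * Real.exp (K * Real.log X) := by
        rw [Real.mul_rpow (by positivity) (by positivity), Real.mul_rpow (by positivity) hlogX.le]
        congr 1
        rw [Real.rpow_def_of_pos (by linarith), mul_comm]
      rw [h2] at h1
      calc _ ≤ C * ((((M : ℝ) + 1) * (ε / 8)) ^ K * (Real.log X) ^ K *
              Real.exp (K * Real.log X)) := mul_le_mul_of_nonneg_left h1 hC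
        _ = _ := by ring
    calc (2 : ℝ) ^ I.card * (C * (((M : ℝ) + 1) * ((I.card : ℝ) * X)) ^ K)
        ≤ Real.exp (ε / 8 * Real.log X) *
          ((C * (((M : ℝ) + 1) * (ε / 8)) ^ K * (Real.log X) ^ K) * Real.exp (K * Real.log X)) := by
          apply mul_le_mul h2pow hB (by positivity) (by positivity)
      _ < Real.exp (ε / 8 * Real.log X) *
          (Real.exp (3 * ε / 8 * Real.log X) * Real.exp (K * Real.log X)) := by
          apply mul_lt_mul_of_pos_left _ (by positivity)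
          exact mul_lt_mul_of_pos_right e2 (by positivity)
      _ = Real.exp ((K + ε / 2) * Real.log X) := by
          rw [← Real.exp_add, ← Real.exp_add]
          congr 1
          ring

lemma theta_mono_set {A : Set ℕ} (hA : A.Finite) (X : ℕ) :
    theta A X ≤ ∑ ℓ ∈ hA.toFinset, Real.log ℓ := by
  classical
  unfold theta
  apply Finset.sum_le_sum_of_subset_of_nonneg
  · intro ℓ hℓ
    rw [Finset.mem_filter] at hℓ
    exact hA.mem_toFinset.2 hℓ.2
  · intro ℓ _ _
    exact Real.log_natCast_nonneg ℓ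

lemma infinite_of_theta {A : Set ℕ} {a : ℝ} (ha : 0 < a)
    (hfreq : ∃ᶠ X : ℕ in atTop, a * Real.log X ≤ theta A X) : A.Infinite := by
  intro hA
  have h1 := (tendsto_log_nat.const_mul_atTop ha).eventually_gt_atTop
    (∑ ℓ ∈ hA.toFinset, Real.log ℓ)
  obtain ⟨X, h2, h3⟩ := (hfreq.and_eventually h1).exists
  have := theta_mono_set hA X
  linarith

lemma theta_succ_mem {A : Set ℕ} {X : ℕ} (h : X + 1 ∈ A) :
    theta A (X + 1) = theta A X + Real.log ((X + 1 : ℕ) : ℝ) := by
  classical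
  unfold theta
  rw [← Finset.insert_Icc_right_eq_Icc_add_one (by omega), Finset.filter_insert, if_pos h,
    Finset.sum_insert (by simp), add_comm]

lemma theta_succ_not_mem {A : Set ℕ} {X : ℕ} (h : X + 1 ∉ A) :
    theta A (X + 1) = theta A X := by
  classical
  unfold theta
  rw [← Finset.insert_Icc_right_eq_Icc_add_one (by omega), Finset.filter_insert, if_neg h]

lemma cnt_succ_mem {A : Set ℕ} {X : ℕ} (h : X + 1 ∈ A) :
    cnt A (X + 1) = cnt A X + 1 := by
  classical
  unfold cnt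
  rw [← Finset.insert_Icc_right_eq_Icc_add_one (by omega), Finset.filter_insert, if_pos h,
    Finset.card_insert_of_notMem (by simp)]

lemma cnt_succ_not_mem {A : Set ℕ} {X : ℕ} (h : X + 1 ∉ A) :
    cnt A (X + 1) = cnt A X := by
  classical
  unfold cnt
  rw [← Finset.insert_Icc_right_eq_Icc_add_one (by omega), Finset.filter_insert, if_neg h]

lemma tendsto_loglog_nat : Tendsto (fun X : ℕ => Real.log (Real.log X)) atTop atTop :=
  Real.tendsto_log_atTop.comp tendsto_log_nat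

lemma cnt_le_of_finite {A : Set ℕ} (hA : A.Finite) (X : ℕ) : cnt A X ≤ hA.toFinset.card := by
  classical
  unfold cnt
  apply Finset.card_le_card
  intro ℓ hℓ
  rw [Finset.mem_filter] at hℓ
  exact hA.mem_toFinset.2 hℓ.2

/-- the number of elements is at most `a log log X + O(1)` if `θ(X) < a log X` for large `X`. -/
lemma theta_of_cnt {A : Set ℕ} {a ε : ℝ} (ha : 0 < a) (hε : 0 < ε)
    (hfreq : ∃ᶠ X : ℕ in atTop, (a + ε) * Real.log (Real.log X) ≤ (cnt A X : ℝ)) :
    ∃ᶠ X : ℕ in atTop, a * Real.log X ≤ theta A X := by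
  by_contra hcon
  rw [not_frequently] at hcon
  -- `A` is infinite
  have hinf : A.Infinite := by
    intro hA
    have h1 := (tendsto_loglog_nat.const_mul_atTop (show 0 < a + ε by positivity)).eventually_gt_atTop
      ((hA.toFinset.card : ℕ) : ℝ)
    obtain ⟨X, h2, h3⟩ := (hfreq.and_eventually h1).exists
    have : (cnt A X : ℝ) ≤ ((hA.toFinset.card : ℕ) : ℝ) := by exact_mod_cast cnt_le_of_finite hA X
    linarith
  obtain ⟨N0, hN0⟩ := eventually_atTop.1 hcon
  obtain ⟨X0, hX0A, hX0⟩ := hinf.exists_gt (max N0 2)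
  have hX0N : N0 ≤ X0 := (le_max_left _ _).trans hX0.le
  have hX02 : 2 < X0 := lt_of_le_of_lt (le_max_right _ _) hX0
  have hpos : 0 < theta A X0 := by
    obtain ⟨Y, rfl⟩ : ∃ Y, X0 = Y + 1 := ⟨X0 - 1, by omega⟩
    rw [theta_succ_mem hX0A]
    have h1 : 0 ≤ theta A Y := by
      unfold theta
      exact Finset.sum_nonneg (fun ℓ _ => Real.log_natCast_nonneg ℓ)
    have h2 : 0 < Real.log ((Y + 1 : ℕ) : ℝ) := by
      apply Real.log_pos
      exact_mod_cast (show 1 < Y + 1 by omega)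
    linarith
  have hind : ∀ X, X0 ≤ X → theta A X0 * Real.exp (((cnt A X : ℝ) - cnt A X0) / a) ≤ theta A X := by
    intro X hX
    induction X, hX using Nat.le_induction with
    | base => simp
    | succ X hX ih =>
      by_cases hm : X + 1 ∈ A
      · have h1 := theta_succ_mem hm
        have h2 := hN0 (X + 1) (by omega)
        push Not at h2
        have h3 : theta A X ≤ theta A (X + 1) * Real.exp (-(1 / a)) := by
          have h4 : theta A (X + 1) / a < Real.log ((X + 1 : ℕ) : ℝ) := by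
            rw [div_lt_iff₀ ha, mul_comm]
            exact h2
          have h5 : 0 ≤ theta A (X + 1) := by
            unfold theta
            exact Finset.sum_nonneg (fun ℓ _ => Real.log_natCast_nonneg ℓ)
          have h6 : theta A X ≤ theta A (X + 1) * (1 + -(1 / a)) := by
            have : theta A (X + 1) * (1 + -(1 / a)) = theta A (X + 1) - theta A (X + 1) / a := by
              ring
            rw [this]
            linarith
          have h7 := Real.add_one_le_exp (-(1 / a))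
          exact h6.trans (mul_le_mul_of_nonneg_left (by linarith) h5)
        have h8 : theta A X * Real.exp (1 / a) ≤ theta A (X + 1) := by
          calc theta A X * Real.exp (1 / a)
              ≤ theta A (X + 1) * Real.exp (-(1 / a)) * Real.exp (1 / a) :=
                mul_le_mul_of_nonneg_right h3 (Real.exp_pos _).le
            _ = theta A (X + 1) := by
                rw [mul_assoc, ← Real.exp_add, neg_add_cancel, Real.exp_zero, mul_one]
        rw [cnt_succ_mem hm]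
        calc _ = (theta A X0 * Real.exp (((cnt A X : ℝ) - cnt A X0) / a)) * Real.exp (1 / a) := by
              rw [mul_assoc, ← Real.exp_add]
              congr 2
              push_cast
              ring
          _ ≤ theta A X * Real.exp (1 / a) := mul_le_mul_of_nonneg_right ih (Real.exp_pos _).le
          _ ≤ _ := h8
      · rw [theta_succ_not_mem hm, cnt_succ_not_mem hm]
        exact ih
  -- conclusion
  set c : ℝ := cnt A X0 + a * (Real.log a - Real.log (theta A X0)) with hc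
  have h1 := (tendsto_loglog_nat.const_mul_atTop hε).eventually_gt_atTop c
  have h2 : ∀ᶠ X : ℕ in atTop, X0 ≤ X := eventually_ge_atTop X0
  obtain ⟨X, h3, h4, h5⟩ := (hfreq.and_eventually (h1.and h2)).exists
  have h6 := hind X h5
  have h7 := hN0 X (by omega)
  push Not at h7
  have hXR : (2 : ℝ) < X := by exact_mod_cast (show 2 < X by omega)
  have hlogX : 0 < Real.log X := Real.log_pos (by linarith)
  have h8 : theta A X0 * Real.exp (((cnt A X : ℝ) - cnt A X0) / a) < a * Real.log X :=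
    lt_of_le_of_lt h6 h7
  have h9 := Real.log_lt_log (by positivity) h8
  rw [Real.log_mul hpos.ne' (Real.exp_pos _).ne', Real.log_exp, Real.log_mul ha.ne' hlogX.ne'] at h9
  have h10 : ((cnt A X : ℝ) - cnt A X0) / a <
      Real.log a - Real.log (theta A X0) + Real.log (Real.log X) := by linarith
  rw [div_lt_iff₀ ha] at h10
  nlinarith

lemma sum_eq (F : ArithmeticFunction ℤ) (X : ℕ)
    [DecidablePred (fun ℓ : ℕ => ℓ.Prime ∧ ∀ n : ℕ, 0 < n → F (n + ℓ) ≡ F n [ZMOD (ℓ : ℤ)])] :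
    ∑ ℓ ∈ (Finset.Icc 1 X).filter
      (fun ℓ : ℕ => ℓ.Prime ∧ ∀ n : ℕ, 0 < n → F (n + ℓ) ≡ F n [ZMOD (ℓ : ℤ)]), Real.log ℓ =
      theta (SF F) X := by
  unfold theta
  apply Finset.sum_congr _ (fun _ _ => rfl)
  ext ℓ
  simp only [Finset.mem_filter]
  rfl

lemma card_eq (F : ArithmeticFunction ℤ) (X : ℕ)
    [DecidablePred (fun ℓ : ℕ => ℓ.Prime ∧ ∀ n : ℕ, 0 < n → F (n + ℓ) ≡ F n [ZMOD (ℓ : ℤ)])] :
    ((Finset.Icc 1 X).filter
      (fun ℓ : ℕ => ℓ.Prime ∧ ∀ n : ℕ, 0 < n → F (n + ℓ) ≡ F n [ZMOD (ℓ : ℤ)])).card =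
      cnt (SF F) X := by
  unfold cnt
  congr 1
  ext ℓ
  simp only [Finset.mem_filter]
  rfl

open Classical in
/-- Let `F` be multiplicative with `|F n| ≤ C n ^ K` and suppose that, for some `ε > 0`, either
`∑_{ℓ ∈ S_F, ℓ ≤ X} log ℓ ≥ (K + ε) log X` for arbitrarily large `X`, or
`#{ℓ ∈ S_F : ℓ ≤ X} ≥ (K + ε) log log X` for arbitrarily large `X`. Then `F` is a monomial. -/
theorem result (F : ArithmeticFunction ℤ) (hF : F.IsMultiplicative) (C K ε : ℝ) (hK : 0 ≤ K)
    (hε : 0 < ε) (hgrow : ∀ n : ℕ, 0 < n → |(F n : ℝ)| ≤ C * (n : ℝ) ^ K)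
    (hS : (∃ᶠ X : ℕ in atTop, (K + ε) * Real.log X ≤
        ∑ ℓ ∈ (Finset.Icc 1 X).filter
          (fun ℓ : ℕ => ℓ.Prime ∧ ∀ n : ℕ, 0 < n → F (n + ℓ) ≡ F n [ZMOD (ℓ : ℤ)]), Real.log ℓ) ∨
      (∃ᶠ X : ℕ in atTop, (K + ε) * Real.log (Real.log X) ≤
        (((Finset.Icc 1 X).filter
          (fun ℓ : ℕ => ℓ.Prime ∧ ∀ n : ℕ, 0 < n → F (n + ℓ) ≡ F n [ZMOD (ℓ : ℤ)])).card : ℝ))) :
    ∃ k : ℕ, ∀ n : ℕ, 0 < n → F n = (n : ℤ) ^ k := by
  have hfreq : ∃ ε' : ℝ, 0 < ε' ∧
      ∃ᶠ X : ℕ in atTop, (K + ε') * Real.log X ≤ theta (SF F) X := by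
    rcases hS with h | h
    · refine ⟨ε, hε, h.mono (fun X hX => ?_)⟩
      rw [← sum_eq]
      exact hX
    · refine ⟨ε / 2, by positivity, theta_of_cnt (ε := ε / 2) (by positivity) (by positivity)
        (h.mono (fun X hX => ?_))⟩
      have e : K + ε / 2 + ε / 2 = K + ε := by ring
      rw [e, ← card_eq]
      exact hX
  obtain ⟨ε', hε', hfr⟩ := hfreq
  have hinf : (SF F).Infinite := infinite_of_theta (a := K + ε') (by positivity) hfr
  exact main_abstract hF hinf (fun M => block hF hK hε' hgrow hfr M)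

end Pool.Agent.Lib.MP_c7ee41_nt.PolyGrowth
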